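import Mathlib
import Pool.Agent.R931.GD.Defs

/-!
# Types of regular elements: definitions
-/

set_option autoImplicit false

namespace Pool.Agent.R931.ZL

open NumberField IsDedekindDomain Polynomial Pool.Agent.Y114.TF Pool.Agent.Y114.GF
  Pool.Agent.Y114.RM Pool.Agent.R931.GD

/-- The exponents of the multiplicative relations, modulo roots of unity, between the numbers `z i`. -/
def relations {F I : Type} [Field F] [Fintype I] (z : I → F) : Set (I → ℤ) :=
  {n | ∃ m : ℕ, 0 < m ∧ (∏ i, z i ^ n i) ^ m = 1}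

/-- There are `r` indices such that no nonzero element of `R` is supported on these indices. -/
def RankGE {N : ℕ} (r : ℕ) (R : Set (Fin N → ℤ)) : Prop :=
  ∃ J : Finset (Fin N), J.card = r ∧ ∀ n ∈ R, (∀ i, i ∉ J → n i = 0) → n = 0

/-- The permutations which preserve the set `R` of relations. -/
def relAut {I : Type} (R : Set (I → ℤ)) : Subgroup (Equiv.Perm I) where
  carrier := {π | ∀ n : I → ℤ, (fun i => n (π i)) ∈ R ↔ n ∈ R}
  mul_mem' := by
    intro π π' h h' n
    exact (h' (fun j => n (π j))).trans (h n)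
  one_mem' := fun n => Iff.rfl
  inv_mem' := by
    intro π h n
    have h1 := h (fun i => n (π⁻¹ i))
    have h2 : (fun i => n (π⁻¹ (π i))) = n := by
      funext i
      exact congrArg n (π.symm_apply_apply i)
    change (fun i => n (π⁻¹ (π i))) ∈ R ↔ _ at h1
    rw [h2] at h1
    exact h1.symm

/-- `A` is the only subgroup of `A` which contains a conjugate (by an element of `A`) of every
element of `T`. -/
def GeneratesInvariably {I : Type} (A : Subgroup (Equiv.Perm I)) (T : Set (Equiv.Perm I)) : Prop :=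
  ∀ H : Subgroup (Equiv.Perm I), H ≤ A → (∀ a ∈ T, ∃ x ∈ A, x⁻¹ * a * x ∈ H) → H = A

/-- `A` is the only normal subgroup `H` of `A` such that for every `j` all elements of `T j` are
conjugate modulo `H`. -/
def SeparatedModulo {I J : Type} (A : Subgroup (Equiv.Perm I)) (T : J → Set (Equiv.Perm I)) : Prop :=
  ∀ H : Subgroup (Equiv.Perm I), H ≤ A → (∀ x ∈ A, ∀ h ∈ H, x * h * x⁻¹ ∈ H) →
    (∀ j, ∀ a ∈ T j, ∀ b ∈ T j, ∃ x ∈ A, x⁻¹ * a * x * b⁻¹ ∈ H) → H = A

/-- The numbers `(q v) ^ c * a` for the roots `a` of `P` are algebraic integers. -/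
def IntegralAt {K : Type} [Field K] [NumberField K] (c : ℕ) (v : HeightOneSpectrum (𝓞 K))
    (P : ℚ[X]) : Prop :=
  ∀ a : ℂ, aeval a P = 0 → IsIntegral ℤ ((q v : ℂ) ^ c * a)

/-- The element `g` has the type `a`, with respect to the relations `R` and the automorphism `τ` of the
algebraic closure of `ℚ_ℓ`: it has `N` eigenvalues `z i`, no quotient of two of them is a root of
unity, `R` is the set of the multiplicative relations (modulo roots of unity) between them, and
`τ (z i) = z (a i)`. -/
def HasType {Γ : Type} [Group Γ] {N ℓ : ℕ} [Fact ℓ.Prime] (ρ : Rep1 Γ N ℓ) (g : Γ)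
    (R : Set (Fin N → ℤ)) (τ : Gal(PadicAlgCl ℓ/ℚ_[ℓ])) (a : Equiv.Perm (Fin N)) : Prop :=
  ∃ z : Fin N → PadicAlgCl ℓ, (∀ i, aeval (z i) (ρ () g).charpoly = 0) ∧
    (∀ i j, ∀ n : ℕ, 0 < n → z i ^ n = z j ^ n → i = j) ∧ relations z = R ∧ ∀ i, τ (z i) = z (a i)

/-- A technical condition, which is void for `K = ℚ`: there is a prime number `p` which is not ramified
in `K`, such that there is good reduction at the places above `p`, the Frobenius eigenvalues at these
places are independent, and there are `r` multiplicatively independent ones at one of these places. -/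
def HasGoodPrime {K : Type} [Field K] [NumberField K] (S : Set (HeightOneSpectrum (𝓞 K)))
    (P : HeightOneSpectrum (𝓞 K) → ℚ[X]) (r : ℕ) : Prop :=
  Module.finrank ℚ K = 1 ∨ ∃ p : ℕ, p.Prime ∧ UnramifiedIn K p ∧ (∀ v, Above v p → v ∉ S) ∧
    IndependentPlaces (fun v (_ : Unit) => P v) p ∧ ∃ v, Above v p ∧ IndepRoots r {P v}

end Pool.Agent.R931.ZL
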