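import Mathlib
import Pool.Agent.Y86.RM.Tor
import Pool.Agent.Y809.RM.BC

/-!
# Additive functions of the eigenvalues of elements of an algebraic Lie algebra
-/

set_option autoImplicit false
set_option linter.unusedSectionVars false

namespace Pool.Agent.R931.ZL

open Module TensorProduct Finset Function Pool.Agent.TH118.SG Pool.Agent.Y114.RM Pool.Agent.Y86.RM

section deriv

variable {K : Type} [Field K] [CharZero K] [IsAlgClosed K] {T : Type} [AddCommGroup T]
  [Module K T] [FiniteDimensional K T] {S : Type} [Fintype S] [DecidableEq S]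

omit [CharZero K] [IsAlgClosed K] [FiniteDimensional K T] in
/-- A form killed by a derivation vanishes on generalized eigenvectors, unless the sum of the
eigenvalues is zero. -/
theorem deriv_zero {f : End K T} {h : MultilinearMap K (fun _ : S => T) K}
    (hh : ∀ v, ∑ j, h (update v j (f (v j))) = 0) (a : S → K) (ha : ∑ j, a j ≠ 0) :
    ∀ (n : ℕ) (v : S → T) (m : S → ℕ),
    (∀ j, ((f - algebraMap K (End K T) (a j)) ^ m j) (v j) = 0) → ∑ j, m j ≤ n → h v = 0 := by
  intro n
  induction n with
  | zero =>
    intro v m hm hsum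
    have hS : Nonempty S := by
      by_contra hcon
      rw [not_nonempty_iff] at hcon
      exact ha (by rw [Finset.univ_eq_empty, Finset.sum_empty])
    obtain ⟨j⟩ := hS
    have h1 : m j = 0 := by
      have h2 := Finset.single_le_sum (f := m) (fun i _ => Nat.zero_le _) (Finset.mem_univ j)
      omega
    have h2 := hm j
    rw [h1, pow_zero, Module.End.one_apply] at h2
    exact h.map_coord_zero j h2
  | succ n ih =>
    intro v m hm hsum
    have h1 := hh v
    have h2 : ∀ j, h (update v j (f (v j))) = a j * h v +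
        h (update v j ((f - algebraMap K (End K T) (a j)) (v j))) := by
      intro j
      have h3 : f (v j) = a j • v j + (f - algebraMap K (End K T) (a j)) (v j) := by
        rw [LinearMap.sub_apply, Module.algebraMap_end_apply, add_sub_cancel]
      rw [h3, h.map_update_add, h.map_update_smul, update_eq_self, smul_eq_mul]
    have h3 : ∀ j, h (update v j ((f - algebraMap K (End K T) (a j)) (v j))) = 0 := by
      intro j
      by_cases hj : m j = 0
      · have h4 : v j = 0 := by
          have h5 := hm j
          rw [hj, pow_zero, Module.End.one_apply] at h5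
          exact h5
        rw [h4, map_zero, h.map_update_zero]
      · refine ih _ (update m j (m j - 1)) (fun i => ?_) ?_
        · by_cases hi : i = j
          · subst hi
            rw [update_self, update_self, ← Module.End.mul_apply, ← pow_succ,
              Nat.sub_add_cancel (Nat.one_le_iff_ne_zero.2 hj)]
            exact hm i
          · rw [update_of_ne hi, update_of_ne hi]
            exact hm i
        · have h4 : ∑ i, update m j (m j - 1) i < ∑ i, m i := by
            refine Finset.sum_lt_sum (fun i _ => ?_) ⟨j, Finset.mem_univ j, ?_⟩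
            · by_cases hi : i = j
              · subst hi
                rw [update_self]
                omega
              · rw [update_of_ne hi]
            · rw [update_self]
              omega
          omega
    rw [sum_congr rfl fun j _ => h2 j, sum_add_distrib, sum_congr rfl fun j _ => h3 j,
      sum_const_zero, add_zero, ← sum_mul] at h1
    exact (mul_eq_zero.1 h1).resolve_left ha

open scoped Classical in
/-- The derivation formula. -/
theorem deriv_add (F : K →+ K) (f : End K T) {Y : End K T}
    (hY : ∀ β, ∀ x ∈ f.maxGenEigenspace β, Y x = F β • x)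
    {h : MultilinearMap K (fun _ : S => T) K}
    (hh : ∀ v, ∑ j, h (update v j (f (v j))) = 0) (v : S → T) :
    ∑ j, h (update v j (Y (v j))) = 0 := by
  let b : ∀ β : K, Basis (Fin (finrank K (f.maxGenEigenspace β))) K (f.maxGenEigenspace β) :=
    fun β => Module.finBasis K _
  let B := (gen_internal f).collectedBasis b
  have hB : ∀ i, B i ∈ f.maxGenEigenspace i.1 := (gen_internal f).collectedBasis_mem b
  let D : MultilinearMap K (fun _ : S => T) K :=
    ∑ j, h.compLinearMap fun i => if i = j then Y else LinearMap.id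
  have hD : ∀ v, D v = ∑ j, h (update v j (Y (v j))) := by
    intro v
    rw [_root_.sum_apply]
    refine sum_congr rfl fun j _ => ?_
    rw [MultilinearMap.compLinearMap_apply]
    congr 1
    funext i
    by_cases hi : i = j
    · subst hi
      rw [if_pos rfl, update_self]
    · rw [if_neg hi, update_of_ne hi, LinearMap.id_apply]
  have key : D = 0 := by
    refine Module.Basis.ext_multilinear (fun _ => B) fun r => ?_
    rw [hD]
    change _ = (0 : K)
    have h3 : ∀ j, h (update (fun j => B (r j)) j (Y (B (r j)))) =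
        F (r j).1 * h fun j => B (r j) := by
      intro j
      rw [hY _ _ (hB (r j)), MultilinearMap.map_update_smul, update_eq_self, smul_eq_mul]
    rw [sum_congr rfl fun j _ => h3 j, ← sum_mul, ← map_sum]
    by_cases h0 : ∑ j, (r j).1 = 0
    · rw [h0, map_zero, zero_mul]
    · have h4 : ∀ j, ∃ n : ℕ, ((f - algebraMap K (End K T) (r j).1) ^ n) (B (r j)) = 0 := fun j =>
        mem_gen.1 (hB (r j))
      choose m hm using h4
      rw [deriv_zero hh (fun j => (r j).1) h0 _ (fun j => B (r j)) m hm le_rfl, mul_zero]
  rw [← hD, key]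
  rfl

end deriv

section nat

variable {K : Type} [Field K] [CharZero K] [IsAlgClosed K] {E₁ E₂ : Type} [AddCommGroup E₁]
  [Module K E₁] [FiniteDimensional K E₁] [AddCommGroup E₂] [Module K E₂]

theorem op_nat' {f₁ Y₁ : End K E₁} {f₂ Y₂ : End K E₂} {A : E₁ →ₗ[K] E₂}
    (h : ∀ x, A (f₁ x) = f₂ (A x)) {t : K → K}
    (h1 : ∀ β, ∀ x ∈ f₁.maxGenEigenspace β, Y₁ x = t β • x)
    (h2 : ∀ β, ∀ x ∈ f₂.maxGenEigenspace β, Y₂ x = t β • x) (x : E₁) : A (Y₁ x) = Y₂ (A x) := by
  have hx : x ∈ ⨆ β, f₁.maxGenEigenspace β := by
    rw [Module.End.iSup_maxGenEigenspace_eq_top f₁]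
    exact Submodule.mem_top
  induction hx using Submodule.iSup_induction' with
  | mem β x hx => rw [h1 β x hx, map_smul, h2 β _ (map_gen h hx)]
  | zero => simp only [map_zero]
  | add x y _ _ hx hy => rw [map_add, map_add, map_add, map_add, hx, hy]

end nat

section main

variable {k : Type} [Field k] [CharZero k] {C : Type} [Field C] [CharZero C] [IsAlgClosed C]
  [Algebra k C]

open scoped Classical in
theorem claimA' {U : Type} [AddCommGroup U] [Module k U] [FiniteDimensional k U] {ν : Type}
    [Fintype ν] (b : Basis ν k U) (G : End C (C ⊗[k] U)) (F : C →+ C)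
    (Z : End C (C ⊗[k] U)) (hZ : ∀ β, ∀ x ∈ G.maxGenEigenspace β, Z x = F β • x) (π : C →ₗ[k] k)
    {m : ℕ} (φ : MultilinearMap k (fun _ : Fin m => U) k)
    (hφ : ∀ v, ∑ l, Pool.Agent.H204R3.SP.bcm (Ω := C) b φ (update v l (G (v l))) = 0)
    (v : Fin m → U) :
    ∑ l, φ (Function.update v l (pM π Z (v l))) = 0 := by
  have key := deriv_add F G hZ hφ (fun l => (1 : C) ⊗ₜ[k] v l)
  have key2 := congrArg π key
  rw [map_zero, map_sum] at key2
  rw [← key2]
  refine Finset.sum_congr rfl fun l _ => ?_
  rw [pM_apply, ← pi_bcm b φ π v l]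

variable {V : Type} [AddCommGroup V] [Module k V] [FiniteDimensional k V]

omit [CharZero k] [CharZero C] [IsAlgClosed C] [FiniteDimensional k V] in
theorem bc_natural {W W' : Type} [AddCommGroup W] [Module k W] [AddCommGroup W'] [Module k W']
    {f : End k W} {g : End k W'} {A : W →ₗ[k] W'} (h : ∀ x, A (f x) = g (A x)) (x : C ⊗[k] W) :
    A.baseChange C (f.baseChange C x) = g.baseChange C (A.baseChange C x) := by
  induction x using TensorProduct.induction_on with
  | zero => simp only [map_zero]
  | tmul c v => rw [LinearMap.baseChange_tmul, LinearMap.baseChange_tmul, LinearMap.baseChange_tmul,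
      LinearMap.baseChange_tmul, h]
  | add x y hx hy => simp only [map_add, hx, hy]

open scoped Classical in
theorem exists_lift (𝔤 : Submodule k (End k V)) {ν : Type} [Fintype ν]
    (b : Basis ν k (V × Dual k V)) {X : End C (C ⊗[k] V)} (hX : X ∈ bcS C 𝔤) :
    ∃ (G : End C (C ⊗[k] (V × Dual k V))) (X' : End C (C ⊗[k] Dual k V)),
      (∀ x, (LinearMap.inl k V (Dual k V)).baseChange C (X x) =
        G ((LinearMap.inl k V (Dual k V)).baseChange C x)) ∧
      (∀ x, (LinearMap.inr k V (Dual k V)).baseChange C (X' x) =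
        G ((LinearMap.inr k V (Dual k V)).baseChange C x)) ∧
      ∀ (m : ℕ) (φ : Tensor k V m), (∀ v, ∀ Z ∈ 𝔤, ∑ l, φ (update v l (lie Z (v l))) = 0) →
        ∀ v, ∑ l, Pool.Agent.H204R3.SP.bcm (Ω := C) b φ (update v l (G (v l))) = 0 := by
  induction hX using Submodule.span_induction with
  | mem X hX =>
    obtain ⟨Z, hZ, rfl⟩ := hX
    refine ⟨(lie Z).baseChange C, ((-Z.dualMap : End k (Dual k V))).baseChange C, bc_natural ?_,
      bc_natural ?_, ?_⟩
    · intro x
      refine Prod.ext rfl ?_
      change (0 : Dual k V) = (-Z.dualMap) 0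
      rw [map_zero]
    · intro x
      refine Prod.ext ?_ rfl
      change (0 : V) = Z 0
      rw [map_zero]
    · intro m φ hφ
      let Φ := Pool.Agent.H204R3.SP.bcm (Ω := C) b φ
      let D : MultilinearMap C (fun _ : Fin m => C ⊗[k] (V × Dual k V)) C :=
        ∑ j, Φ.compLinearMap fun i => if i = j then (lie Z).baseChange C else LinearMap.id
      have hD : ∀ v, D v = ∑ j, Φ (update v j ((lie Z).baseChange C (v j))) := by
        intro v
        rw [_root_.sum_apply]
        refine sum_congr rfl fun j _ => ?_
        rw [MultilinearMap.compLinearMap_apply]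
        congr 1
        funext i
        by_cases hi : i = j
        · subst hi
          rw [if_pos rfl, update_self]
        · rw [if_neg hi, update_of_ne hi, LinearMap.id_apply]
      have key : D = 0 := by
        refine Basis.ext_multilinear (fun _ => b.baseChange C) fun J => ?_
        rw [hD]
        change _ = (0 : C)
        have h1 : ∀ j, Φ (update (fun l => b.baseChange C (J l)) j
            ((lie Z).baseChange C (b.baseChange C (J j)))) =
            algebraMap k C (φ (update (fun l => b (J l)) j (lie Z (b (J j))))) := by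
          intro j
          have h2 : update (fun l => b.baseChange C (J l)) j
              ((lie Z).baseChange C (b.baseChange C (J j))) =
              fun l => (1 : C) ⊗ₜ[k] (update (fun l => b (J l)) j (lie Z (b (J j)))) l := by
            funext l
            by_cases hl : l = j
            · subst hl
              rw [update_self, update_self, Basis.baseChange_apply, LinearMap.baseChange_tmul]
            · rw [update_of_ne hl, update_of_ne hl, Basis.baseChange_apply]
          rw [h2]
          exact Pool.Agent.H204R3.SP.bcm_one (Ω := C) b φ _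
        rw [sum_congr rfl fun j _ => h1 j, ← map_sum, hφ _ Z hZ, map_zero]
      intro v
      rw [← hD, key]
      rfl
  | zero =>
    refine ⟨0, 0, fun x => by simp, fun x => by simp, fun m φ hφ v => ?_⟩
    refine Finset.sum_eq_zero fun l _ => ?_
    rw [LinearMap.zero_apply, MultilinearMap.map_update_zero]
  | add X Y _ _ hX hY =>
    obtain ⟨G, X', h1, h2, h3⟩ := hX
    obtain ⟨G', Y', h1', h2', h3'⟩ := hY
    refine ⟨G + G', X' + Y', fun x => ?_, fun x => ?_, fun m φ hφ v => ?_⟩
    · rw [LinearMap.add_apply, LinearMap.add_apply, map_add, h1, h1']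
    · rw [LinearMap.add_apply, LinearMap.add_apply, map_add, h2, h2']
    · have h4 : ∀ l, Pool.Agent.H204R3.SP.bcm (Ω := C) b φ (update v l ((G + G') (v l))) =
          Pool.Agent.H204R3.SP.bcm (Ω := C) b φ (update v l (G (v l))) +
          Pool.Agent.H204R3.SP.bcm (Ω := C) b φ (update v l (G' (v l))) := fun l => by
        rw [LinearMap.add_apply, MultilinearMap.map_update_add]
      rw [sum_congr rfl fun l _ => h4 l, sum_add_distrib, h3 m φ hφ, h3' m φ hφ, add_zero]
  | smul c X _ hX =>
    obtain ⟨G, X', h1, h2, h3⟩ := hX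
    refine ⟨c • G, c • X', fun x => ?_, fun x => ?_, fun m φ hφ v => ?_⟩
    · rw [LinearMap.smul_apply, LinearMap.smul_apply, map_smul, h1]
    · rw [LinearMap.smul_apply, LinearMap.smul_apply, map_smul, h2]
    · have h4 : ∀ l, Pool.Agent.H204R3.SP.bcm (Ω := C) b φ (update v l ((c • G) (v l))) =
          c • Pool.Agent.H204R3.SP.bcm (Ω := C) b φ (update v l (G (v l))) := fun l => by
        rw [LinearMap.smul_apply, MultilinearMap.map_update_smul]
      rw [sum_congr rfl fun l _ => h4 l, ← smul_sum, h3 m φ hφ, smul_zero]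

theorem kills_iff {Z : End k V} {m : ℕ} {φ : Tensor k V m} :
    KillsTensor Z φ ↔ ∀ v, ∑ l, φ (Function.update v l (lie Z (v l))) = 0 := Iff.rfl

/-- Additive functions of the eigenvalues of the elements of an algebraic Lie algebra. -/
theorem add_mem (𝔤 : Submodule k (End k V))
    (halg : ∀ X, (∀ (m : ℕ) (φ : Tensor k V m), (∀ Y ∈ 𝔤, KillsTensor Y φ) →
      KillsTensor X φ) → X ∈ 𝔤) {X : End C (C ⊗[k] V)} (hX : X ∈ bcS C 𝔤) (F : C →+ C)
    {Y : End C (C ⊗[k] V)} (hY : ∀ β, ∀ x ∈ X.maxGenEigenspace β, Y x = F β • x) :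
    Y ∈ bcS C 𝔤 := by
  classical
  rw [(Pool.Agent.Y809.RM.BC.bc k C V 𝔤).1]
  intro π
  apply halg
  let b := Module.finBasis k (V × Dual k V)
  obtain ⟨G, X', hinl, hinr, hG⟩ := exists_lift 𝔤 b hX
  obtain ⟨Z, hZ⟩ := exists_op G (fun z => F z)
  obtain ⟨Y', hY'⟩ := exists_op X' (fun z => F z)
  have e1 : ∀ x : V, pM π Z (x, 0) = (pM π Y x, 0) := by
    intro x
    have h1 := op_nat' hinl hY hZ ((1 : C) ⊗ₜ[k] x)
    have h2 := congrArg (pv π) h1
    rw [pv_nat, LinearMap.baseChange_tmul] at h2
    exact h2.symm
  have e2 : ∀ ξ : Dual k V, pM π Z (0, ξ) = (0, pM π Y' ξ) := by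
    intro ξ
    have h1 := op_nat' hinr hY' hZ ((1 : C) ⊗ₜ[k] ξ)
    have h2 := congrArg (pv π) h1
    rw [pv_nat, LinearMap.baseChange_tmul] at h2
    exact h2.symm
  have hev : ∀ v, ∀ Z ∈ 𝔤, ∑ l, (ev2 k V) (Function.update v l (lie Z (v l))) = 0 := by
    intro v Z _
    rw [Fin.sum_univ_two]
    simp only [ev2_apply]
    rw [Function.update_of_ne (by decide), Function.update_self, Function.update_self,
      Function.update_of_ne (by decide)]
    change (v 1).2 (Z (v 0).1) + (-Z.dualMap) (v 1).2 (v 0).1 = 0
    rw [LinearMap.neg_apply, LinearMap.neg_apply]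
    change (v 1).2 (Z (v 0).1) + -((v 1).2 (Z (v 0).1)) = 0
    rw [add_neg_cancel]
  have e3 : ∀ (x : V) (ξ : Dual k V), (pM π Y' ξ) x = - ξ (pM π Y x) := by
    intro x ξ
    have h1 := claimA' b G F Z hZ π (ev2 k V) (hG 2 (ev2 k V) hev) ![(x, 0), (0, ξ)]
    rw [Fin.sum_univ_two] at h1
    simp only [ev2_apply] at h1
    have h2 : (Function.update ![((x, 0) : V × Dual k V), (0, ξ)] 0
        (pM π Z (![((x, 0) : V × Dual k V), (0, ξ)] 0))) 1 = (0, ξ) := by
      rw [Function.update_of_ne (by decide)]
      rfl
    have h3 : (Function.update ![((x, 0) : V × Dual k V), (0, ξ)] 0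
        (pM π Z (![((x, 0) : V × Dual k V), (0, ξ)] 0))) 0 = (pM π Y x, 0) := by
      rw [Function.update_self]
      exact e1 x
    have h4 : (Function.update ![((x, 0) : V × Dual k V), (0, ξ)] 1
        (pM π Z (![((x, 0) : V × Dual k V), (0, ξ)] 1))) 1 = (0, pM π Y' ξ) := by
      rw [Function.update_self]
      exact e2 ξ
    have h5 : (Function.update ![((x, 0) : V × Dual k V), (0, ξ)] 1
        (pM π Z (![((x, 0) : V × Dual k V), (0, ξ)] 1))) 0 = (x, 0) := by
      rw [Function.update_of_ne (by decide)]
      rfl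
    rw [h2, h3, h4, h5] at h1
    exact eq_neg_of_add_eq_zero_right h1
  have e4 : pM π Z = lie (pM π Y) := by
    apply LinearMap.ext
    rintro ⟨x, ξ⟩
    have h1 : ((x, ξ) : V × Dual k V) = (x, 0) + (0, ξ) := by simp
    rw [h1, map_add, e1, e2, ← h1]
    unfold lie
    refine Prod.ext ?_ ?_
    · change pM π Y x + 0 = pM π Y x
      rw [add_zero]
    · apply LinearMap.ext
      intro y
      change ((0 : Dual k V) + pM π Y' ξ) y = (-(pM π Y).dualMap) ξ y
      rw [zero_add, e3]
      rfl
  intro m φ hφ v
  rw [← e4]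
  exact claimA' b G F Z hZ π φ (hG m φ fun v Z hZ => hφ Z hZ v) v

end main

end Pool.Agent.R931.ZL
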