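import Mathlib
import Pool.Agent.R931.ZL.Add
import Pool.Agent.Y809.RM.Rank
import Pool.Agent.Y114.RM.Torus

/-!
# The rank of the group generated by the eigenvalues
-/

set_option autoImplicit false
set_option linter.unusedSectionVars false

namespace Pool.Agent.R931.ZL

open Module TensorProduct Finset Function Polynomial Pool.Agent.TH118.SG Pool.Agent.Y114.RM

/-- Integers with `∑ n i * x i = 0` -/
def Indep {C : Type} [Field C] {r : ℕ} (w : Fin r → C) : Prop :=
  ∀ e : Fin r → ℤ, ∑ j, (e j : C) * w j = 0 → e = 0

theorem Indep.rat {C : Type} [Field C] [CharZero C] {r : ℕ} {w : Fin r → C} (h : Indep w) :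
    LinearIndependent ℚ w := by
  rw [← LinearIndependent.iff_fractionRing ℤ ℚ, Fintype.linearIndependent_iff]
  intro e he i
  have h1 : e = 0 := h e (by
    rw [← he]
    exact Finset.sum_congr rfl fun j _ => by rw [zsmul_eq_mul])
  rw [h1]
  rfl

theorem exists_add {C : Type} [Field C] [CharZero C] {r : ℕ} {w : Fin r → C} (h : Indep w)
    (g : Fin r → C) : ∃ F : C →+ C, ∀ i, F (w i) = g i := by
  have hli := h.rat
  obtain ⟨f, hf⟩ := ((Basis.span hli).constr ℚ g).exists_extend
  refine ⟨f.toAddMonoidHom, fun i => ?_⟩
  have h1 : w i = (Submodule.span ℚ (Set.range w)).subtype (Basis.span hli i) := by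
    rw [Submodule.subtype_apply, Basis.span_apply]
  change f (w i) = g i
  rw [h1, ← LinearMap.comp_apply, hf, Basis.constr_basis]

section eig

variable {C : Type} [Field C] {E : Type} [AddCommGroup E] [Module C E] [FiniteDimensional C E]

/-- The eigenbasis of an endomorphism with different eigenvalues. -/
theorem exists_eigenbasis {I : Type} [Fintype I] (X : End C E) (θ : I → C)
    (hinj : Function.Injective θ) (hcard : Fintype.card I = finrank C E)
    (hθ : ∀ i, X.HasEigenvalue (θ i)) : ∃ b : Basis I C E, ∀ i, X (b i) = θ i • b i := by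
  have h1 : ∀ i, ∃ v, X.HasEigenvector (θ i) v := fun i => (hθ i).exists_hasEigenvector
  choose v hv using h1
  have hli : LinearIndependent C v := Module.End.eigenvectors_linearIndependent' X θ hinj v hv
  by_cases hne : Nonempty I
  · refine ⟨basisOfLinearIndependentOfCardEqFinrank hli hcard, fun i => ?_⟩
    rw [coe_basisOfLinearIndependentOfCardEqFinrank]
    exact (hv i).apply_eq_smul
  · rw [not_nonempty_iff] at hne
    have h2 : finrank C E = 0 := by
      rw [← hcard]
      exact Fintype.card_eq_zero
    have h3 : Subsingleton E := finrank_zero_iff.1 h2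
    exact ⟨Basis.empty E, fun i => hne.elim i⟩

theorem gen_eq {I : Type} [Fintype I] {X : End C E} {θ : I → C} (b : Basis I C E)
    (hb : ∀ i, X (b i) = θ i • b i) {β : C} {x : E} (hx : x ∈ X.maxGenEigenspace β) (i : I) :
    b.repr x i = 0 ∨ θ i = β := by
  obtain ⟨n, hn⟩ := mem_gen.1 hx
  have key : ∀ (n : ℕ) (x : E), b.repr (((X - algebraMap C (End C E) β) ^ n) x) i =
      (θ i - β) ^ n * b.repr x i := by
    intro n
    induction n with
    | zero => intro x; rw [pow_zero, pow_zero, one_mul, Module.End.one_apply]
    | succ n ih =>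
      intro x
      rw [pow_succ', Module.End.mul_apply, pow_succ']
      have h1 : ∀ y : E, b.repr ((X - algebraMap C (End C E) β) y) i =
          (θ i - β) * b.repr y i := by
        intro y
        have h2 : X y = ∑ l, b.repr y l • (θ l • b l) := by
          conv_lhs => rw [← b.sum_repr y]
          rw [map_sum]
          exact Finset.sum_congr rfl fun l _ => by rw [map_smul, hb]
        have h3 : b.repr (X y) i = θ i * b.repr y i := by
          classical
          rw [h2, map_sum, Finsupp.finsetSum_apply, Finset.sum_eq_single i]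
          · rw [map_smul, map_smul, Basis.repr_self, Finsupp.smul_apply, Finsupp.smul_apply,
              Finsupp.single_eq_same, smul_eq_mul, smul_eq_mul, mul_one, mul_comm]
          · intro l _ hl
            rw [map_smul, map_smul, Basis.repr_self, Finsupp.smul_apply, Finsupp.smul_apply,
              Finsupp.single_eq_of_ne (Ne.symm hl), smul_zero, smul_zero]
          · intro h
            exact absurd (Finset.mem_univ i) h
        rw [LinearMap.sub_apply, map_sub, Finsupp.sub_apply, h3, Module.algebraMap_end_apply,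
          map_smul, Finsupp.smul_apply, smul_eq_mul, sub_mul]
      rw [h1, ih, mul_assoc]
  have h4 := key n x
  rw [hn, map_zero, Finsupp.zero_apply] at h4
  rcases mul_eq_zero.1 h4.symm with h | h
  · by_cases hn0 : n = 0
    · rw [hn0, pow_zero] at h
      exact absurd h one_ne_zero
    · exact Or.inr (sub_eq_zero.1 ((pow_eq_zero_iff hn0).1 h))
  · exact Or.inl h

end eig

section rank

variable {k : Type} [Field k] [CharZero k] {C : Type} [Field C] [CharZero C] [IsAlgClosed C]
  [Algebra k C] {V : Type} [AddCommGroup V] [Module k V] [FiniteDimensional k V]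

/-- The rank of the group generated by the eigenvalues of a regular element of an algebraic Lie
algebra of rank at most `r` is at most `r`. -/
theorem rank_le (𝔤 : Submodule k (End k V)) (hLie : IsLie 𝔤)
    (halg : ∀ X, (∀ (m : ℕ) (φ : Tensor k V m), (∀ Y ∈ 𝔤, KillsTensor Y φ) →
      KillsTensor X φ) → X ∈ 𝔤) {r : ℕ} (hr : RankAtMost 𝔤 r) {X : End C (C ⊗[k] V)}
    (hX : X ∈ bcS C 𝔤) {I : Type} [Fintype I] [DecidableEq I] (θ : I → C)
    (hinj : Function.Injective θ) (hcard : Fintype.card I = finrank k V)
    (hθ : ∀ i, X.HasEigenvalue (θ i)) {r' : ℕ} (c : Fin r' → I) (hind : Indep (θ ∘ c)) :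
    r' ≤ r := by
  obtain ⟨N, hN, hNr⟩ := hr
  obtain ⟨b, hb⟩ := exists_eigenbasis X θ hinj (by rw [hcard, Module.finrank_baseChange]) hθ
  have hcinj : Function.Injective (θ ∘ c) := hind.rat.injective
  choose F hF using fun j : Fin r' => exists_add hind (fun i => if i = j then (1 : C) else 0)
  choose t ht using fun j : Fin r' => exists_op X (fun z => F j z)
  have htb : ∀ j i, t j (b i) = F j (θ i) • b i := fun j i =>
    ht j (θ i) (b i) (mem_gen.2 ⟨1, by
      rw [pow_one, LinearMap.sub_apply, Module.algebraMap_end_apply, hb, sub_self]⟩)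
  have htm : ∀ j, t j ∈ bcS C 𝔤 := fun j => add_mem 𝔤 halg hX (F j) (ht j)
  let p : Fin r' → C[X] := fun i => Lagrange.basis Finset.univ θ (c i)
  have hpb : ∀ i l, aeval X (p i) (b l) = (if l = c i then (1 : C) else 0) • b l := by
    intro i l
    have h1 : X.HasEigenvector (θ l) (b l) :=
      ⟨Module.End.mem_eigenspace_iff.2 (hb l), b.ne_zero l⟩
    rw [Module.End.aeval_apply_of_hasEigenvector h1]
    congr 1
    by_cases hl : l = c i
    · rw [if_pos hl, hl]
      exact Lagrange.eval_basis_self hinj.injOn (Finset.mem_univ _)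
    · rw [if_neg hl]
      exact Lagrange.eval_basis_of_ne (Ne.symm hl) (Finset.mem_univ _)
  have hdet : (Matrix.of fun i j => LinearMap.trace C (C ⊗[k] V) (aeval X (p i) * t j)) = 1 := by
    ext i j
    rw [Matrix.of_apply, LinearMap.trace_eq_matrix_trace C b, Matrix.trace,
      Finset.sum_eq_single (c i)]
    · rw [Matrix.diag_apply, LinearMap.toMatrix_apply, Module.End.mul_apply, htb, map_smul, hpb,
        if_pos rfl, one_smul, map_smul, Basis.repr_self, Finsupp.smul_apply,
        Finsupp.single_eq_same, smul_eq_mul, mul_one]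
      have h1 := hF j i
      rw [Function.comp_apply] at h1
      rw [h1, Matrix.one_apply]
    · intro l _ hl
      rw [Matrix.diag_apply, LinearMap.toMatrix_apply, Module.End.mul_apply, htb, map_smul, hpb,
        if_neg hl, zero_smul, smul_zero, map_zero, Finsupp.zero_apply]
    · intro h
      exact absurd (Finset.mem_univ _) h
  have h1 := Pool.Agent.Y809.RM.rank C (C ⊗[k] V) (bcS C 𝔤)
    ((Pool.Agent.Y809.RM.BC.bc k C V 𝔤).2.1 hLie) X hX r' p t htm
    (by rw [hdet, Matrix.det_one]; exact one_ne_zero) (N.baseChange C)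
    (Submodule.subset_span ⟨N, hN, rfl⟩)
  rw [(Pool.Agent.Y809.RM.BC.bc k C V 𝔤).2.2.2.1] at h1
  exact h1.trans hNr

end rank

end Pool.Agent.R931.ZL
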