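import Mathlib

/-!
# Specialization of integral extensions of a polynomial ring
-/

set_option autoImplicit false

namespace Pool.Agent.R931.ZL

open Polynomial

section hom

variable {k : Type} [Field k] (Ω : Type) [Field Ω] [IsAlgClosed Ω] [Algebra k Ω]
  (B : Type) [CommRing B] [IsDomain B] [Algebra k[X] B] [Algebra.IsIntegral k[X] B]

theorem exists_hom (hinj : Function.Injective (algebraMap k[X] B)) (a : k) :
    ∃ φ : B →+* Ω, ∀ p : k[X], φ (algebraMap k[X] B p) = algebraMap k Ω (p.eval a) := by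
  let P : Ideal k[X] := RingHom.ker (evalRingHom a)
  have hP : P.IsMaximal := RingHom.ker_isMaximal_of_surjective _ (fun c => ⟨C c, eval_C⟩)
  obtain ⟨Q, hQ, hQP⟩ := Ideal.exists_ideal_over_prime_of_isIntegral_of_isDomain (S := B) P (by
    rw [(RingHom.injective_iff_ker_eq_bot _).1 hinj]
    exact bot_le)
  have hQm : Q.IsMaximal := Ideal.isMaximal_of_isIntegral_of_isMaximal_comap (R := k[X]) Q (by
    rw [hQP]
    exact hP)
  letI : Field (B ⧸ Q) := Ideal.Quotient.field Q
  letI : Algebra k (B ⧸ Q) := ((Ideal.Quotient.mk Q).comp ((algebraMap k[X] B).comp C)).toAlgebra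
  have hmap : ∀ c : k[X], Ideal.Quotient.mk Q (algebraMap k[X] B c) =
      algebraMap k (B ⧸ Q) (c.eval a) := by
    intro c
    change _ = Ideal.Quotient.mk Q (algebraMap k[X] B (C (c.eval a)))
    rw [Ideal.Quotient.eq, ← map_sub, ← Ideal.mem_comap, hQP]
    change evalRingHom a (c - C (c.eval a)) = 0
    rw [coe_evalRingHom, eval_sub, eval_C, sub_self]
  have halg : Algebra.IsAlgebraic k (B ⧸ Q) := by
    refine ⟨fun x => ?_⟩
    obtain ⟨b, rfl⟩ := Ideal.Quotient.mk_surjective x
    obtain ⟨p, hp, hpb⟩ := Algebra.IsIntegral.isIntegral (R := k[X]) b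
    refine IsIntegral.isAlgebraic ⟨p.map (evalRingHom a), hp.map _, ?_⟩
    rw [eval₂_map]
    have h1 : (algebraMap k (B ⧸ Q)).comp (evalRingHom a) =
        (Ideal.Quotient.mk Q).comp (algebraMap k[X] B) := by
      refine RingHom.ext fun c => ?_
      exact (hmap c).symm
    rw [h1, ← hom_eval₂, hpb, map_zero]
  let ψ : B ⧸ Q →ₐ[k] Ω := IsAlgClosed.lift
  refine ⟨(ψ : B ⧸ Q →+* Ω).comp (Ideal.Quotient.mk Q), fun p => ?_⟩
  rw [RingHom.comp_apply, hmap]
  exact ψ.commutes _

end hom

end Pool.Agent.R931.ZL
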