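import Mathlib
import Pool.Agent.R931.ZL.Rank
import Pool.Agent.R931.ZL.Spec

/-!
# Relations and specialization
-/

set_option autoImplicit false
set_option linter.unusedSectionVars false

namespace Pool.Agent.R931.ZL

open Module Finset Function Polynomial

theorem indep_of_rat {C : Type} [Field C] [CharZero C] {r : ℕ} {w : Fin r → C}
    (h : LinearIndependent ℚ w) : Indep w := by
  intro e he
  rw [← LinearIndependent.iff_fractionRing ℤ ℚ, Fintype.linearIndependent_iff] at h
  funext i
  exact h e (by
    rw [← he]
    exact Finset.sum_congr rfl fun j _ => by rw [zsmul_eq_mul]) i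

/-- If the rank does not drop under a specialization, then there are no new relations. -/
theorem rel_of_spec {B C Ω : Type} [CommRing B] [Field C] [CharZero C] [Field Ω]
    (i : B →+* C) (hi : Injective i) (φ : B →+* Ω) {J : Type} [Fintype J] (θ : J → B) {r : ℕ}
    (hrank : ∀ (r' : ℕ) (c : Fin r' → J), Indep (fun j => i (θ (c j))) → r' ≤ r)
    (hsp : ∃ c : Fin r → J, Indep (fun j => φ (θ (c j)))) (n : J → ℤ)
    (hn : ∑ j, (n j : Ω) * φ (θ j) = 0) : ∑ j, (n j : B) * θ j = 0 := by
  by_contra hne
  set t := ∑ j, (n j : B) * θ j with ht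
  have hφt : φ t = 0 := by
    rw [ht, map_sum, ← hn]
    exact Finset.sum_congr rfl fun j _ => by rw [map_mul, map_intCast]
  obtain ⟨c, hc⟩ := hsp
  have hw : Indep (Fin.snoc (α := fun _ => C) (fun j => i (θ (c j))) (i t)) := by
    intro e he
    rw [Fin.sum_univ_castSucc] at he
    simp only [Fin.snoc_castSucc, Fin.snoc_last] at he
    have h1 : ∑ j, (e (Fin.castSucc j) : B) * θ (c j) + (e (Fin.last r) : B) * t = 0 := by
      apply hi
      rw [map_add, map_sum, map_zero, ← he, map_mul, map_intCast]
      congr 1
      exact Finset.sum_congr rfl fun j _ => by rw [map_mul, map_intCast]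
    have h2 := congrArg φ h1
    rw [map_add, map_sum, map_mul, hφt, mul_zero, add_zero, map_zero] at h2
    have h3 := hc (fun j => e (Fin.castSucc j)) (by
      rw [← h2]
      exact Finset.sum_congr rfl fun j _ => by rw [map_mul, map_intCast])
    have h4 : ∀ j, e (Fin.castSucc j) = 0 := fun j => congrFun h3 j
    have h5 : (e (Fin.last r) : C) * i t = 0 := by
      rw [← he, Finset.sum_eq_zero (fun j _ => by rw [h4, Int.cast_zero, zero_mul]), zero_add]
    have h6 : e (Fin.last r) = 0 := by
      rcases mul_eq_zero.1 h5 with h | h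
      · exact_mod_cast h
      · exact absurd (hi (by rw [h, map_zero])) hne
    funext j
    refine Fin.lastCases h6 (fun j => h4 j) j
  set S := Submodule.span ℚ (Set.range fun j => i (θ j)) with hS
  have hmem : ∀ j, Fin.snoc (α := fun _ => C) (fun j => i (θ (c j))) (i t) j ∈ S := by
    intro j
    refine Fin.lastCases ?_ (fun j => ?_) j
    · rw [Fin.snoc_last, ht, map_sum]
      refine Submodule.sum_mem _ fun j _ => ?_
      rw [map_mul, map_intCast, ← zsmul_eq_mul]
      exact S.toAddSubgroup.zsmul_mem (Submodule.subset_span ⟨j, rfl⟩) _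
    · rw [Fin.snoc_castSucc]
      exact Submodule.subset_span ⟨_, rfl⟩
  have hfin : Module.Finite ℚ S := Module.Finite.span_of_finite ℚ (Set.finite_range _)
  have h7 : LinearIndependent ℚ (fun j => (⟨_, hmem j⟩ : S)) :=
    LinearIndependent.of_comp S.subtype hw.rat
  have h8 := h7.fintype_card_le_finrank
  rw [Fintype.card_fin] at h8
  obtain ⟨f, hf, -, hfli⟩ := Submodule.exists_fun_fin_finrank_span_eq ℚ (Set.range fun j => i (θ j))
  choose c' hc' using hf
  have h9 := hrank _ c' (by
    have : (fun j => i (θ (c' j))) = f := funext fun j => hc' j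
    rw [this]
    exact indep_of_rat hfli)
  rw [← hS] at h9
  omega

/-- Factorization over the integral closure. -/
theorem exists_factor {R C : Type} [CommRing R] [Field C] [IsAlgClosed C] [Algebra R C] (f : R[X])
    (hf : f.Monic) {m : ℕ} (hm : f.natDegree = m) :
    ∃ θ : Fin m → integralClosure R C,
      f.map (algebraMap R (integralClosure R C)) = ∏ i, (X - Polynomial.C (θ i)) := by
  set g := f.map (algebraMap R C) with hg
  have hgm : g.Monic := hf.map _
  have hsplit : g.Splits := IsAlgClosed.splits _
  have hcard : g.roots.toList.length = m := by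
    rw [Multiset.length_toList, ← hsplit.natDegree_eq_card_roots, hg, hf.natDegree_map, hm]
  have hprod : g = (g.roots.map fun a => X - Polynomial.C a).prod :=
    hsplit.eq_prod_roots_of_monic hgm
  let θ' : Fin m → C := fun i => g.roots.toList.get (Fin.cast hcard.symm i)
  have hθroot : ∀ i, θ' i ∈ g.roots := fun i => by
    rw [← Multiset.mem_toList]
    exact List.get_mem _ _
  have hint : ∀ i, θ' i ∈ integralClosure R C := by
    intro i
    have h1 := hθroot i
    rw [mem_roots hgm.ne_zero, IsRoot.def, hg, eval_map] at h1
    exact ⟨f, hf, h1⟩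
  have hprod' : g = ∏ i, (X - Polynomial.C (θ' i)) := by
    have h1 : (g.roots.map fun a => X - Polynomial.C a).prod =
        (g.roots.toList.map fun a => X - Polynomial.C a).prod := by
      conv_lhs => rw [← Multiset.coe_toList g.roots]
      rw [Multiset.map_coe, Multiset.prod_coe]
    rw [h1] at hprod
    conv_lhs => rw [hprod]
    have h2 : g.roots.toList = List.ofFn θ' := by
      apply List.ext_get
      · rw [List.length_ofFn, hcard]
      · intro n h3 h4
        rw [List.get_ofFn]
        rfl
    rw [h2, List.map_ofFn, List.prod_ofFn]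
    rfl
  refine ⟨fun i => ⟨θ' i, hint i⟩, ?_⟩
  have hinj : Function.Injective (algebraMap (integralClosure R C) C) := Subtype.val_injective
  apply Polynomial.map_injective _ hinj
  rw [Polynomial.map_map, ← IsScalarTower.algebraMap_eq, Polynomial.map_prod, ← hg, hprod']
  refine Finset.prod_congr rfl fun i _ => ?_
  rw [Polynomial.map_sub, map_X, map_C]
  rfl

end Pool.Agent.R931.ZL
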