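import Mathlib
import Pool.Agent.R931.ZL.Pencil1

/-!
# The eigenvalues of two elements of an algebraic Lie algebra: the pencil
-/

set_option autoImplicit false
set_option linter.unusedSectionVars false

namespace Pool.Agent.R931.ZL

open Module Finset Function Polynomial TensorProduct Pool.Agent.Y114.RM Pool.Agent.TH118.SG

/-- The algebraic closure of the field of rational functions. -/
abbrev CC (k : Type) [Field k] : Type := AlgebraicClosure (FractionRing k[X])

section mat

variable {k : Type} [Field k] {n : Type} [Fintype n] [DecidableEq n]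

/-- The pencil of two matrices. -/
noncomputable def pen (A₀ A₁ : Matrix n n k) : Matrix n n k[X] :=
  A₀.map C + (X : k[X]) • (A₁ - A₀).map C

theorem pen_eval (A₀ A₁ : Matrix n n k) (a : k) :
    (pen A₀ A₁).map (evalRingHom a) = A₀ + a • (A₁ - A₀) := by
  ext i j
  simp [pen]

theorem pen_zero (A₀ A₁ : Matrix n n k) : (pen A₀ A₁).map (evalRingHom 0) = A₀ := by
  rw [pen_eval, zero_smul, add_zero]

theorem pen_one (A₀ A₁ : Matrix n n k) : (pen A₀ A₁).map (evalRingHom 1) = A₁ := by
  rw [pen_eval, one_smul, add_sub_cancel]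

theorem pen_blocks {p q : Type} [Fintype p] [Fintype q] [DecidableEq p] [DecidableEq q]
    (A₀ A₁ : Matrix p p k) (B₀ B₁ : Matrix p q k) (D₀ D₁ : Matrix q q k) :
    pen (Matrix.fromBlocks A₀ B₀ 0 D₀) (Matrix.fromBlocks A₁ B₁ 0 D₁) =
      Matrix.fromBlocks (pen A₀ A₁) (B₀.map C + (X : k[X]) • (B₁ - B₀).map C) 0 (pen D₀ D₁) := by
  ext i j
  rcases i with i | i <;> rcases j with j | j <;> simp [pen]

variable {Ω : Type} [Field Ω] [Algebra k Ω] {B : Type} [CommRing B] [Algebra k[X] B]

/-- The eigenvalues of the members of the pencil. -/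
theorem pen_spec (A₀ A₁ : Matrix n n k) {m : ℕ} (θ : Fin m → B)
    (hθ : (pen A₀ A₁).charpoly.map (algebraMap k[X] B) = ∏ i, (X - Polynomial.C (θ i)))
    (φ : B →+* Ω) (a : k) (hφ : ∀ p : k[X], φ (algebraMap k[X] B p) = algebraMap k Ω (p.eval a)) :
    (((pen A₀ A₁).map (evalRingHom a)).charpoly).map (algebraMap k Ω) =
      ∏ i, (X - Polynomial.C (φ (θ i))) := by
  have h1 := congrArg (Polynomial.map φ) hθ
  rw [Polynomial.map_map, Polynomial.map_prod] at h1
  have h2 : φ.comp (algebraMap k[X] B) = (algebraMap k Ω).comp (evalRingHom a) :=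
    RingHom.ext hφ
  rw [h2, ← Polynomial.map_map, ← Matrix.charpoly_map] at h1
  rw [h1]
  refine Finset.prod_congr rfl fun i _ => ?_
  rw [Polynomial.map_sub, map_X, map_C]

theorem root_iff_of_prod {Q : k[X]} {I : Type} [Fintype I] {w : I → Ω}
    (h : Q.map (algebraMap k Ω) = ∏ i, (X - Polynomial.C (w i))) (x : Ω) :
    aeval x Q = 0 ↔ ∃ i, w i = x := by
  rw [← eval_map_algebraMap, h, eval_prod, Finset.prod_eq_zero_iff]
  simp only [eval_sub, eval_X, eval_C, Finset.mem_univ, true_and, sub_eq_zero, eq_comm]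

end mat

section adapted

variable {k : Type} [Field k] {V : Type} [AddCommGroup V] [Module k V] [FiniteDimensional k V]

/-- A basis adapted to a subspace. -/
theorem exists_adapted (W : Submodule k V) : ∃ (e : ℕ) (β : Basis (Fin (finrank k W) ⊕ Fin e) k V),
    ∀ (X : End k V) (hX : ∀ x ∈ W, X x ∈ W),
      (LinearMap.toMatrix β β X).toBlocks₂₁ = 0 ∧
      (X.restrict hX).charpoly = ((LinearMap.toMatrix β β X).toBlocks₁₁).charpoly := by
  obtain ⟨W', hW⟩ := W.exists_isCompl
  let bW := Module.finBasis k W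
  let bW' := Module.finBasis k W'
  let β := (bW.prod bW').map (Submodule.prodEquivOfIsCompl W W' hW)
  have hβl : ∀ i, β (Sum.inl i) = (bW i : V) := fun i => by
    simp [β]
  have hrepr : ∀ (x : W) (i : Fin (finrank k W) ⊕ Fin (finrank k W')),
      β.repr (x : V) i = Sum.elim (fun i => bW.repr x i) (fun _ => 0) i := by
    intro x i
    have h1 : (Submodule.prodEquivOfIsCompl W W' hW).symm (x : V) = (x, 0) := by
      rw [LinearEquiv.symm_apply_eq]
      simp
    rw [Basis.map_repr, LinearEquiv.trans_apply, h1]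
    rcases i with i | i <;> simp
  refine ⟨finrank k W', β, fun X hX => ⟨?_, ?_⟩⟩
  · ext i j
    rw [Matrix.toBlocks₂₁, Matrix.of_apply, LinearMap.toMatrix_apply, hβl]
    have h1 := hrepr ⟨X (bW j), hX _ (bW j).2⟩ (Sum.inr i)
    exact h1
  · rw [← LinearMap.charpoly_toMatrix (X.restrict hX) bW]
    congr 1
    ext i j
    rw [Matrix.toBlocks₁₁, Matrix.of_apply, LinearMap.toMatrix_apply, LinearMap.toMatrix_apply,
      hβl]
    have h1 := hrepr ⟨X (bW j), hX _ (bW j).2⟩ (Sum.inl i)
    exact h1.symm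

end adapted

end Pool.Agent.R931.ZL
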