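import Mathlib
import Pool.Agent.R931.ZL.Pencil2

/-!
# The eigenvalues of two elements of an algebraic Lie algebra
-/

set_option autoImplicit false
set_option linter.unusedSectionVars false

namespace Pool.Agent.R931.ZL

open Module Finset Function Polynomial TensorProduct Pool.Agent.Y114.RM Pool.Agent.TH118.SG

section bij

variable {Ω : Type} [Field Ω]

/-- Two orderings of the same set. -/
theorem exists_equiv {I J : Type} [Fintype I] [Fintype J] {y : I → Ω} (hy : Injective y)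
    {u : J → Ω} (h : ∀ i, ∃ j, u j = y i) (hcard : Fintype.card I = Fintype.card J) :
    ∃ e : I ≃ J, ∀ i, u (e i) = y i := by
  choose f hf using h
  have hinj : Injective f := fun a b hab => hy (by rw [← hf, ← hf, hab])
  exact ⟨Equiv.ofBijective f ((Fintype.bijective_iff_injective_and_card f).2 ⟨hinj, hcard⟩), hf⟩

theorem inj_of_equiv {I J : Type} {y : I → Ω} (hy : Injective y) {u : J → Ω} (e : I ≃ J)
    (h : ∀ i, u (e i) = y i) : Injective u := by
  intro a b hab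
  obtain ⟨i, rfl⟩ := e.surjective a
  obtain ⟨j, rfl⟩ := e.surjective b
  rw [h, h] at hab
  rw [hy hab]

end bij

section pencil

variable {k : Type} [Field k] [CharZero k] {Ω : Type} [Field Ω] [CharZero Ω] [IsAlgClosed Ω]
  [Algebra k Ω] {V : Type} [AddCommGroup V] [Module k V] [FiniteDimensional k V]

theorem pencil (𝔤 : Submodule k (End k V)) (hLie : IsLie 𝔤)
    (halg : ∀ X, (∀ (m : ℕ) (φ : Tensor k V m), (∀ Y ∈ 𝔤, KillsTensor Y φ) →
      KillsTensor X φ) → X ∈ 𝔤) {r : ℕ} (hr : RankAtMost 𝔤 r)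
    {X₀ X₁ : End k V} (hX₀ : X₀ ∈ 𝔤) (hX₁ : X₁ ∈ 𝔤) (W : Submodule k V)
    (hW₀ : ∀ x ∈ W, X₀ x ∈ W) (hW₁ : ∀ x ∈ W, X₁ x ∈ W)
    {I : Type} [Fintype I] (y : I → Ω) (hyinj : Injective y)
    (hcard : Fintype.card I = finrank k V)
    (hy : ∀ i, aeval (y i) X₀.charpoly = 0) (hsep : X₁.charpoly.Separable)
    (hr₀ : ∃ c : Fin r → I, Indep (y ∘ c))
    (hr₁ : ∃ w : Fin r → Ω, (∀ j, aeval (w j) X₁.charpoly = 0) ∧ Indep w) :
    ∃ z : I → Ω, Injective z ∧ (∀ i, aeval (z i) X₁.charpoly = 0) ∧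
      (∀ n : I → ℤ, ∑ i, (n i : Ω) * z i = 0 ↔ ∑ i, (n i : Ω) * y i = 0) ∧
      ∀ i, aeval (z i) (X₁.restrict hW₁).charpoly = 0 ↔
        aeval (y i) (X₀.restrict hW₀).charpoly = 0 := by
  classical
  obtain ⟨e, β, hβ⟩ := exists_adapted W
  obtain ⟨d, hd⟩ : ∃ d, d = finrank k W := ⟨_, rfl⟩
  revert β
  rw [← hd]
  intro β hβ
  set M₀ := LinearMap.toMatrix β β X₀ with hM₀
  set M₁ := LinearMap.toMatrix β β X₁ with hM₁
  obtain ⟨b₀, c₀⟩ := hβ X₀ hW₀
  obtain ⟨b₁, c₁⟩ := hβ X₁ hW₁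
  rw [← hM₀] at b₀ c₀
  rw [← hM₁] at b₁ c₁
  set A₀ := M₀.toBlocks₁₁ with hA₀
  set A₁ := M₁.toBlocks₁₁ with hA₁
  set D₀ := M₀.toBlocks₂₂ with hD₀
  set D₁ := M₁.toBlocks₂₂ with hD₁
  have e₀ : M₀ = Matrix.fromBlocks A₀ M₀.toBlocks₁₂ 0 D₀ := by
    rw [← b₀, hA₀, hD₀, Matrix.fromBlocks_toBlocks]
  have e₁ : M₁ = Matrix.fromBlocks A₁ M₁.toBlocks₁₂ 0 D₁ := by
    rw [← b₁, hA₁, hD₁, Matrix.fromBlocks_toBlocks]
  have f₀ : X₀.charpoly = A₀.charpoly * D₀.charpoly := by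
    rw [← LinearMap.charpoly_toMatrix X₀ β, ← hM₀, e₀, Matrix.charpoly_fromBlocks_zero₂₁]
  have f₁ : X₁.charpoly = A₁.charpoly * D₁.charpoly := by
    rw [← LinearMap.charpoly_toMatrix X₁ β, ← hM₁, e₁, Matrix.charpoly_fromBlocks_zero₂₁]
  have hC0 : CharZero (CC k) := charZero_of_injective_algebraMap (algebraMap k (CC k)).injective
  have hinjC : Injective (algebraMap k[X] (CC k)) := by
    rw [IsScalarTower.algebraMap_eq k[X] (FractionRing k[X]) (CC k), RingHom.coe_comp]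
    exact (algebraMap (FractionRing k[X]) (CC k)).injective.comp
      (IsFractionRing.injective k[X] (FractionRing k[X]))
  obtain ⟨θA, hθA⟩ := exists_factor (C := CC k) (pen A₀ A₁).charpoly (Matrix.charpoly_monic _)
    (m := d) (by rw [Matrix.charpoly_natDegree_eq_dim, Fintype.card_fin])
  obtain ⟨θD, hθD⟩ := exists_factor (C := CC k) (pen D₀ D₁).charpoly (Matrix.charpoly_monic _)
    (m := e) (by rw [Matrix.charpoly_natDegree_eq_dim, Fintype.card_fin])
  let B := integralClosure k[X] (CC k)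
  have hinjB : Injective (algebraMap k[X] B) := by
    intro a b hab
    exact hinjC (congrArg (fun x : B => (x : CC k)) hab)
  let θ : Fin d ⊕ Fin e → B := Sum.elim θA θD
  have hspec : ∀ a : k, ∃ φ : B →+* Ω, ∀ p : k[X], φ (algebraMap k[X] B p) =
      algebraMap k Ω (p.eval a) := fun a => exists_hom Ω B hinjB a
  obtain ⟨φ₀, hφ₀⟩ := hspec 0
  obtain ⟨φ₁, hφ₁⟩ := hspec 1
  have pA₀ := pen_spec A₀ A₁ θA hθA φ₀ 0 hφ₀
  have pD₀ := pen_spec D₀ D₁ θD hθD φ₀ 0 hφ₀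
  have pA₁ := pen_spec A₀ A₁ θA hθA φ₁ 1 hφ₁
  have pD₁ := pen_spec D₀ D₁ θD hθD φ₁ 1 hφ₁
  rw [pen_zero] at pA₀ pD₀
  rw [pen_one] at pA₁ pD₁
  have p₀ : X₀.charpoly.map (algebraMap k Ω) = ∏ j, (X - Polynomial.C (φ₀ (θ j))) := by
    rw [f₀, Polynomial.map_mul, pA₀, pD₀, Fintype.prod_sum_type]
    rfl
  have p₁ : X₁.charpoly.map (algebraMap k Ω) = ∏ j, (X - Polynomial.C (φ₁ (θ j))) := by
    rw [f₁, Polynomial.map_mul, pA₁, pD₁, Fintype.prod_sum_type]
    rfl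
  have hcardJ : Fintype.card (Fin d ⊕ Fin e) = finrank k V :=
    (Module.finrank_eq_card_basis β).symm
  -- the orderings
  obtain ⟨ε, hε⟩ := exists_equiv hyinj (u := fun j => φ₀ (θ j))
    (fun i => (root_iff_of_prod p₀ (y i)).1 (hy i)) (hcard.trans hcardJ.symm)
  have hu₀ : Injective fun j => φ₀ (θ j) := inj_of_equiv hyinj ε hε
  have hu₁ : Injective fun j => φ₁ (θ j) := by
    have h1 : (X₁.charpoly.map (algebraMap k Ω)).Separable := hsep.map
    rw [p₁] at h1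
    exact (separable_prod_X_sub_C_iff.1 h1)
  have hθinj : Injective fun j => ((θ j : B) : CC k) := by
    intro a b hab
    apply hu₀
    have h1 : θ a = θ b := Subtype.ext hab
    change φ₀ (θ a) = φ₀ (θ b)
    rw [h1]
  -- the generic member of the pencil
  let s : CC k := algebraMap k[X] (CC k) X
  let Y : End (CC k) (CC k ⊗[k] V) := X₀.baseChange (CC k) + s • (X₁ - X₀).baseChange (CC k)
  have hY : Y ∈ bcS (CC k) 𝔤 := Submodule.add_mem _ (Submodule.subset_span ⟨X₀, hX₀, rfl⟩)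
    (Submodule.smul_mem _ _ (Submodule.subset_span ⟨X₁ - X₀, Submodule.sub_mem _ hX₁ hX₀, rfl⟩))
  have hYM : LinearMap.toMatrix (Algebra.TensorProduct.basis (CC k) β) (Algebra.TensorProduct.basis (CC k) β) Y =
      (pen M₀ M₁).map (algebraMap k[X] (CC k)) := by
    ext i j
    have h1 : ∀ Z : End k V, LinearMap.toMatrix (Algebra.TensorProduct.basis (CC k) β) (Algebra.TensorProduct.basis (CC k) β)
        (Z.baseChange (CC k)) i j = algebraMap k (CC k) (LinearMap.toMatrix β β Z i j) := by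
      intro Z
      rw [LinearMap.toMatrix_baseChange, Matrix.map_apply]
    rw [map_add, map_smul, Matrix.add_apply, Matrix.smul_apply, h1, h1, map_sub, pen,
      Matrix.map_apply, Matrix.add_apply, Matrix.smul_apply, Matrix.map_apply, Matrix.map_apply,
      map_add, smul_eq_mul, smul_eq_mul, map_mul]
    rfl
  have hYroot : ∀ j, Y.HasEigenvalue ((θ j : B) : CC k) := by
    intro j
    rw [Module.End.hasEigenvalue_iff_isRoot_charpoly, ← LinearMap.charpoly_toMatrix Y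
      (Algebra.TensorProduct.basis (CC k) β), hYM, Matrix.charpoly_map, e₀, e₁, pen_blocks,
      Matrix.charpoly_fromBlocks_zero₂₁, Polynomial.map_mul, IsRoot.def, eval_mul, mul_eq_zero]
    have hmap : ∀ (f : k[X][X]) (m : ℕ) (η : Fin m → B), f.map (algebraMap k[X] B) =
        ∏ i, (X - Polynomial.C (η i)) → ∀ i, (f.map (algebraMap k[X] (CC k))).eval
          ((η i : B) : CC k) = 0 := by
      intro f m η hf i
      have h2 : f.map (algebraMap k[X] (CC k)) =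
          (f.map (algebraMap k[X] B)).map (algebraMap B (CC k)) := by
        rw [Polynomial.map_map]
        rfl
      rw [h2, hf, Polynomial.map_prod, eval_prod]
      refine Finset.prod_eq_zero (Finset.mem_univ i) ?_
      rw [Polynomial.map_sub, map_X, map_C, eval_sub, eval_X, eval_C]
      exact sub_self _
    rcases j with i | i
    · exact Or.inl (hmap _ _ θA hθA i)
    · exact Or.inr (hmap _ _ θD hθD i)
  have hrank : ∀ (r' : ℕ) (c : Fin r' → Fin d ⊕ Fin e),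
      Indep (fun j => algebraMap B (CC k) (θ (c j))) → r' ≤ r := by
    intro r' c hc
    exact rank_le 𝔤 hLie halg hr hY (fun j => ((θ j : B) : CC k)) hθinj hcardJ hYroot c hc
  have hBinj : Injective (algebraMap B (CC k)) := Subtype.val_injective
  -- the relations
  have hrel₀ : ∀ n : Fin d ⊕ Fin e → ℤ, ∑ j, (n j : Ω) * φ₀ (θ j) = 0 →
      ∑ j, (n j : B) * θ j = 0 := by
    obtain ⟨c, hc⟩ := hr₀
    refine rel_of_spec (algebraMap B (CC k)) hBinj φ₀ θ hrank ⟨fun i => ε (c i), ?_⟩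
    have h1 : (fun j => φ₀ (θ (ε (c j)))) = y ∘ c := funext fun j => hε (c j)
    rw [h1]
    exact hc
  have hrel₁ : ∀ n : Fin d ⊕ Fin e → ℤ, ∑ j, (n j : Ω) * φ₁ (θ j) = 0 →
      ∑ j, (n j : B) * θ j = 0 := by
    obtain ⟨w, hw, hwi⟩ := hr₁
    choose c hc using fun j => (root_iff_of_prod p₁ (w j)).1 (hw j)
    refine rel_of_spec (algebraMap B (CC k)) hBinj φ₁ θ hrank ⟨c, ?_⟩
    have h1 : (fun j => φ₁ (θ (c j))) = w := funext hc
    rw [h1]
    exact hwi
  have hpush : ∀ (φ : B →+* Ω) (n : Fin d ⊕ Fin e → ℤ), ∑ j, (n j : B) * θ j = 0 →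
      ∑ j, (n j : Ω) * φ (θ j) = 0 := by
    intro φ n hn
    have h1 := congrArg φ hn
    rw [map_sum, map_zero] at h1
    rw [← h1]
    exact Finset.sum_congr rfl fun j _ => by rw [map_mul, map_intCast]
  have hsum : ∀ (φ : B →+* Ω) (n : I → ℤ), ∑ i, (n i : Ω) * φ (θ (ε i)) =
      ∑ j, ((n (ε.symm j) : ℤ) : Ω) * φ (θ j) := by
    intro φ n
    rw [← Equiv.sum_comp ε]
    exact Finset.sum_congr rfl fun i _ => by rw [Equiv.symm_apply_apply]
  refine ⟨fun i => φ₁ (θ (ε i)), hu₁.comp ε.injective,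
    fun i => (root_iff_of_prod p₁ _).2 ⟨ε i, rfl⟩, fun n => ?_, fun i => ?_⟩
  · have h1 : ∑ i, (n i : Ω) * y i = ∑ i, (n i : Ω) * φ₀ (θ (ε i)) :=
      Finset.sum_congr rfl fun i _ => by rw [hε]
    rw [h1, hsum, hsum]
    exact ⟨fun h => hpush φ₀ _ (hrel₁ _ h), fun h => hpush φ₁ _ (hrel₀ _ h)⟩
  · rw [c₀, c₁, root_iff_of_prod pA₁, root_iff_of_prod pA₀, ← hε i]
    constructor
    · rintro ⟨j, hj⟩
      have h1 : ε i = Sum.inl j := hu₁ (show φ₁ (θ (ε i)) = φ₁ (θ (Sum.inl j)) from hj.symm)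
      refine ⟨j, ?_⟩
      change φ₀ (θ (Sum.inl j)) = φ₀ (θ (ε i))
      rw [h1]
    · rintro ⟨j, hj⟩
      have h1 : ε i = Sum.inl j := hu₀ (show φ₀ (θ (ε i)) = φ₀ (θ (Sum.inl j)) from hj.symm)
      refine ⟨j, ?_⟩
      change φ₁ (θ (Sum.inl j)) = φ₁ (θ (ε i))
      rw [h1]

end pencil

end Pool.Agent.R931.ZL
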