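import Mathlib
import Pool.Agent.Y936.SS.Logr
import Pool.Agent.R931.ZL.Defs

/-!
# Logarithms and multiplicative relations
-/

set_option autoImplicit false
set_option linter.unusedSectionVars false

open Matrix Polynomial Filter Topology

namespace Pool.Agent.R931.ZL

open Pool.Agent.Y142.ZO Pool.Agent.Y142.SS Pool.Agent.Y497.ZO Pool.Agent.Y936.SS
open Pool.Agent.Y142.ZD (DistPow)

/-- The integral linear relations. -/
def lrel {F I : Type} [Field F] [Fintype I] (y : I → F) : Set (I → ℤ) :=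
  {n | ∑ i, (n i : F) * y i = 0}

section

variable {ℓ : ℕ} [Fact ℓ.Prime]

/-- the approximations of the logarithm (divided by `ℓ ^ 2`) -/
noncomputable def lam (j : ℕ) (x : Om ℓ) : Om ℓ :=
  algebraMap ℚ_[ℓ] (Om ℓ) (((ℓ : ℚ_[ℓ]) ^ (j + 2))⁻¹) * (x ^ (ℓ ^ j) - 1)

/-- `a` is the logarithm of `x` (divided by `ℓ ^ 2`) -/
def LogIs (x a : Om ℓ) : Prop := Tendsto (fun j => lam j x) atTop (𝓝 a)

theorem LogIs.unique {x a b : Om ℓ} (h : LogIs x a) (h' : LogIs x b) : a = b :=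
  tendsto_nhds_unique h h'

theorem logIs_one : LogIs (1 : Om ℓ) 0 := by
  have : (fun j => lam j (1 : Om ℓ)) = fun _ => 0 := by
    funext j
    rw [lam, one_pow, sub_self, mul_zero]
  rw [LogIs, this]
  exact tendsto_const_nhds

theorem pow_sub_one (j : ℕ) (x : Om ℓ) : x ^ (ℓ ^ j) - 1 =
    algebraMap ℚ_[ℓ] (Om ℓ) ((ℓ : ℚ_[ℓ]) ^ (j + 2)) * lam j x := by
  rw [lam, ← mul_assoc, ← map_mul, mul_inv_cancel₀ (pow_ne_zero _ l_ne), map_one, one_mul]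

theorem ell_tendsto : Tendsto (fun j : ℕ => algebraMap ℚ_[ℓ] (Om ℓ) ((ℓ : ℚ_[ℓ]) ^ (j + 2))) atTop
    (𝓝 0) := by
  rw [tendsto_zero_iff_norm_tendsto_zero]
  have h1 : (fun j : ℕ => ‖algebraMap ℚ_[ℓ] (Om ℓ) ((ℓ : ℚ_[ℓ]) ^ (j + 2))‖) =
      fun j => ((ℓ : ℝ)⁻¹) ^ (j + 2) := by
    funext j
    rw [norm_alg, norm_pow, norm_l]
  rw [h1]
  exact (tendsto_pow_atTop_nhds_zero_of_lt_one (by positivity) l_inv_lt).comp
    (tendsto_add_atTop_nat 2)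

theorem LogIs.pow_tendsto {x a : Om ℓ} (h : LogIs x a) :
    Tendsto (fun j : ℕ => x ^ (ℓ ^ j)) atTop (𝓝 1) := by
  have h1 : (fun j : ℕ => x ^ (ℓ ^ j)) = fun j =>
      1 + algebraMap ℚ_[ℓ] (Om ℓ) ((ℓ : ℚ_[ℓ]) ^ (j + 2)) * lam j x := by
    funext j
    rw [← pow_sub_one, add_sub_cancel]
  rw [h1]
  have h2 := (tendsto_const_nhds (x := (1 : Om ℓ)) (f := atTop (α := ℕ))).add
    (ell_tendsto.mul (show Tendsto (fun j => lam j x) atTop (𝓝 a) from h))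
  rw [zero_mul, add_zero] at h2
  exact h2

theorem LogIs.mul {x y a b : Om ℓ} (h : LogIs x a) (h' : LogIs y b) : LogIs (x * y) (a + b) := by
  have h1 : (fun j => lam j (x * y)) = fun j => lam j x * y ^ (ℓ ^ j) + lam j y := by
    funext j
    rw [lam, lam, lam, mul_pow]
    ring
  rw [LogIs, h1]
  have h2 := ((show Tendsto (fun j => lam j x) atTop (𝓝 a) from h).mul h'.pow_tendsto).add
    (show Tendsto (fun j => lam j y) atTop (𝓝 b) from h')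
  rw [mul_one] at h2
  exact h2

theorem LogIs.inv {x a : Om ℓ} (h : LogIs x a) (hx : x ≠ 0) : LogIs x⁻¹ (-a) := by
  have h1 : (fun j => lam j x⁻¹) = fun j => -(lam j x * (x ^ (ℓ ^ j))⁻¹) := by
    funext j
    rw [lam, lam, inv_pow]
    have : x ^ (ℓ ^ j) ≠ 0 := pow_ne_zero _ hx
    field_simp
    ring
  rw [LogIs, h1]
  have h2 := ((show Tendsto (fun j => lam j x) atTop (𝓝 a) from h).mul
    (h.pow_tendsto.inv₀ one_ne_zero)).neg
  rw [inv_one, mul_one] at h2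
  exact h2

theorem LogIs.pow {x a : Om ℓ} (h : LogIs x a) (n : ℕ) : LogIs (x ^ n) ((n : Om ℓ) * a) := by
  induction n with
  | zero => rw [pow_zero, Nat.cast_zero, zero_mul]; exact logIs_one
  | succ n ih =>
    rw [pow_succ, Nat.cast_succ, add_mul, one_mul]
    exact ih.mul h

theorem LogIs.zpow {x a : Om ℓ} (h : LogIs x a) (hx : x ≠ 0) (n : ℤ) :
    LogIs (x ^ n) ((n : Om ℓ) * a) := by
  obtain ⟨m, rfl | rfl⟩ := n.eq_nat_or_neg
  · rw [zpow_natCast, Int.cast_natCast]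
    exact h.pow m
  · rw [_root_.zpow_neg, zpow_natCast, Int.cast_neg, Int.cast_natCast, neg_mul]
    exact (h.pow m).inv (pow_ne_zero _ hx)

theorem LogIs.prod {I : Type} (s : Finset I) {x a : I → Om ℓ} (h : ∀ i, LogIs (x i) (a i)) :
    LogIs (∏ i ∈ s, x i) (∑ i ∈ s, a i) := by
  classical
  induction s using Finset.induction_on with
  | empty => rw [Finset.prod_empty, Finset.sum_empty]; exact logIs_one
  | insert i s hi ih =>
    rw [Finset.prod_insert hi, Finset.sum_insert hi]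
    exact (h i).mul ih

theorem norm_of_near {x : Om ℓ} (h : ‖x - 1‖ ≤ ((ℓ : ℝ) ^ 2)⁻¹) : ‖x‖ = 1 := by
  have h1 : ((ℓ : ℝ) ^ 2)⁻¹ < 1 :=
    inv_lt_one_of_one_lt₀ (one_lt_pow₀ (by exact_mod_cast (Fact.out : ℓ.Prime).one_lt) (by omega))
  have h2 : ‖x + -1‖ < max ‖x‖ ‖(-1 : Om ℓ)‖ := by
    rw [← sub_eq_add_neg, norm_neg, norm_one]
    exact (h.trans_lt h1).trans_le (le_max_right _ _)
  rw [IsUltrametricDist.norm_eq_of_add_norm_lt_max h2, norm_neg, norm_one]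

theorem near_inv {x : Om ℓ} (h : ‖x - 1‖ ≤ ((ℓ : ℝ) ^ 2)⁻¹) : ‖x⁻¹ - 1‖ ≤ ((ℓ : ℝ) ^ 2)⁻¹ := by
  have h1 := norm_of_near h
  have h0 : x ≠ 0 := by
    rintro rfl
    rw [norm_zero] at h1
    exact zero_ne_one h1
  have h2 : x⁻¹ - 1 = -(x⁻¹ * (x - 1)) := by
    field_simp
    ring
  rw [h2, norm_neg, norm_mul, norm_inv, h1, inv_one, one_mul]
  exact h

theorem near_zpow {x : Om ℓ} (h : ‖x - 1‖ ≤ ((ℓ : ℝ) ^ 2)⁻¹) (n : ℤ) :
    ‖x ^ n - 1‖ ≤ ((ℓ : ℝ) ^ 2)⁻¹ := by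
  obtain ⟨m, rfl | rfl⟩ := n.eq_nat_or_neg
  · rw [zpow_natCast]
    exact pow_near x _ (by positivity) (inv_pow_le 2) h m
  · rw [_root_.zpow_neg, zpow_natCast]
    exact near_inv (pow_near x _ (by positivity) (inv_pow_le 2) h m)

theorem near_prod {I : Type} (s : Finset I) {x : I → Om ℓ}
    (h : ∀ i, ‖x i - 1‖ ≤ ((ℓ : ℝ) ^ 2)⁻¹) : ‖∏ i ∈ s, x i - 1‖ ≤ ((ℓ : ℝ) ^ 2)⁻¹ := by
  classical
  induction s using Finset.induction_on with
  | empty => rw [Finset.prod_empty, sub_self, norm_zero]; positivity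
  | insert i s hi ih =>
    rw [Finset.prod_insert hi]
    exact mul_near _ _ _ (by positivity) (inv_pow_le 2) (h i) ih

theorem eq_one_of_logIs {x : Om ℓ} (h : LogIs x 0) (hx : ‖x - 1‖ ≤ ((ℓ : ℝ) ^ 2)⁻¹) : x = 1 := by
  have h1 := (show Tendsto (fun j => lam j x) atTop (𝓝 0) from h).norm
  rw [norm_zero] at h1
  have h2 : (fun j => ‖lam j x‖) = fun _ => (ℓ : ℝ) ^ 2 * ‖x - 1‖ := by
    funext j
    have hl0 : (ℓ : ℝ) ≠ 0 := by exact_mod_cast (Fact.out : ℓ.Prime).ne_zero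
    have h3 : x ^ (ℓ ^ j) - 1 = x ^ (ℓ ^ j) - 1 ^ (ℓ ^ j) := by rw [one_pow]
    rw [lam, norm_mul, norm_alg, norm_inv, norm_l_pow, inv_inv, h3,
      pow_pow_sub x 1 hx (by rw [sub_self, norm_zero]; positivity)]
    field_simp
    ring
  rw [h2] at h1
  have h4 := tendsto_nhds_unique h1 tendsto_const_nhds
  have hl2 : (ℓ : ℝ) ^ 2 ≠ 0 := by
    have hl0 : (ℓ : ℝ) ≠ 0 := by exact_mod_cast (Fact.out : ℓ.Prime).ne_zero
    positivity
  have h5 := (mul_eq_zero.1 h4.symm).resolve_left hl2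
  exact sub_eq_zero.1 (norm_eq_zero.1 h5)

end

end Pool.Agent.R931.ZL
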