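import Mathlib
import Pool.Agent.R931.ZL.Log

/-!
# The logarithm of a power of a regular element
-/

set_option autoImplicit false
set_option linter.unusedSectionVars false

open Matrix Polynomial Filter Topology

namespace Pool.Agent.R931.ZL

open Pool.Agent.Y142.ZO Pool.Agent.Y142.SS Pool.Agent.Y497.ZO Pool.Agent.Y936.SS
open Pool.Agent.Y142.ZD (DistPow)

section

variable {ℓ : ℕ} [Fact ℓ.Prime] {N : ℕ}

theorem eval_Pj (m j : ℕ) (r : Om ℓ) : aeval r (Pj ℓ m j) = lam j (r ^ m) := by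
  unfold Pj lam
  simp only [map_mul, aeval_C, map_sub, map_pow, aeval_X, map_one, pow_mul]

/-- The logarithm of a power of a regular element. -/
theorem logr (g : Mt ℓ N) (m : ℕ) (hm : 0 < m) (hn : Near ℓ (g ^ m))
    (hsep : g.charpoly.Separable) (hdist : DistPow ℓ g.charpoly) :
    ∃ (T : Mt ℓ N) (f : ℚ_[ℓ][X]), aeval g f = T ∧
      Tendsto (fun j => Aj (g ^ m) j) atTop (𝓝 T) ∧ T.charpoly.Separable ∧
        (∀ r : Om ℓ, aeval r g.charpoly = 0 → aeval (aeval r f) T.charpoly = 0) ∧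
        (∀ r s : Om ℓ, aeval r g.charpoly = 0 → aeval s g.charpoly = 0 →
          aeval r f = aeval s f → r = s) ∧
        (∀ x : Om ℓ, aeval x T.charpoly = 0 → ∃ r, aeval r g.charpoly = 0 ∧ aeval r f = x) ∧
        ∀ {I : Type} [Fintype I] (z : I → Om ℓ), (∀ i, aeval (z i) g.charpoly = 0) →
          lrel (fun i => aeval (z i) f) = relations z := by
  classical
  let _ : NormedAddCommGroup (Mt ℓ N) := Matrix.normedAddCommGroup
  let _ : NormedSpace ℚ_[ℓ] (Mt ℓ N) := Matrix.normedSpace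
  have h0 : ‖Aj (g ^ m) 0‖ ≤ 1 := aj_zero (g ^ m) (by rw [mul_one]; exact (near_iff _).1 hn)
  obtain ⟨T, hT⟩ := exists_lim (g ^ m) h0
  -- `T` is a polynomial in `g`
  obtain ⟨f, hf⟩ : ∃ f : ℚ_[ℓ][X], aeval g f = T := by
    have hcl : IsClosed ((Subalgebra.toSubmodule (Algebra.adjoin ℚ_[ℓ] {g}) :
        Submodule ℚ_[ℓ] (Mt ℓ N)) : Set (Mt ℓ N)) :=
      Submodule.closed_of_finiteDimensional _
    have hmem : T ∈ Subalgebra.toSubmodule (Algebra.adjoin ℚ_[ℓ] {g}) := by
      refine hcl.mem_of_tendsto hT (Eventually.of_forall fun j => ?_)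
      rw [Aj_eq]
      show aeval g (Pj ℓ m j) ∈ Algebra.adjoin ℚ_[ℓ] {g}
      rw [Algebra.adjoin_singleton_eq_range_aeval]
      exact ⟨_, rfl⟩
    have hmem' : T ∈ Algebra.adjoin ℚ_[ℓ] {g} := hmem
    rw [Algebra.adjoin_singleton_eq_range_aeval] at hmem'
    exact hmem'
  -- the roots are mapped to roots
  have hroot : ∀ r : Om ℓ, aeval r g.charpoly = 0 → aeval (aeval r f) T.charpoly = 0 := by
    intro r hr
    obtain ⟨v, hv, hrv⟩ := (root_iff g r).1 hr
    rw [root_iff]
    exact ⟨v, hv, by rw [← hf]; exact eig_ext g v r hrv f⟩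
  -- the approximations converge
  have hconv : ∀ r : Om ℓ, aeval r g.charpoly = 0 → LogIs (r ^ m) (aeval r f) := by
    intro r hr
    obtain ⟨v, hv, hrv⟩ := (root_iff g r).1 hr
    obtain ⟨i, hi⟩ := Function.ne_iff.1 hv
    have h1 : Tendsto (fun j => Lf v i (Aj (g ^ m) j)) atTop (𝓝 (Lf v i T)) :=
      ((Lf_cont v i).tendsto T).comp hT
    rw [← hf, Lf_eq v i _ _ (eig_ext g v r hrv f)] at h1
    have h2 : (fun j => Lf v i (Aj (g ^ m) j)) = fun j => lam j (r ^ m) * v i := by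
      funext j
      rw [Aj_eq, Lf_eq v i _ _ (eig_ext g v r hrv _), eval_Pj]
    rw [h2] at h1
    have h3 := h1.mul_const (v i)⁻¹
    have hvi : v i ≠ 0 := hi
    simp only [mul_assoc, mul_inv_cancel₀ hvi, mul_one] at h3
    exact h3
  -- powers of the roots are near one
  have hone : ∀ r : Om ℓ, aeval r g.charpoly = 0 → ‖r ^ m - 1‖ ≤ ((ℓ : ℝ) ^ 2)⁻¹ := by
    intro r hr
    obtain ⟨v, hv, hrv⟩ := (root_iff g r).1 hr
    have h1 := eig_ext g v r hrv (X ^ m - 1)
    simp only [map_sub, map_pow, aeval_X, map_one] at h1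
    exact eig_le _ v _ hv h1 _ (by positivity) hn
  have hne : ∀ r : Om ℓ, aeval r g.charpoly = 0 → r ≠ 0 := by
    rintro r hr rfl
    have h1 := norm_of_near (hone 0 hr)
    rw [zero_pow hm.ne', norm_zero] at h1
    exact zero_ne_one h1
  have hrel : ∀ {I : Type} [Fintype I] (z : I → Om ℓ), (∀ i, aeval (z i) g.charpoly = 0) →
      lrel (fun i => aeval (z i) f) = relations z := by
    intro I _ z hz
    ext n
    have hl : LogIs (∏ i, (z i ^ m) ^ n i) (∑ i, (n i : Om ℓ) * aeval (z i) f) :=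
      LogIs.prod Finset.univ fun i => (hconv _ (hz i)).zpow (pow_ne_zero _ (hne _ (hz i))) _
    have heq : ∏ i, (z i ^ m) ^ n i = (∏ i, z i ^ n i) ^ m := by
      rw [← Finset.prod_pow]
      refine Finset.prod_congr rfl fun i _ => ?_
      rw [← zpow_natCast, ← zpow_natCast, ← _root_.zpow_mul, ← _root_.zpow_mul, mul_comm]
    constructor
    · intro hn0
      have hn0' : ∑ i, (n i : Om ℓ) * aeval (z i) f = 0 := hn0
      rw [hn0'] at hl
      have h1 := eq_one_of_logIs hl (near_prod _ fun i => near_zpow (hone _ (hz i)) _)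
      rw [heq] at h1
      exact ⟨m, hm, h1⟩
    · rintro ⟨M, hM, h1⟩
      have h2 := hl.pow M
      rw [heq, ← pow_mul, mul_comm, pow_mul, h1, one_pow] at h2
      have h3 := h2.unique logIs_one
      have hM0 : (M : Om ℓ) ≠ 0 := by exact_mod_cast hM.ne'
      exact (mul_eq_zero.1 h3).resolve_left hM0
  have hinj : ∀ r s : Om ℓ, aeval r g.charpoly = 0 → aeval s g.charpoly = 0 →
      aeval r f = aeval s f → r = s := by
    intro r s hr hs hrs
    refine hdist m r s hm hr hs ?_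
    have h1 := (hconv r hr).mul ((hconv s hs).inv (pow_ne_zero _ (hne s hs)))
    rw [hrs, add_neg_cancel] at h1
    have h2 := eq_one_of_logIs h1 (mul_near _ _ _ (by positivity) (inv_pow_le 2) (hone r hr)
      (near_inv (hone s hs)))
    rw [← div_eq_mul_inv, div_eq_one_iff_eq (pow_ne_zero _ (hne s hs))] at h2
    exact h2
  -- cardinalities
  have hgne : g.charpoly ≠ 0 := g.charpoly_monic.ne_zero
  have hTne : T.charpoly ≠ 0 := T.charpoly_monic.ne_zero
  have hcardg : (g.charpoly.rootSet (Om ℓ)).ncard = N := by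
    rw [← Nat.card_coe_set_eq, Nat.card_eq_fintype_card, card_rootSet_eq_natDegree hsep
      (IsAlgClosed.splits _), Matrix.charpoly_natDegree_eq_dim, Fintype.card_fin]
  have hdegT : T.charpoly.natDegree = N := by
    rw [Matrix.charpoly_natDegree_eq_dim, Fintype.card_fin]
  have hcardT : (T.charpoly.rootSet (Om ℓ)).ncard ≤ N :=
    (Polynomial.ncard_rootSet_le _ _).trans hdegT.le
  have himg : (fun r : Om ℓ => aeval r f) '' g.charpoly.rootSet (Om ℓ) ⊆
      T.charpoly.rootSet (Om ℓ) := by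
    rintro _ ⟨r, hr, rfl⟩
    rw [mem_rootSet] at hr ⊢
    exact ⟨hTne, hroot r hr.2⟩
  have himgcard : ((fun r : Om ℓ => aeval r f) '' g.charpoly.rootSet (Om ℓ)).ncard = N := by
    rw [Set.InjOn.ncard_image, hcardg]
    intro r hr s hs hrs
    exact hinj r s (mem_rootSet.1 hr).2 (mem_rootSet.1 hs).2 hrs
  have hfin : (T.charpoly.rootSet (Om ℓ)).Finite := Polynomial.rootSet_finite _ _
  have heq : (fun r : Om ℓ => aeval r f) '' g.charpoly.rootSet (Om ℓ) =
      T.charpoly.rootSet (Om ℓ) :=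
    Set.eq_of_subset_of_ncard_le himg (by rw [himgcard]; exact hcardT) hfin
  refine ⟨T, f, hf, hT, ?_, hroot, hinj, ?_, fun z hz => hrel z hz⟩
  · rw [← card_rootSet_eq_natDegree_iff_of_splits (K := Om ℓ) hTne (IsAlgClosed.splits _), hdegT,
      ← Nat.card_eq_fintype_card, Nat.card_coe_set_eq, ← heq, himgcard]
  · intro x hx
    have hx' : x ∈ T.charpoly.rootSet (Om ℓ) := mem_rootSet.2 ⟨hTne, hx⟩
    rw [← heq] at hx'
    obtain ⟨r, hr, hrx⟩ := hx'
    exact ⟨r, (mem_rootSet.1 hr).2, hrx⟩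

end

end Pool.Agent.R931.ZL
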