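import Mathlib
import Pool.Agent.R931.ZL.Log2
import Pool.Agent.R931.IR.Near

/-!
# The logarithms of elements near the exponential of a tangent vector
-/

set_option autoImplicit false
set_option linter.unusedSectionVars false

open Matrix Polynomial Filter Topology

namespace Pool.Agent.R931.ZL

open Pool.Agent.Y142.ZO Pool.Agent.Y142.SS Pool.Agent.Y497.ZO Pool.Agent.Y936.SS
open Pool.Agent.Y142.ZD (DistPow)
open Function

section

variable {ℓ : ℕ} [Fact ℓ.Prime] {N : ℕ}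

theorem sep_of_roots {p : ℚ_[ℓ][X]} (hp : p.Monic) (hdeg : p.natDegree = N) {y : Fin N → Om ℓ}
    (hinj : Injective y) (hy : ∀ i, aeval (y i) p = 0) :
    p.Separable ∧ ∀ x : Om ℓ, aeval x p = 0 → ∃ i, y i = x := by
  classical
  have h1 : Set.range y ⊆ p.rootSet (Om ℓ) := by
    rintro _ ⟨i, rfl⟩
    exact mem_rootSet.2 ⟨hp.ne_zero, hy i⟩
  have hcard : (Set.range y).ncard = N := by
    rw [← Set.image_univ, Set.ncard_image_of_injective _ hinj, Set.ncard_univ, Nat.card_eq_fintype_card,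
      Fintype.card_fin]
  have hle : (p.rootSet (Om ℓ)).ncard ≤ N := (Polynomial.ncard_rootSet_le _ _).trans hdeg.le
  have heq : Set.range y = p.rootSet (Om ℓ) :=
    Set.eq_of_subset_of_ncard_le h1 (by rw [hcard]; exact hle) (Polynomial.rootSet_finite _ _)
  constructor
  · rw [← card_rootSet_eq_natDegree_iff_of_splits (K := Om ℓ) hp.ne_zero (IsAlgClosed.splits _), hdeg,
      ← Nat.card_eq_fintype_card, Nat.card_coe_set_eq, ← heq, hcard]
  · intro x hx
    have h2 : x ∈ p.rootSet (Om ℓ) := mem_rootSet.2 ⟨hp.ne_zero, hx⟩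
    rw [← heq] at h2
    exact h2

theorem exists_ordering {p : ℚ_[ℓ][X]} (hdeg : p.natDegree = N) (hsep : p.Separable) :
    ∃ y : Fin N → Om ℓ, Injective y ∧ ∀ i, aeval (y i) p = 0 := by
  classical
  have h1 : Fintype.card (p.rootSet (Om ℓ)) = N := by
    rw [card_rootSet_eq_natDegree hsep (IsAlgClosed.splits _), hdeg]
  let e := Fintype.equivFinOfCardEq h1
  refine ⟨fun i => (e.symm i : Om ℓ), fun i j hij => e.symm.injective (Subtype.ext hij), fun i => ?_⟩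
  exact (mem_rootSet.1 (e.symm i).2).2

theorem root_smul (c : ℚ_[ℓ]) (hc : c ≠ 0) (L : Mt ℓ N) (x : Om ℓ) :
    aeval (algebraMap ℚ_[ℓ] (Om ℓ) c * x) (c • L).charpoly = 0 ↔ aeval x L.charpoly = 0 := by
  rw [root_iff, root_iff]
  refine exists_congr fun v => and_congr_right fun _ => ?_
  have h1 : Pool.Agent.Y936.SS.ext (c • L) = algebraMap ℚ_[ℓ] (Om ℓ) c • Pool.Agent.Y936.SS.ext L := by
    unfold Pool.Agent.Y936.SS.ext
    ext i j
    rw [Matrix.map_apply, Matrix.smul_apply, Matrix.smul_apply, Matrix.map_apply, smul_eq_mul,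
      smul_eq_mul, map_mul]
  rw [h1, Matrix.smul_mulVec, mul_smul]
  have hc' : algebraMap ℚ_[ℓ] (Om ℓ) c ≠ 0 := by
    rw [Ne, map_eq_zero_iff _ (algebraMap ℚ_[ℓ] (Om ℓ)).injective]
    exact hc
  exact (smul_right_injective _ hc').eq_iff

section norm

attribute [local instance] Matrix.normedAddCommGroup Matrix.normedSpace

theorem lim_close (B : Mt ℓ N) (h0 : ‖Aj B 0‖ ≤ 1) {T : Mt ℓ N}
    (hT : Tendsto (Aj B) atTop (𝓝 T)) : ‖T - Aj B 0‖ ≤ ‖Aj B 0‖ ^ 2 := by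
  have : IsUltrametricDist (Mt ℓ N) :=
    inferInstanceAs (IsUltrametricDist (Fin N → Fin N → ℚ_[ℓ]))
  have key : ∀ j, ‖Aj B j - Aj B 0‖ ≤ ‖Aj B 0‖ ^ 2 := by
    intro j
    induction j with
    | zero => rw [sub_self, norm_zero]; positivity
    | succ j ih =>
      have hb := bound B h0 le_rfl j
      have h1 : ‖Aj B (j + 1) - Aj B j‖ ≤ ‖Aj B 0‖ ^ 2 := by
        rw [step, add_sub_cancel_left]
        refine IsUltrametricDist.norm_sum_le_of_forall_le_of_nonneg (by positivity) fun m _ => ?_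
        rw [norm_smul]
        have h2 : ‖Aj B j ^ (m + 2)‖ ≤ ‖Aj B 0‖ ^ 2 := by
          rw [pow_succ]
          calc _ ≤ ‖Aj B j ^ (m + 1)‖ * ‖Aj B j‖ := nmul _ _
            _ ≤ ‖Aj B 0‖ * ‖Aj B 0‖ := mul_le_mul (npow _ hb h0 _ (by omega)) hb (norm_nonneg _)
                (norm_nonneg _)
            _ = _ := by ring
        calc _ ≤ 1 * ‖Aj B 0‖ ^ 2 := mul_le_mul ((coef_norm _ j m).trans (inv_pow_le _)) h2
              (norm_nonneg _) zero_le_one
          _ = _ := one_mul _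
      have h3 : Aj B (j + 1) - Aj B 0 = (Aj B (j + 1) - Aj B j) + (Aj B j - Aj B 0) := by abel
      rw [h3]
      exact (IsUltrametricDist.norm_add_le_max _ _).trans (max_le h1 ih)
  exact le_of_tendsto ((hT.sub_const _).norm) (Eventually.of_forall key)

/-- roots of nearby matrices -/
theorem roots_near (T : Mt ℓ N) (y : Fin N → Om ℓ) (hy : ∀ i, aeval (y i) T.charpoly = 0) {ε : ℝ}
    (hε : 0 < ε) : ∃ δ : ℝ, 0 < δ ∧ ∀ T' : Mt ℓ N, ‖T' - T‖ < δ →
      ∃ y' : Fin N → Om ℓ, (∀ i, aeval (y' i) T'.charpoly = 0) ∧ ∀ i, ‖y' i - y i‖ < ε := by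
  have h1 : ∀ i, ∀ᶠ T' : Mt ℓ N in 𝓝 T, ‖aeval (y i) T'.charpoly‖ < ε ^ N := by
    intro i
    have hc : Continuous fun T' : Mt ℓ N => ‖aeval (y i) T'.charpoly‖ := by
      apply Continuous.norm
      have h : (fun T' : Mt ℓ N => aeval (y i) T'.charpoly) = fun T' => (Matrix.scalar (Fin N) (y i) -
          T'.map (algebraMap ℚ_[ℓ] (Om ℓ))).det := by
        funext T'
        rw [← Matrix.eval_charpoly, Matrix.charpoly_map, eval_map_algebraMap]
      rw [h]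
      apply Continuous.matrix_det
      apply continuous_const.sub
      exact continuous_id.matrix_map (continuous_algebraMap ℚ_[ℓ] (Om ℓ))
    have h2 := hc.tendsto T
    rw [hy i, norm_zero] at h2
    exact h2.eventually_lt_const (by positivity)
  have h2 : ∀ᶠ T' : Mt ℓ N in 𝓝 T, ∀ i, ‖aeval (y i) T'.charpoly‖ < ε ^ N :=
    Filter.eventually_all.2 h1
  obtain ⟨δ, hδ, h3⟩ := Metric.eventually_nhds_iff.1 h2
  refine ⟨δ, hδ, fun T' hT' => ?_⟩
  have h4 := h3 (y := T') (by rw [dist_eq_norm]; exact hT')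
  have h5 : ∀ i, ∃ x : Om ℓ, aeval x T'.charpoly = 0 ∧ ‖x - y i‖ < ε := by
    intro i
    obtain ⟨x, hx, hx'⟩ := Pool.Agent.R931.IR.exists_root_near (Matrix.toLin' T') (y i) hε
      (by rw [Matrix.charpoly_toLin']; exact h4 i)
    refine ⟨x, ?_, hx'⟩
    unfold Pool.Agent.R931.IR.IsRootOf at hx
    rwa [Matrix.charpoly_toLin'] at hx
  choose y' h6 h7 using h5
  exact ⟨y', h6, h7⟩

theorem stepA (T : Mt ℓ N) (y : Fin N → Om ℓ) (hy : ∀ i, aeval (y i) T.charpoly = 0) {ε : ℝ}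
    (hε : 0 < ε) (hdist : ∀ i j, i ≠ j → ε ≤ ‖y i - y j‖) :
    ∃ (δ : ℝ) (k₀ : ℕ), 0 < δ ∧ ∀ (k : ℕ) (g : Mt ℓ N), k₀ ≤ k →
      (∀ a b, ‖((((ℓ : ℚ_[ℓ]) ^ k)⁻¹ • (g - 1)) - T) a b‖ < δ) → g.charpoly.Separable →
      DistPow ℓ g.charpoly → ∃ (f : ℚ_[ℓ][X]) (z : Fin N → Om ℓ), Injective z ∧
        (∀ i, aeval (z i) g.charpoly = 0) ∧ Injective (fun i => aeval (z i) f) ∧
        (∀ i, aeval (aeval (z i) f) (aeval g f).charpoly = 0) ∧ (aeval g f).charpoly.Separable ∧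
        lrel (fun i => aeval (z i) f) = relations z ∧ ∀ i, ‖aeval (z i) f - y i‖ < ε := by
  have : IsUltrametricDist (Mt ℓ N) :=
    inferInstanceAs (IsUltrametricDist (Fin N → Fin N → ℚ_[ℓ]))
  obtain ⟨δ₁, hδ₁, hroots⟩ := roots_near T y hy hε
  set c : ℝ := max ‖T‖ 1 with hc
  have hc1 : 1 ≤ c := le_max_right _ _
  have hc0 : 0 < c := by linarith
  obtain ⟨k₁, hk₁⟩ : ∃ k₁ : ℕ, ((ℓ : ℝ)⁻¹) ^ k₁ < min δ₁ 1 / c ^ 2 :=
    exists_pow_lt_of_lt_one (by positivity) l_inv_lt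
  refine ⟨min δ₁ 1, k₁ + 2, by positivity, fun k g hk hg hsep hpow => ?_⟩
  obtain ⟨j, rfl⟩ : ∃ j, k = j + 2 := ⟨k - 2, by omega⟩
  have hj : k₁ ≤ j := by omega
  set A : Mt ℓ N := ((ℓ : ℚ_[ℓ]) ^ (j + 2))⁻¹ • (g - 1) with hA
  have hl : (ℓ : ℚ_[ℓ]) ≠ 0 := l_ne
  have hAT : ‖A - T‖ < min δ₁ 1 := by
    have h1 : (0 : ℝ) < min δ₁ 1 := by positivity
    rw [Matrix.norm_lt_iff h1]
    exact hg
  have hAc : ‖A‖ ≤ c := by
    have h1 : A = (A - T) + T := by abel
    rw [h1]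
    refine (IsUltrametricDist.norm_add_le_max _ _).trans (max_le ?_ (le_max_left _ _))
    exact (hAT.le.trans (min_le_right _ _)).trans hc1
  set η : ℝ := ((ℓ : ℝ)⁻¹) ^ j with hη
  have hη0 : 0 < η := by
    have : (0 : ℝ) < (ℓ : ℝ)⁻¹ := inv_pos.2 lR_pos
    positivity
  have hηk : η < min δ₁ 1 / c ^ 2 :=
    (pow_le_pow_of_le_one (by positivity) l_inv_lt.le hj).trans_lt hk₁
  have hηc2 : η * c ^ 2 < min δ₁ 1 := by
    rwa [lt_div_iff₀ (by positivity)] at hηk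
  have hηc : η * c ≤ 1 := by
    have h1 : η * c ≤ η * c ^ 2 := by
      apply mul_le_mul_of_nonneg_left _ hη0.le
      nlinarith
    exact h1.trans (hηc2.le.trans (min_le_right _ _))
  have hnl : ‖(ℓ : ℚ_[ℓ]) ^ j‖ = η := by rw [norm_l_pow, hη, inv_pow]
  have hAj : Aj g 0 = (ℓ : ℚ_[ℓ]) ^ j • A := by
    unfold Aj
    rw [hA, smul_smul, pow_zero, pow_one]
    congr 1
    field_simp
    ring
  have hB : ‖Aj g 0‖ ≤ η * c := by
    rw [hAj, norm_smul, hnl]
    exact mul_le_mul_of_nonneg_left hAc hη0.le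
  have hnear : Near ℓ (g ^ 1) := by
    rw [pow_one, near_iff]
    have h1 : g - 1 = (ℓ : ℚ_[ℓ]) ^ 2 • Aj g 0 := by
      unfold Aj
      rw [smul_smul, pow_zero, pow_one, zero_add, mul_inv_cancel₀ (pow_ne_zero _ hl), one_smul]
    rw [h1, norm_smul, norm_l_pow]
    exact mul_le_of_le_one_right (by positivity) (hB.trans hηc)
  obtain ⟨L, f, hf, hL, hLsep, h1, h2, h3, h4⟩ := logr g 1 one_pos hnear hsep hpow
  simp only [pow_one] at hL
  set e : ℚ_[ℓ] := ((ℓ : ℚ_[ℓ]) ^ j)⁻¹ with he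
  have he0 : e ≠ 0 := inv_ne_zero (pow_ne_zero _ hl)
  have hne : ‖e‖ = η⁻¹ := by rw [he, norm_inv, hnl]
  have hLclose : ‖L - Aj g 0‖ ≤ (η * c) ^ 2 :=
    (lim_close g (hB.trans hηc) hL).trans (pow_le_pow_left₀ (norm_nonneg _) hB 2)
  have hT' : ‖e • L - T‖ < δ₁ := by
    have h5 : e • L - T = e • (L - Aj g 0) + (A - T) := by
      rw [smul_sub, hAj, smul_smul, he, inv_mul_cancel₀ (pow_ne_zero _ hl), one_smul]
      abel
    rw [h5]
    refine (IsUltrametricDist.norm_add_le_max _ _).trans_lt (max_lt ?_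
      (hAT.trans_le (min_le_left _ _)))
    rw [norm_smul, hne]
    calc _ ≤ η⁻¹ * (η * c) ^ 2 := mul_le_mul_of_nonneg_left hLclose (by positivity)
      _ = η * c ^ 2 := by field_simp
      _ < δ₁ := hηc2.trans_le (min_le_left _ _)
  obtain ⟨y', hy', hyy'⟩ := hroots _ hT'
  have hy'inj : Injective y' := by
    intro a b hab
    by_contra hne'
    have h5 : y a - y b = -(y' a - y a) + (y' b - y b) := by rw [hab]; ring
    have h6 : ‖y a - y b‖ < ε := by
      rw [h5]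
      refine (IsUltrametricDist.norm_add_le_max _ _).trans_lt (max_lt ?_ (hyy' b))
      rw [norm_neg]
      exact hyy' a
    exact absurd (hdist a b hne') (not_le.2 h6)
  have hz : ∀ i, ∃ r : Om ℓ, aeval r g.charpoly = 0 ∧
      aeval r (C e * f) = y' i := by
    intro i
    have h5 : y' i = algebraMap ℚ_[ℓ] (Om ℓ) e * (algebraMap ℚ_[ℓ] (Om ℓ) e⁻¹ * y' i) := by
      rw [← mul_assoc, ← map_mul, mul_inv_cancel₀ he0, map_one, one_mul]
    have h6 := hy' i
    rw [h5, root_smul e he0] at h6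
    obtain ⟨r, hr, hr'⟩ := h3 _ h6
    exact ⟨r, hr, by rw [map_mul, aeval_C, hr', ← h5]⟩
  choose z hz hzy using hz
  have hfun : (fun i => aeval (z i) (C e * f)) = y' := funext hzy
  have haev : aeval g (C e * f) = e • L := by
    rw [map_mul, aeval_C, hf, ← Algebra.smul_def]
  refine ⟨C e * f, z, ?_, hz, ?_, ?_, ?_, ?_, ?_⟩
  · intro a b hab
    apply hy'inj
    rw [← hzy a, ← hzy b, hab]
  · rw [hfun]
    exact hy'inj
  · intro i
    rw [hzy, haev]
    exact hy' i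
  · rw [haev]
    exact (sep_of_roots (Matrix.charpoly_monic _)
      (by rw [charpoly_natDegree_eq_dim, Fintype.card_fin]) hy'inj hy').1
  · rw [← h4 z hz]
    ext n
    unfold lrel
    rw [Set.mem_ofPred_eq, Set.mem_ofPred_eq]
    have h5 : ∑ i, (n i : Om ℓ) * aeval (z i) (C e * f) =
        algebraMap ℚ_[ℓ] (Om ℓ) e * ∑ i, (n i : Om ℓ) * aeval (z i) f := by
      rw [Finset.mul_sum]
      refine Finset.sum_congr rfl fun i _ => ?_
      rw [map_mul, aeval_C]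
      ring
    rw [h5, mul_eq_zero, map_eq_zero_iff _ (algebraMap ℚ_[ℓ] (Om ℓ)).injective]
    exact ⟨fun h => h.resolve_left he0, Or.inr⟩
  · intro i
    rw [hzy]
    exact hyy' i

end norm

end

end Pool.Agent.R931.ZL
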