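import Mathlib
import Pool.Agent.R931.ZL.Close
import Pool.Agent.R931.ZL.Rank

/-!
# Sets of relations
-/

set_option autoImplicit false
set_option linter.unusedSectionVars false

open Polynomial Filter Topology

namespace Pool.Agent.R931.ZL

open Function

section push

variable {F : Type} [Field F] {I J : Type} [Fintype I] [Fintype J]

/-- The direct image of exponents. -/
noncomputable def push [DecidableEq I] (c : J → I) (n : J → ℤ) : I → ℤ :=
  fun i => ∑ j with c j = i, n j

theorem zpow_sum' (x : F) (hx : x ≠ 0) (s : Finset J) (f : J → ℤ) :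
    x ^ (∑ i ∈ s, f i) = ∏ i ∈ s, x ^ f i := by
  classical
  induction s using Finset.induction_on with
  | empty => simp
  | insert i s hi ih => rw [Finset.sum_insert hi, Finset.prod_insert hi, zpow_add₀ hx, ih]

theorem prod_push [DecidableEq I] (z : I → F) (hz : ∀ i, z i ≠ 0) (c : J → I) (n : J → ℤ) :
    ∏ j, z (c j) ^ n j = ∏ i, z i ^ push c n i := by
  rw [← Finset.prod_fiberwise (s := Finset.univ) (g := c)]
  refine Finset.prod_congr rfl fun i _ => ?_
  rw [push, zpow_sum' _ (hz i)]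
  refine Finset.prod_congr rfl fun j hj => ?_
  rw [(Finset.mem_filter.1 hj).2]

theorem sum_push [DecidableEq I] (y : I → F) (c : J → I) (n : J → ℤ) :
    ∑ j, (n j : F) * y (c j) = ∑ i, (push c n i : F) * y i := by
  rw [← Finset.sum_fiberwise (s := Finset.univ) (g := c)]
  refine Finset.sum_congr rfl fun i _ => ?_
  rw [push, Int.cast_sum, Finset.sum_mul]
  refine Finset.sum_congr rfl fun j hj => ?_
  rw [(Finset.mem_filter.1 hj).2]

theorem mem_mrel_comp [DecidableEq I] {z : I → F} (hz : ∀ i, z i ≠ 0) (c : J → I) (n : J → ℤ) :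
    n ∈ relations (fun j => z (c j)) ↔ push c n ∈ relations z := by
  unfold relations
  rw [Set.mem_ofPred_eq, Set.mem_ofPred_eq, prod_push z hz]

theorem mem_lrel_comp [DecidableEq I] {y : I → F} (c : J → I) (n : J → ℤ) :
    n ∈ lrel (fun j => y (c j)) ↔ push c n ∈ lrel y := by
  unfold lrel
  rw [Set.mem_ofPred_eq, Set.mem_ofPred_eq, sum_push]

theorem mem_mrel_perm {z : I → F} (π : Equiv.Perm I) (n : I → ℤ) :
    n ∈ relations z ↔ (fun i => n (π i)) ∈ relations (fun i => z (π i)) := by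
  unfold relations
  rw [Set.mem_ofPred_eq, Set.mem_ofPred_eq]
  have h1 : ∏ i, z (π i) ^ n (π i) = ∏ i, z i ^ n i := Equiv.prod_comp π fun i => z i ^ n i
  rw [h1]

theorem mem_lrel_perm {y : I → F} (π : Equiv.Perm I) (n : I → ℤ) :
    n ∈ lrel y ↔ (fun i => n (π i)) ∈ lrel (fun i => y (π i)) := by
  unfold lrel
  rw [Set.mem_ofPred_eq, Set.mem_ofPred_eq]
  have h1 : ∑ i, (n (π i) : F) * y (π i) = ∑ i, (n i : F) * y i :=
    Equiv.sum_comp π fun i => (n i : F) * y i
  rw [h1]

theorem mrel_map {F' : Type} [Field F'] (ι : F →+* F') (z : I → F) :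
    relations (fun i => ι (z i)) = relations z := by
  ext n
  unfold relations
  rw [Set.mem_ofPred_eq, Set.mem_ofPred_eq]
  refine exists_congr fun m => and_congr_right fun _ => ?_
  rw [← map_one ι, ← ι.injective.eq_iff, map_pow, map_prod]
  simp only [map_zpow₀, map_one]

end push

section rank

variable {I : Type} [Fintype I] [DecidableEq I]

/-- The group generated by elements with the relations `R` has rank at least `r`. -/
def RankR (r : ℕ) (R : Set (I → ℤ)) : Prop :=
  ∃ c : Fin r → I, ∀ e : Fin r → ℤ, push c e ∈ R → e = 0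

theorem RankR.indep {F : Type} [Field F] {r : ℕ} {y : I → F} (h : RankR r (lrel y)) :
    ∃ c : Fin r → I, Indep (y ∘ c) := by
  obtain ⟨c, hc⟩ := h
  refine ⟨c, fun e he => hc e ?_⟩
  rw [← mem_lrel_comp]
  exact he

end rank

section perm

variable {I : Type} [Fintype I]

/-- the relations determine a finite set of witnesses -/
theorem exists_witnesses (L : Set (I → ℤ)) : ∃ E : Finset (I → ℤ), (∀ n ∈ E, n ∉ L) ∧
    ∀ π : Equiv.Perm I, ∀ L' : Set (I → ℤ), (∀ n, n ∈ L' ↔ (fun i => n (π i)) ∈ L) →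
      (∀ n ∈ E, n ∉ L') → L' = L := by
  classical
  let wit : Equiv.Perm I → (I → ℤ) → Prop := fun π n => (fun i => n (π i)) ∈ L ∧ n ∉ L
  have hw : ∀ π : Equiv.Perm I, ∃ n : Finset (I → ℤ), (∀ m ∈ n, m ∉ L) ∧
      ((∃ m, wit π m) → ∃ m ∈ n, wit π m) := by
    intro π
    by_cases h : ∃ m, wit π m
    · obtain ⟨m, hm⟩ := h
      exact ⟨{m}, fun x hx => by rw [Finset.mem_singleton.1 hx]; exact hm.2,
        fun _ => ⟨m, Finset.mem_singleton_self m, hm⟩⟩
    · exact ⟨∅, fun m hm => absurd hm (Finset.notMem_empty m), fun h' => absurd h' h⟩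
  choose n hn1 hn2 using hw
  refine ⟨Finset.univ.biUnion n, fun m hm => ?_, fun π L' hL' hE => ?_⟩
  · obtain ⟨π, -, h⟩ := Finset.mem_biUnion.1 hm
    exact hn1 π m h
  · have h1 : ∀ m : I → ℤ, (fun i => m (π i)) ∈ L → m ∈ L := by
      intro m hm
      by_contra hmL
      obtain ⟨m', hm', hw'⟩ := hn2 π ⟨m, hm, hmL⟩
      exact hE m' (Finset.mem_biUnion.2 ⟨π, Finset.mem_univ _, hm'⟩) ((hL' m').2 hw'.1)
    have h2 : ∀ (j : ℕ) (m : I → ℤ), (fun i => m ((π ^ j) i)) ∈ L → m ∈ L := by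
      intro j
      induction j with
      | zero => intro m hm; exact hm
      | succ j ih =>
        intro m hm
        refine h1 m (ih _ ?_)
        have h3 : (fun i => m (π ((π ^ j) i))) = fun i => m ((π ^ (j + 1)) i) := by
          funext i
          rw [pow_succ', Equiv.Perm.mul_apply]
        rw [h3]
        exact hm
    ext m
    rw [hL']
    refine ⟨h1 m, fun hm => ?_⟩
    refine h2 (orderOf π - 1) _ ?_
    have h3 : (fun i => m (π ((π ^ (orderOf π - 1)) i))) = m := by
      funext i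
      rw [← Equiv.Perm.mul_apply, ← pow_succ', Nat.sub_add_cancel (orderOf_pos π), pow_orderOf_eq_one,
        Equiv.Perm.one_apply]
    rw [h3]
    exact hm

end perm

section radius

variable {ℓ : ℕ} [Fact ℓ.Prime] {I : Type} [Fintype I]

/-- relations which are violated near `y` -/
theorem exists_radius_add (y : I → Pool.Agent.Y936.SS.Om ℓ) (E : Finset (I → ℤ))
    (hE : ∀ n ∈ E, n ∉ lrel y) :
    ∃ ε : ℝ, 0 < ε ∧ ∀ y' : I → Pool.Agent.Y936.SS.Om ℓ, (∀ i, ‖y' i - y i‖ < ε) →
      ∀ n ∈ E, n ∉ lrel y' := by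
  have h1 : ∀ n ∈ E, ∀ᶠ y' in 𝓝 y, ∑ i, (n i : Pool.Agent.Y936.SS.Om ℓ) * y' i ≠ 0 := by
    intro n hn
    have hc : Continuous fun y' : I → Pool.Agent.Y936.SS.Om ℓ =>
        ∑ i, (n i : Pool.Agent.Y936.SS.Om ℓ) * y' i :=
      by fun_prop
    exact hc.continuousAt.eventually_ne (hE n hn)
  have h2 : ∀ᶠ y' in 𝓝 y, ∀ n ∈ E, ∑ i, (n i : Pool.Agent.Y936.SS.Om ℓ) * y' i ≠ 0 := by
    rw [Filter.eventually_all_finset]
    exact h1
  obtain ⟨ε, hε, h3⟩ := Metric.eventually_nhds_iff.1 h2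
  refine ⟨ε, hε, fun y' hy n hn => h3 (y := y') ?_ n hn⟩
  rw [dist_pi_lt_iff hε]
  intro k
  rw [dist_eq_norm]
  exact hy k

end radius

end Pool.Agent.R931.ZL
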