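import Mathlib
import Pool.Agent.R931.ZL.Rels
import Pool.Agent.R931.IR.Rel
import Pool.Agent.Y142.ZI.Top
import Pool.Agent.Y114.RM.Final

/-!
# The rank of the group generated by the Frobenius eigenvalues at a place
-/

set_option autoImplicit false
set_option linter.unusedSectionVars false

namespace Pool.Agent.R931.ZL

open Function Polynomial NumberField IsDedekindDomain Module Pool.Agent.R931.IR
  Pool.Agent.Y114.RM Pool.Agent.Y114.GF Pool.Agent.Y142.ZI

section residue

variable {K : Type} [Field K] [NumberField K]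

theorem exists_prime' (v : HeightOneSpectrum (𝓞 K)) : ∃ p : ℕ, p.Prime ∧ (p : 𝓞 K) ∈ v.asIdeal := by
  have h0 : Ideal.absNorm v.asIdeal ≠ 0 := by
    rw [Ne, Ideal.absNorm_eq_zero_iff]
    exact v.ne_bot
  have h2 : ((Ideal.absNorm v.asIdeal : ℕ) : 𝓞 K) ∈ v.asIdeal := Ideal.absNorm_mem v.asIdeal
  have h3 : ∀ m : ℕ, m ≠ 0 → (m : 𝓞 K) ∈ v.asIdeal → ∃ p : ℕ, p.Prime ∧ (p : 𝓞 K) ∈ v.asIdeal := by
    intro m
    induction m using Nat.recOnMul with
    | zero => intro h; exact absurd rfl h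
    | one =>
      intro _ h
      rw [Nat.cast_one] at h
      exact absurd ((Ideal.eq_top_iff_one _).2 h) v.isPrime.ne_top
    | prime p hp => intro _ h; exact ⟨p, hp, h⟩
    | mul a b iha ihb =>
      intro hab h
      rw [Nat.cast_mul] at h
      rcases v.isPrime.mem_or_mem h with h | h
      · exact iha (left_ne_zero_of_mul hab) h
      · exact ihb (right_ne_zero_of_mul hab) h
  exact h3 _ h0 h2

theorem exists_residue (v : HeightOneSpectrum (𝓞 K)) :
    ∃ p f : ℕ, p.Prime ∧ f ≤ finrank ℚ K ∧ q v = p ^ f := by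
  obtain ⟨p, hp, hpv⟩ := exists_prime' v
  have h3 := Ideal.absNorm_dvd_absNorm_of_le ((Ideal.span_singleton_le_iff_mem _).2 hpv)
  rw [Ideal.absNorm_span_natCast, RingOfIntegers.rank] at h3
  obtain ⟨f, hf, hfe⟩ := (Nat.dvd_prime_pow hp).1 h3
  exact ⟨p, f, hp, hf, hfe⟩

end residue

/-- the finite set of exponents -/
noncomputable def exsK (r d N c : ℕ) (wt : ℤ) : Finset (Fin r → ℤ) :=
  (Finset.range (d + 1)).biUnion fun f =>
    exs (fun _ => (f : ℤ) * wt) (bd (fun _ : Fin r => (f : ℤ) * wt) (f * c) N)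

theorem zero_notMem_exsK (r d N c : ℕ) (wt : ℤ) : (0 : Fin r → ℤ) ∉ exsK r d N c wt := by
  intro h
  obtain ⟨f, -, hf⟩ := Finset.mem_biUnion.1 h
  exact zero_notMem_exs _ _ hf

/-- if none of finitely many relations holds, there are no relations -/
theorem indep_of_violated {F : Type} [Field F] [CharZero F] (j : F →+* ℂ) {r d N c : ℕ} {wt : ℤ}
    {Q : ℚ[X]} (hQ : Q ≠ 0) (hdeg : Q.natDegree = N) {p f : ℕ} (hp : p.Prime) (hf : f ≤ d)
    (hpure : ∀ b : ℂ, aeval b Q = 0 → ‖b‖ ^ 2 = ((p ^ f : ℕ) : ℝ) ^ wt)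
    (hint : ∀ b : ℂ, aeval b Q = 0 → IsIntegral ℤ (((p ^ f : ℕ) : ℂ) ^ c * b))
    (z : Fin r → F) (hz : ∀ k, aeval (j (z k)) Q = 0)
    (hE : ∀ e ∈ exsK r d N c wt, e ∉ relations z) :
    (∀ e, e ∈ relations z → e = 0) ∧ IndepRoots r {Q} := by
  have h1 : ∀ e : Fin r → ℤ, ∏ k, j (z k) ^ e k = 1 → e = 0 := by
    intro e he
    by_contra hne
    obtain ⟨e', he', hrel⟩ := relation_complex (fun _ : Fin r => (f : ℤ) * wt) (f * c) (D := N) hp
      (fun _ => Q) (fun k => j (z k)) (fun k => ⟨hQ, hdeg.le⟩)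
      (fun k b hb => by
        rw [hpure b hb, zpow_mul, zpow_natCast]
        push_cast
        rfl)
      (fun k b hb => by
        have h2 := hint b hb
        rw [pow_mul]
        push_cast at h2
        exact h2) hz ⟨e, hne, he⟩
    refine hE e' ?_ ⟨(2 * N ^ r).factorial, Nat.factorial_pos _, ?_⟩
    · refine Finset.mem_biUnion.2 ⟨f, Finset.mem_range.2 (by omega), he'⟩
    · apply j.injective
      rw [map_one, map_pow, map_prod, ← hrel]
      congr 1
      exact Finset.prod_congr rfl fun k _ => by rw [map_zpow₀]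
  constructor
  · rintro e ⟨m, hm, he⟩
    have h2 := h1 (fun k => e k * m) (by
      have h3 := congrArg j he
      rw [map_one, map_pow, map_prod, ← Finset.prod_pow] at h3
      rw [← h3]
      exact Finset.prod_congr rfl fun k _ => by rw [map_zpow₀, zpow_mul, zpow_natCast])
    funext k
    have h4 : e k * m = 0 := congrFun h2 k
    rcases mul_eq_zero.1 h4 with h | h
    · exact h
    · exact absurd (by exact_mod_cast h) hm.ne'
  · exact ⟨fun k => j (z k), fun k => ⟨Q, rfl, hz k⟩, h1⟩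

/-- orderings of the roots have the same rank -/
theorem rank_of_indep {Q : ℚ[X]} (hQ : Q ≠ 0) {N r : ℕ} (x : Fin N → QQ)
    (hx : ∀ y : QQ, aeval y Q = 0 → ∃ i, x i = y) (hx0 : ∀ i, x i ≠ 0)
    (h : IndepRoots r {Q}) : RankR r (relations x) := by
  obtain ⟨w, hw, hind⟩ := h
  obtain ⟨κ⟩ := nonempty_LC
  have h1 : ∀ j, ∃ i, κ (x i) = w j := by
    intro j
    obtain ⟨f, hf, hroot⟩ := hw j
    rw [Set.mem_singleton_iff] at hf
    subst hf
    have h2 : eval₂ (Rat.castHom ℂ) (w j) f = 0 := by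
      rw [aeval_def] at hroot
      rw [← hroot]
      congr 1
    obtain ⟨y, hy, hyw⟩ := Pool.Agent.Y142.ZO.root_lift κ hQ h2
    have h3 : aeval y f = 0 := by
      rw [aeval_def, ← hy]
      congr 1
    obtain ⟨i, hi⟩ := hx y h3
    exact ⟨i, by rw [hi, hyw]⟩
  choose c hc using h1
  refine ⟨c, fun e he => ?_⟩
  rw [← mem_mrel_comp hx0] at he
  obtain ⟨m, hm, he⟩ := he
  have h2 := hind (fun k => e k * m) (by
    have h3 := congrArg κ he
    rw [map_one, map_pow, map_prod, ← Finset.prod_pow] at h3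
    rw [← h3]
    exact Finset.prod_congr rfl fun k _ => by rw [map_zpow₀, hc, zpow_mul, zpow_natCast])
  funext k
  have h4 : e k * m = 0 := congrFun h2 k
  rcases mul_eq_zero.1 h4 with h | h
  · exact h
  · exact absurd (by exact_mod_cast h) hm.ne'

end Pool.Agent.R931.ZL
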