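import Mathlib
import Pool.Agent.R931.ZL.Rank
import Pool.Agent.Y114.RM.All

/-!
# Polynomials in `g` which are additive on the eigenvalues
-/

set_option autoImplicit false
set_option linter.unusedSectionVars false

namespace Pool.Agent.R931.ZL

open Module TensorProduct Finset Function Polynomial Pool.Agent.TH118.SG Pool.Agent.Y114.RM

/-- Extension of homomorphisms. -/
theorem exists_theta {C : Type} [Field C] [CharZero C] {I : Type} [Fintype I] (z : I → Cˣ)
    (a : I → C) (h : ∀ n : I → ℤ, ∏ i, z i ^ n i = 1 → ∑ i, (n i : C) * a i = 0) :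
    ∃ θ : Additive Cˣ →+ C, ∀ i, θ (Additive.ofMul (z i)) = a i := by
  classical
  let ψ : (I → ℤ) →+ Additive Cˣ :=
    { toFun := fun n => Additive.ofMul (∏ i, z i ^ n i)
      map_zero' := by simp
      map_add' := fun n n' => by
        rw [← ofMul_mul, ← Finset.prod_mul_distrib]
        congr 1
        exact Finset.prod_congr rfl fun i _ => zpow_add _ _ _ }
  let lam : (I → ℤ) →+ C :=
    { toFun := fun n => ∑ i, (n i : C) * a i
      map_zero' := by simp
      map_add' := fun n n' => by
        rw [← Finset.sum_add_distrib]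
        refine Finset.sum_congr rfl fun i _ => ?_
        rw [Pi.add_apply, Int.cast_add, add_mul] }
  have hker : ψ.ker ≤ lam.ker := by
    intro n hn
    rw [AddMonoidHom.mem_ker] at hn ⊢
    exact h n (Additive.ofMul.injective hn)
  let lamq : (I → ℤ) ⧸ ψ.ker →+ C := QuotientAddGroup.lift ψ.ker lam hker
  let ψq : (I → ℤ) ⧸ ψ.ker →+ Additive Cˣ := QuotientAddGroup.kerLift ψ
  let hdiv : DivisibleBy C ℤ :=
    { div := fun a n => a / (n : C)
      div_zero := fun a => by simp
      div_cancel := fun {n} a hn => by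
        rw [zsmul_eq_mul]
        have : (n : C) ≠ 0 := Int.cast_ne_zero.2 hn
        field_simp }
  obtain ⟨θ, hθ⟩ := Module.Baer.extension_property_addMonoidHom
    (Module.Baer.of_divisible (A := C)) ψq (QuotientAddGroup.kerLift_injective ψ) lamq
  refine ⟨θ, fun i => ?_⟩
  have h1 : ψq (QuotientAddGroup.mk (Pi.single i 1)) = Additive.ofMul (z i) := by
    change ψ (Pi.single i 1) = _
    change Additive.ofMul (∏ j, z j ^ (Pi.single i (1 : ℤ) : I → ℤ) j) = _
    congr 1
    rw [Finset.prod_eq_single i]
    · rw [Pi.single_eq_same, zpow_one]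
    · intro j _ hj
      rw [Pi.single_eq_of_ne hj, zpow_zero]
    · intro hi
      exact absurd (Finset.mem_univ i) hi
  rw [← h1, ← AddMonoidHom.comp_apply, hθ]
  change lam (Pi.single i 1) = _
  change ∑ j, ((Pi.single i (1 : ℤ) : I → ℤ) j : C) * a j = _
  rw [Finset.sum_eq_single i]
  · rw [Pi.single_eq_same, Int.cast_one, one_mul]
  · intro j _ hj
    rw [Pi.single_eq_of_ne hj, Int.cast_zero, zero_mul]
  · intro hi
    exact absurd (Finset.mem_univ i) hi

section tor

variable {k : Type} [Field k] [CharZero k] {C : Type} [Field C] [CharZero C] [IsAlgClosed C]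
  [Algebra k C] {V : Type} [AddCommGroup V] [Module k V] [FiniteDimensional k V]

theorem tor_mem {g g' : End k V} (hg : g * g' = 1) (hg' : g' * g = 1)
    {I : Type} [Fintype I] (z : I → C) (hinj : Injective z)
    (hcard : Fintype.card I = finrank k V) (hz : ∀ i, aeval (z i) g.charpoly = 0) (f : k[X])
    (hf : ∀ n : I → ℤ, ∏ i, z i ^ n i = 1 → ∑ i, (n i : C) * aeval (z i) f = 0)
    {M : ℕ} (hM : 0 < M) :
    (∀ (m : ℕ) (φ : Tensor k V m), (∀ v, φ (fun l => grp (g ^ M) (g' ^ M) (v l)) = φ v) →
      KillsTensor (aeval g f) φ) ∧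
    ∀ W : Submodule k V, (∀ x ∈ W, (g ^ M) x ∈ W) → ∀ x ∈ W, aeval g f x ∈ W := by
  classical
  let G : End C (C ⊗[k] V) := g.baseChange C
  have hGeig : ∀ i, G.HasEigenvalue (z i) := by
    intro i
    rw [Module.End.hasEigenvalue_iff_isRoot_charpoly]
    change IsRoot (g.baseChange C).charpoly (z i)
    rw [LinearMap.charpoly_baseChange, IsRoot.def, eval_map_algebraMap]
    exact hz i
  have hGinj : Injective G := Pool.Agent.Y86.RM.bc_inj hg'
  have hz0 : ∀ i, z i ≠ 0 := by
    intro i h0
    obtain ⟨v, hv⟩ := (hGeig i).exists_hasEigenvector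
    have h1 := hv.apply_eq_smul
    rw [h0, zero_smul] at h1
    exact hv.2 (hGinj (by rw [h1, map_zero]))
  obtain ⟨b, hb⟩ := exists_eigenbasis G z hinj (by rw [hcard, Module.finrank_baseChange]) hGeig
  obtain ⟨θ, hθ⟩ := exists_theta (fun i => Units.mk0 (z i) (hz0 i)) (fun i => aeval (z i) f) (by
    intro n hn
    apply hf n
    have h1 := congrArg (Units.val) hn
    rw [Units.coe_prod, Units.val_one] at h1
    rw [← h1]
    exact Finset.prod_congr rfl fun i _ => by rw [Units.val_zpow_eq_zpow_val, Units.val_mk0])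
  have hY : (aeval g f).baseChange C = aeval G f := by
    have h1 := Polynomial.aeval_algHom_apply (Module.End.baseChangeHom k C V) g f
    exact h1.symm
  have hop : IsOp θ (g.baseChange C) ((aeval g f).baseChange C) := by
    intro β x hx
    rw [hY]
    have h1 : ∀ i, aeval G f (b i) = (aeval (z i) f) • b i := by
      intro i
      have h2 : ∀ j : ℕ, (G ^ j) (b i) = (z i) ^ j • b i := by
        intro j
        induction j with
        | zero => rw [pow_zero, pow_zero, one_smul, Module.End.one_apply]
        | succ j ih => rw [pow_succ', Module.End.mul_apply, ih, map_smul, hb, smul_smul, pow_succ]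
      have h3 : ∀ p : k[X], aeval G p (b i) = (aeval (z i) p) • b i := by
        intro p
        induction p using Polynomial.induction_on' with
        | add p q hp hq => rw [map_add, map_add, LinearMap.add_apply, hp, hq, add_smul]
        | monomial n a =>
          rw [aeval_monomial, aeval_monomial, Module.End.mul_apply, h2, mul_smul]
          rw [Module.algebraMap_end_apply, algebraMap_smul]
      exact h3 f
    conv_lhs => rw [← b.sum_repr x]
    conv_rhs => rw [← b.sum_repr x]
    rw [map_sum, Finset.smul_sum]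
    refine Finset.sum_congr rfl fun i _ => ?_
    rw [map_smul, h1]
    rcases gen_eq b hb hx i with h | h
    · rw [h, zero_smul, zero_smul, smul_zero]
    · rw [smul_smul, smul_smul, mul_comm]
      congr 2
      rw [← h, ext0_ne _ (hz0 i)]
      exact (hθ i).symm
  obtain ⟨π, hπ⟩ := exists_pi k C
  obtain ⟨h1, h2⟩ := inputs.tor k C V g g' hg hg' θ _ hop M hM π
  rw [pM_bc π hπ] at h1 h2
  exact ⟨h1, h2⟩

end tor

end Pool.Agent.R931.ZL
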