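import Mathlib
import Pool.Agent.R931.ZL.Rels
import Pool.Agent.R931.ZL.Theta
import Pool.Agent.R931.ZL.Pencil3
import Pool.Agent.R931.GD.Main

/-!
# Logarithms in the motivic Lie algebra
-/

set_option autoImplicit false
set_option linter.unusedSectionVars false

namespace Pool.Agent.R931.ZL

open Function Polynomial Module Pool.Agent.TH118.SG Pool.Agent.Y114.RM
  Pool.Agent.Y114.MU Pool.Agent.Y114.TF Pool.Agent.Y114.GF Pool.Agent.H204R3.GP Pool.Agent.R931.GD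
  Pool.Agent.Y142.ZO
open Pool.Agent.Y142.ZD (DistPow)
open Pool.Agent.Y497.ZO (Mt Aj)
open Pool.Agent.Y936.SS (Om)

section

variable {N ℓ : ℕ} [Fact ℓ.Prime]

/-- the endomorphism attached to a matrix -/
noncomputable def lin (A : Mt ℓ N) : End ℚ_[ℓ] (∀ _ : Unit, Fin N → ℚ_[ℓ]) :=
  (uu ℓ N).conj (Matrix.toLin' A)

theorem lin_apply (A : Mt ℓ N) (x : ∀ _ : Unit, Fin N → ℚ_[ℓ]) (i : Unit) :
    lin A x i = A.mulVec (x i) := rfl

/-- the homomorphism of algebras -/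
noncomputable def linHom (ℓ N : ℕ) [Fact ℓ.Prime] :
    Mt ℓ N →ₐ[ℚ_[ℓ]] End ℚ_[ℓ] (∀ _ : Unit, Fin N → ℚ_[ℓ]) where
  toFun := lin
  map_one' := by
    refine LinearMap.ext fun x => funext fun i => ?_
    rw [lin_apply, Matrix.one_mulVec]
    rfl
  map_mul' A B := by
    refine LinearMap.ext fun x => funext fun i => ?_
    rw [Module.End.mul_apply, lin_apply, lin_apply, lin_apply, Matrix.mulVec_mulVec]
  map_zero' := by
    refine LinearMap.ext fun x => funext fun i => ?_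
    rw [lin_apply, Matrix.zero_mulVec]
    rfl
  map_add' A B := by
    refine LinearMap.ext fun x => funext fun i => ?_
    rw [lin_apply, Matrix.add_mulVec]
    rfl
  commutes' a := by
    refine LinearMap.ext fun x => funext fun i => ?_
    rw [lin_apply, Algebra.algebraMap_eq_smul_one, Matrix.smul_mulVec, Matrix.one_mulVec]
    rfl

theorem lin_aeval (A : Mt ℓ N) (f : ℚ_[ℓ][X]) : lin (aeval A f) = aeval (lin A) f :=
  (Polynomial.aeval_algHom_apply (linHom ℓ N) A f).symm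

theorem lin_mul (A B : Mt ℓ N) : lin (A * B) = lin A * lin B := (linHom ℓ N).map_mul A B

theorem lin_one : lin (1 : Mt ℓ N) = 1 := (linHom ℓ N).map_one

theorem charpoly_lin (A : Mt ℓ N) : (lin A).charpoly = A.charpoly := by
  unfold lin
  rw [LinearEquiv.charpoly_conj, Matrix.charpoly_toLin']

theorem finrank_uu : finrank ℚ_[ℓ] (∀ _ : Unit, Fin N → ℚ_[ℓ]) = N := by
  rw [← (uu ℓ N).finrank_eq, Module.finrank_fin_fun]

variable {Γ : Type} [Group Γ]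

theorem sumRep_eq (ρ : Rep1 Γ N ℓ) (γ : Γ) : sumRep ρ γ = lin (matRep ρ γ) := by
  have h2 : sumRep ρ γ = (uu ℓ N).conj (ρ () γ) := sumRep_unit N (ρ ()) γ
  have h3 : matRep ρ γ = LinearMap.toMatrix' (ρ () γ) := rfl
  rw [h2, lin, h3, Matrix.toLin'_toMatrix']

/-- `f` is a logarithm (on the eigenvalues `z i` of `γ`) -/
structure LogAt (ρ : Rep1 Γ N ℓ) (γ : Γ) (z : Fin N → Om ℓ) (f : ℚ_[ℓ][X]) : Prop where
  zinj : Injective z
  zroot : ∀ i, aeval (z i) (matRep ρ γ).charpoly = 0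
  yinj : Injective fun i => aeval (z i) f
  yroot : ∀ i, aeval (aeval (z i) f) (aeval (matRep ρ γ) f).charpoly = 0
  sep : (aeval (matRep ρ γ) f).charpoly.Separable
  rel : lrel (fun i => aeval (z i) f) = relations z

variable {ρ : Rep1 Γ N ℓ} {γ : Γ} {z : Fin N → Om ℓ} {f : ℚ_[ℓ][X]}

theorem LogAt.tor (h : LogAt ρ γ z f) {M : ℕ} (hM : 0 < M) :
    (∀ (m : ℕ) (φ : Tensor ℚ_[ℓ] (∀ _ : Unit, Fin N → ℚ_[ℓ]) m),
      (∀ v, φ (fun l => grp (sumRep ρ γ ^ M) (sumRep ρ γ⁻¹ ^ M) (v l)) = φ v) →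
      KillsTensor (lin (aeval (matRep ρ γ) f)) φ) ∧
    ∀ W : Submodule ℚ_[ℓ] (∀ _ : Unit, Fin N → ℚ_[ℓ]),
      (∀ x ∈ W, (sumRep ρ γ ^ M) x ∈ W) → ∀ x ∈ W, lin (aeval (matRep ρ γ) f) x ∈ W := by
  have h1 : lin (aeval (matRep ρ γ) f) = aeval (sumRep ρ γ) f := by
    rw [lin_aeval, sumRep_eq]
  rw [h1]
  refine tor_mem (C := Om ℓ) (by rw [← map_mul, mul_inv_cancel, map_one])
    (by rw [← map_mul, inv_mul_cancel, map_one]) z h.zinj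
    (by rw [finrank_uu, Fintype.card_fin]) (fun i => ?_) f (fun n hn => ?_) hM
  · rw [sumRep_eq, charpoly_lin]
    exact h.zroot i
  · have h2 : n ∈ relations z := ⟨1, one_pos, by rw [pow_one]; exact hn⟩
    rw [← h.rel] at h2
    exact h2

theorem LogAt.mem (h : LogAt ρ γ z f)
    {𝔤 : Submodule ℚ_[ℓ] (End ℚ_[ℓ] (∀ _ : Unit, Fin N → ℚ_[ℓ]))} (h𝔤 : IsMotivic ρ 𝔤) :
    lin (aeval (matRep ρ γ) f) ∈ 𝔤 := by
  refine h𝔤.algebraic _ fun m φ hφ => ?_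
  obtain ⟨Δ, hΔ, hfix⟩ := h𝔤.tate m φ hφ
  obtain ⟨M, hM, -, hMΔ⟩ := Subgroup.exists_pow_mem_of_index_ne_zero hΔ.index_ne_zero γ
  refine (h.tor hM).1 m φ fun v => ?_
  rw [← map_pow, ← map_pow, inv_pow]
  exact hfix _ hMΔ v

theorem LogAt.stab (h : LogAt ρ γ z f) {Δ : Subgroup Γ} (hΔ : Δ.FiniteIndex)
    {W : Submodule ℚ_[ℓ] (∀ _ : Unit, Fin N → ℚ_[ℓ])}
    (hW : ∀ δ ∈ Δ, ∀ x ∈ W, sumRep ρ δ x ∈ W) :
    ∀ x ∈ W, lin (aeval (matRep ρ γ) f) x ∈ W := by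
  obtain ⟨M, hM, -, hMΔ⟩ := Subgroup.exists_pow_mem_of_index_ne_zero hΔ.index_ne_zero γ
  refine (h.tor hM).2 W fun x hx => ?_
  rw [← map_pow]
  exact hW _ hMΔ x hx

/-- comparison of two logarithms -/
theorem LogAt.compare {γ₀ γ₁ : Γ} {z₀ z₁ : Fin N → Om ℓ} {f₀ f₁ : ℚ_[ℓ][X]}
    (h₀ : LogAt ρ γ₀ z₀ f₀) (h₁ : LogAt ρ γ₁ z₁ f₁)
    {𝔤 : Submodule ℚ_[ℓ] (End ℚ_[ℓ] (∀ _ : Unit, Fin N → ℚ_[ℓ]))} (h𝔤 : IsMotivic ρ 𝔤)
    {r : ℕ} (hr : RankAtMost 𝔤 r) (hr₀ : RankR r (relations z₀)) (hr₁ : RankR r (relations z₁))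
    (W : Submodule ℚ_[ℓ] (∀ _ : Unit, Fin N → ℚ_[ℓ]))
    (hW₀ : ∀ x ∈ W, lin (aeval (matRep ρ γ₀) f₀) x ∈ W)
    (hW₁ : ∀ x ∈ W, lin (aeval (matRep ρ γ₁) f₁) x ∈ W) :
    ∃ π : Equiv.Perm (Fin N), (∀ n, n ∈ relations z₁ ↔ (fun i => n (π i)) ∈ relations z₀) ∧
      ∀ i, aeval (aeval (z₁ (π i)) f₁) ((lin (aeval (matRep ρ γ₁) f₁)).restrict hW₁).charpoly = 0 ↔
        aeval (aeval (z₀ i) f₀) ((lin (aeval (matRep ρ γ₀) f₀)).restrict hW₀).charpoly = 0 := by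
  have hy₁ := h₁.rel ▸ hr₁
  obtain ⟨c₁, hc₁⟩ := hy₁.indep
  obtain ⟨x, hxinj, hxroot, hxrel, hxW⟩ := pencil (Ω := Om ℓ) 𝔤 h𝔤.bracket
    (fun X hX => h𝔤.algebraic X hX) hr (h₀.mem h𝔤) (h₁.mem h𝔤) W hW₀ hW₁
    (fun i => aeval (z₀ i) f₀) h₀.yinj (by rw [finrank_uu, Fintype.card_fin])
    (fun i => by rw [charpoly_lin]; exact h₀.yroot i) (by rw [charpoly_lin]; exact h₁.sep)
    (h₀.rel ▸ hr₀).indep ⟨fun j => aeval (z₁ (c₁ j)) f₁,
      fun j => by rw [charpoly_lin]; exact h₁.yroot _, hc₁⟩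
  have hex : ∀ i, ∃ j, aeval (z₁ j) f₁ = x i := fun i =>
    (sep_of_roots (Matrix.charpoly_monic _) (by
      rw [Matrix.charpoly_natDegree_eq_dim, Fintype.card_fin]) h₁.yinj h₁.yroot).2 (x i) (by
        have h2 := hxroot i
        rwa [charpoly_lin] at h2)
  obtain ⟨π, hπ⟩ := exists_equiv hxinj hex rfl
  refine ⟨π, fun n => ?_, fun i => ?_⟩
  · rw [← h₁.rel, ← h₀.rel, mem_lrel_perm π n]
    have h2 : (fun i => aeval (z₁ (π i)) f₁) = x := funext hπ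
    rw [h2]
    exact hxrel _
  · rw [hπ]
    exact hxW i

end

section exist

variable {N ℓ : ℕ} [Fact ℓ.Prime] {Γ : Type} [Group Γ] [TopologicalSpace Γ]
  [IsTopologicalGroup Γ] [CompactSpace Γ]

theorem exists_log (ρ : Rep1 Γ N ℓ) (hρ : Conts ρ) {G : Type} [Group G] (s : G →* Γ) (σ : G)
    (hsep : (matRep ρ (s σ)).charpoly.Separable) (hdist : DistPow ℓ (matRep ρ (s σ)).charpoly)
    {z : Fin N → Om ℓ} (hinj : Injective z)
    (hz : ∀ i, aeval (z i) (matRep ρ (s σ)).charpoly = 0) :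
    ∃ f, LogAt ρ (s σ) z f ∧
      IsTangent ℓ ((matRep ρ).comp s) (aeval (matRep ρ (s σ)) f) := by
  obtain ⟨⟨U, hU, hnear⟩, hpow⟩ := Pool.Agent.Y497.ZO.pow ℓ N Γ (matRep ρ) (hρ ())
  obtain ⟨m, hm, hmU⟩ := hpow U hU (s σ)
  have hn : Near ℓ (matRep ρ (s σ ^ m)) := hnear _ hmU
  rw [map_pow] at hn
  obtain ⟨T, f, hf, hT, hTsep, h1, h2, -, h4⟩ := logr (matRep ρ (s σ)) m hm hn hsep hdist
  refine ⟨f, ⟨hinj, hz, ?_, ?_, ?_, h4 z hz⟩, ?_⟩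
  · intro i j hij
    exact hinj (h2 _ _ (hz i) (hz j) hij)
  · intro i
    rw [hf]
    exact h1 _ (hz i)
  · rw [hf]
    exact hTsep
  · rw [hf]
    have h5 : ((matRep ρ).comp s) (σ ^ m) = matRep ρ (s σ) ^ m := by
      rw [map_pow]
      rfl
    refine Pool.Agent.Y497.ZO.aj_tangent ((matRep ρ).comp s) (σ ^ m) T ?_
    rw [h5]
    exact hT

end exist

end Pool.Agent.R931.ZL
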