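import Mathlib
import Pool.Agent.R931.ZL.Loc
import Pool.Agent.Y518.SS.Krs
import Pool.Agent.Y737.SS.Chara

/-!
# Elements near the exponential of a logarithm
-/

set_option autoImplicit false
set_option linter.unusedSectionVars false

namespace Pool.Agent.R931.ZL

open Function Polynomial Module Pool.Agent.TH118.SG Pool.Agent.Y114.RM
  Pool.Agent.Y114.MU Pool.Agent.Y114.TF Pool.Agent.Y114.GF Pool.Agent.H204R3.GP Pool.Agent.R931.GD
  Pool.Agent.Y142.ZO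
open Pool.Agent.Y142.ZD (DistPow)
open Pool.Agent.Y497.ZO (Mt Aj)
open Pool.Agent.Y936.SS (Om)

variable {N ℓ : ℕ} [Fact ℓ.Prime] {Γ : Type} [Group Γ] [TopologicalSpace Γ]
  [IsTopologicalGroup Γ] [CompactSpace Γ]

theorem norm_aut (τ : Om ℓ ≃ₐ[ℚ_[ℓ]] Om ℓ) (x : Om ℓ) : ‖τ x‖ = ‖x‖ :=
  (spectralNorm_eq_of_equiv τ x).symm

theorem local_step (hN : 0 < N) (ρ : Rep1 Γ N ℓ) (hρ : Conts ρ) {G : Type} [Group G] (s : G →* Γ)
    (σ : G) {𝔤 : Submodule ℚ_[ℓ] (End ℚ_[ℓ] (∀ _ : Unit, Fin N → ℚ_[ℓ]))} (h𝔤 : IsMotivic ρ 𝔤)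
    {r : ℕ} (hr : RankAtMost 𝔤 r)
    (hsep : (matRep ρ (s σ)).charpoly.Separable) (hdist : DistPow ℓ (matRep ρ (s σ)).charpoly)
    {z₀ : Fin N → Om ℓ} (hinj : Injective z₀)
    (hz₀ : ∀ i, aeval (z₀ i) (matRep ρ (s σ)).charpoly = 0) (hr₀ : RankR r (relations z₀))
    (E : Finset (Fin N → ℤ)) (hE : ∀ n ∈ E, n ∉ relations z₀) :
    ∃ (T : Mt ℓ N) (δ : ℝ) (k₀ : ℕ), IsTangent ℓ ((matRep ρ).comp s) T ∧ 0 < δ ∧
      ∀ (k : ℕ) (γ : Γ), k₀ ≤ k →
        (∀ a b, ‖((((ℓ : ℚ_[ℓ]) ^ k)⁻¹ • (matRep ρ γ - 1)) - T) a b‖ < δ) →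
        (matRep ρ γ).charpoly.Separable ∧ DistPow ℓ (matRep ρ γ).charpoly ∧
        ∃ z : Fin N → Om ℓ, Injective z ∧ (∀ i, aeval (z i) (matRep ρ γ).charpoly = 0) ∧
          (∀ n ∈ E, n ∉ relations z) ∧
          (∀ (τ : Om ℓ ≃ₐ[ℚ_[ℓ]] Om ℓ) i j, τ (z₀ i) = z₀ j → τ (z i) = z j) ∧
          (RankR r (relations z) → relations z = relations z₀) := by
  classical
  obtain ⟨f₀, h₀, htan⟩ := exists_log ρ hρ s σ hsep hdist hinj hz₀
  set T : Mt ℓ N := aeval (matRep ρ (s σ)) f₀ with hT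
  set y : Fin N → Om ℓ := fun i => aeval (z₀ i) f₀ with hy
  obtain ⟨E', hE'1, hE'2⟩ := exists_witnesses (relations z₀)
  obtain ⟨ε₁, hε₁, hrad⟩ := exists_radius_add y (E ∪ E') (by
    intro n hn
    rw [hy, h₀.rel]
    rcases Finset.mem_union.1 hn with h | h
    · exact hE n h
    · exact hE'1 n h)
  obtain ⟨ε₂, hε₂, hmin⟩ : ∃ ε₂ : ℝ, 0 < ε₂ ∧ ∀ i j, i ≠ j → ε₂ ≤ ‖y i - y j‖ := by
    have hne : Nonempty (Fin N) := ⟨⟨0, hN⟩⟩
    let F : Fin N × Fin N → ℝ := fun q => if q.1 = q.2 then 1 else ‖y q.1 - y q.2‖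
    refine ⟨Finset.univ.inf' Finset.univ_nonempty F, ?_, fun i j hij => ?_⟩
    · rw [Finset.lt_inf'_iff]
      rintro ⟨i, j⟩ -
      simp only [F]
      split_ifs with h
      · exact one_pos
      · rw [norm_pos_iff, sub_ne_zero]
        exact fun h' => h (h₀.yinj h')
    · refine (Finset.inf'_le _ (Finset.mem_univ (i, j))).trans ?_
      simp only [F, if_neg hij]
      exact le_rfl
  obtain ⟨δ₁, k₁, hδ₁, hA⟩ := stepA T y h₀.yroot (ε := min ε₁ ε₂) (by positivity)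
    (fun i j hij => (min_le_right _ _).trans (hmin i j hij))
  obtain ⟨ε₃, k₂, hε₃, hkr⟩ := Pool.Agent.Y518.SS.t ℓ T.charpoly (Matrix.charpoly_monic _) h₀.sep
  obtain ⟨δ₂, k₃, hδ₂, hch⟩ := Pool.Agent.Y737.SS.Chara.t ℓ N hN T ε₃ hε₃
  refine ⟨T, min δ₁ δ₂, k₁ + k₂ + k₃, htan, by positivity, fun k γ hk hclose => ?_⟩
  have h1 := hch k (matRep ρ γ) (by omega) fun a b => (hclose a b).trans_le (min_le_right _ _)
  obtain ⟨hsep', hdist', -⟩ := hkr k (matRep ρ γ).charpoly (by omega) (Matrix.charpoly_monic _)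
    (by rw [Matrix.charpoly_natDegree_eq_dim, Matrix.charpoly_natDegree_eq_dim]) h1
  obtain ⟨f, z, hzinj, hzroot, hyinj, hyroot, hsepT, hrel, hnear⟩ := hA k (matRep ρ γ) (by omega)
    (fun a b => (hclose a b).trans_le (min_le_left _ _)) hsep' hdist'
  have hlog : LogAt ρ γ z f := ⟨hzinj, hzroot, hyinj, hyroot, hsepT, hrel⟩
  have hviol := hrad (fun i => aeval (z i) f) fun i => (hnear i).trans_le (min_le_left _ _)
  refine ⟨hsep', hdist', z, hzinj, hzroot, fun n hn => ?_, fun τ i j hij => ?_, fun hrk => ?_⟩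
  · rw [← hrel]
    exact hviol n (Finset.mem_union_left _ hn)
  · have h2 : aeval (τ (z i)) (matRep ρ γ).charpoly = 0 := by
      have h3 := congrArg τ (hzroot i)
      rw [map_zero, ← AlgEquiv.coe_toAlgHom, ← Polynomial.aeval_algHom_apply] at h3
      exact h3
    obtain ⟨l, hl⟩ := (sep_of_roots (Matrix.charpoly_monic _) (by
      rw [Matrix.charpoly_natDegree_eq_dim, Fintype.card_fin]) hzinj hzroot).2 _ h2
    rw [← hl]
    congr 1
    by_contra hne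
    have h3 : aeval (z l) f = τ (aeval (z i) f) := by
      rw [hl]
      exact Polynomial.aeval_algHom_apply (τ : Om ℓ →ₐ[ℚ_[ℓ]] Om ℓ) (z i) f
    have h4 : τ (y i) = y j := by
      rw [hy]
      simp only
      rw [← hij]
      exact (Polynomial.aeval_algHom_apply (τ : Om ℓ →ₐ[ℚ_[ℓ]] Om ℓ) (z₀ i) f₀).symm
    have h5 : ‖y l - y j‖ < min ε₁ ε₂ := by
      have h6 : y l - y j = -(aeval (z l) f - y l) + τ (aeval (z i) f - y i) := by
        rw [map_sub, h4, h3]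
        ring
      rw [h6]
      refine (IsUltrametricDist.norm_add_le_max _ _).trans_lt (max_lt ?_ ?_)
      · rw [norm_neg]
        exact hnear l
      · rw [norm_aut]
        exact hnear i
    exact absurd (hmin l j hne) (not_le.2 (h5.trans_le (min_le_right _ _)))
  · obtain ⟨π, hπ, -⟩ := h₀.compare hlog h𝔤 hr hr₀ hrk ⊥
      (fun x hx => by rw [(Submodule.mem_bot _).1 hx, map_zero]; exact Submodule.zero_mem _)
      (fun x hx => by rw [(Submodule.mem_bot _).1 hx, map_zero]; exact Submodule.zero_mem _)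
    refine hE'2 π (relations z) hπ fun n hn => ?_
    rw [← hrel]
    exact hviol n (Finset.mem_union_right _ hn)

end Pool.Agent.R931.ZL
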