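import Mathlib
import Pool.Agent.R931.ZL.Real
import Pool.Agent.Y142.SI.Core

/-!
# New places with prescribed action on the roots, preserving the relations
-/

set_option autoImplicit false
set_option linter.unusedSectionVars false

namespace Pool.Agent.R931.ZL

open Function Polynomial Module NumberField IsDedekindDomain Pool.Agent.TH118.SG
  Pool.Agent.Y114.RM Pool.Agent.Y114.MU Pool.Agent.Y114.TF Pool.Agent.Y114.GF
  Pool.Agent.H204R3.GP Pool.Agent.R931.GD Pool.Agent.Y142.ZO Pool.Agent.Y142.ZI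
  Pool.Agent.Y142.SS
open Pool.Agent.Y142.ZD (DistPow dist_of_nice)
open Pool.Agent.Y142.ZS (NiceP nice_of_p)
open Pool.Agent.Y936.SS (Om)

section orderings

variable {N : ℕ}

theorem mem_mrel_comp_perm {F I : Type} [Field F] [Fintype I] {z : I → F} (π : Equiv.Perm I)
    (n : I → ℤ) : n ∈ relations (fun i => z (π i)) ↔ (fun i => n (π.symm i)) ∈ relations z := by
  have h1 : (fun i => n (π.symm (π i))) = n := by
    funext i
    rw [Equiv.symm_apply_apply]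
  have h2 := mem_mrel_perm (z := z) π (fun i => n (π.symm i))
  simp only [Equiv.symm_apply_apply] at h2
  exact h2.symm

theorem exhaust {Q : ℚ[X]} (hQ : Q ≠ 0) (hdeg : Q.natDegree = N) {x : Fin N → QQ}
    (hinj : Injective x) (hx : ∀ i, aeval (x i) Q = 0) {y : QQ} (hy : aeval y Q = 0) :
    ∃ i, x i = y := by
  classical
  have h1 : Set.range x ⊆ Q.rootSet QQ := by
    rintro _ ⟨i, rfl⟩
    exact mem_rootSet.2 ⟨hQ, hx i⟩
  have hcard : (Set.range x).ncard = N := by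
    rw [← Set.image_univ, Set.ncard_image_of_injective _ hinj, Set.ncard_univ,
      Nat.card_eq_fintype_card, Fintype.card_fin]
  have hle : (Q.rootSet QQ).ncard ≤ N := (Polynomial.ncard_rootSet_le _ _).trans hdeg.le
  have heq : Set.range x = Q.rootSet QQ :=
    Set.eq_of_subset_of_ncard_le h1 (by rw [hcard]; exact hle) (Polynomial.rootSet_finite _ _)
  have h2 : y ∈ Q.rootSet QQ := mem_rootSet.2 ⟨hQ, hy⟩
  rw [← heq] at h2
  exact h2

theorem exists_ordering' {Q : ℚ[X]} (hdeg : Q.natDegree = N) (hsep : Q.Separable) :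
    ∃ x : Fin N → QQ, Injective x ∧ ∀ i, aeval (x i) Q = 0 := by
  classical
  have h1 : Fintype.card (Q.rootSet QQ) = N := by
    rw [card_rootSet_eq_natDegree hsep (IsAlgClosed.splits _), hdeg]
  let e := Fintype.equivFinOfCardEq h1
  refine ⟨fun i => (e.symm i : QQ), fun i j hij => e.symm.injective (Subtype.ext hij), fun i => ?_⟩
  exact (mem_rootSet.1 (e.symm i).2).2

/-- `σ` acts on the roots of `Q₂` as on the roots of `Q₁`, for orderings with the same relations -/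
def RelTrans (N : ℕ) (Q₁ Q₂ : ℚ[X]) (σ : GK ℚ) : Prop :=
  ∀ x : Fin N → QQ, Injective x → (∀ i, aeval (x i) Q₁ = 0) → ∃ x' : Fin N → QQ, Injective x' ∧
    (∀ i, aeval (x' i) Q₂ = 0) ∧ relations x' = relations x ∧ ∀ i j, σ (x i) = x j → σ (x' i) = x' j

theorem relTrans_of {Q₁ Q₂ : ℚ[X]} (hQ : Q₁ ≠ 0) (hdeg : Q₁.natDegree = N) {σ : GK ℚ}
    {x x' : Fin N → QQ} (hinj : Injective x) (hx : ∀ i, aeval (x i) Q₁ = 0)
    (hinj' : Injective x') (hx' : ∀ i, aeval (x' i) Q₂ = 0) (hrel : relations x' = relations x)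
    (hσ : ∀ i j, σ (x i) = x j → σ (x' i) = x' j) : RelTrans N Q₁ Q₂ σ := by
  intro w hwinj hw
  obtain ⟨π, hπ⟩ := exists_equiv hwinj (u := x) (fun i => exhaust hQ hdeg hinj hx (hw i)) rfl
  have hw' : (fun i => x (π i)) = w := funext hπ
  refine ⟨fun i => x' (π i), hinj'.comp π.injective, fun i => hx' _, ?_, fun i j hij => ?_⟩
  · ext n
    rw [← hw', mem_mrel_comp_perm, mem_mrel_comp_perm, hrel]
  · rw [← hπ, ← hπ] at hij
    exact hσ _ _ hij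

theorem fix_of_relTrans {Q₁ Q₂ : ℚ[X]} (hdeg : Q₁.natDegree = N) (hsep : Q₁.Separable)
    (hQ₂ : Q₂ ≠ 0) (hdeg₂ : Q₂.natDegree = N) {σ : GK ℚ} (h : RelTrans N Q₁ Q₂ σ)
    (hσ : ∀ x : QQ, aeval x Q₁ = 0 → σ x = x) : σ ∈ Fix Q₂ := by
  obtain ⟨x, hinj, hx⟩ := exists_ordering' hdeg hsep
  obtain ⟨x', hinj', hx', -, h1⟩ := h x hinj hx
  intro y hy
  obtain ⟨i, rfl⟩ := exhaust hQ₂ hdeg₂ hinj' hx' hy
  exact h1 i i (hσ _ (hx i))

end orderings

section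

variable {K : Type} [Field K] [NumberField K] {Γ : Type} [Group Γ] [TopologicalSpace Γ]
  [IsTopologicalGroup Γ] [CompactSpace Γ] {s : Gal(AlgebraicClosure K/K) →* Γ} {N : ℕ} {wt : ℤ}
  {c r : ℕ} {S : Set (HeightOneSpectrum (𝓞 K))} {P : HeightOneSpectrum (𝓞 K) → ℚ[X]}
  {ρ : ∀ (ℓ : ℕ) [Fact ℓ.Prime], Rep1 Γ N ℓ} {𝔤 : ∀ (ℓ : ℕ) [Fact ℓ.Prime], End1 N ℓ}

/-- new places with prescribed Galois action -/
theorem key_rel (h : Setup K Γ s N wt c r S P ρ 𝔤) (hLOC : S_LOC) (I : Type) [Finite I]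
    [Nonempty I] (u : I → HeightOneSpectrum (𝓞 K)) (hu : ∀ i, GoodPl S P r (u i))
    (g : I → GK ℚ) (M : IntermediateField ℚ QQ) (hM : FiniteDimensional ℚ M) :
    ∃ v, GoodPl S P r v ∧ ∀ i, ∃ σ : GK ℚ, (∀ x ∈ M, σ x = g i x) ∧
      (∀ x : QQ, aeval x (P (u i)) = 0 → σ x = g i x) ∧ RelTrans N (P (u i)) (P v) σ := by
  classical
  let _ : Fintype I := Fintype.ofFinite I
  have := hM
  have hex : ∀ (i : I) (b : ℕ), ∃ ℓ : ℕ, b < ℓ ∧ ∃ _ : Fact ℓ.Prime,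
      ∃ (ι : QQ →+* AlgebraicClosure ℚ_[ℓ])
      (τ : AlgebraicClosure ℚ_[ℓ] ≃ₐ[ℚ_[ℓ]] AlgebraicClosure ℚ_[ℓ]) (σ : GK ℚ),
      (∀ x : QQ, τ (ι x) = ι (σ x)) ∧ (∀ x ∈ M, σ x = g i x) ∧
        ∀ x : QQ, aeval x (P (u i)) = 0 → σ x = g i x := by
    intro i b
    have := Lf_finite (P (u i))
    obtain ⟨ℓ, hℓ, hp, ι, τ, σ, -, h1, h2⟩ := hLOC (M ⊔ Lf (P (u i)))
      (IntermediateField.finiteDimensional_sup M (Lf (P (u i)))) (g i) b
    exact ⟨ℓ, hℓ, hp, ι, τ, σ, h1, fun x hx => h2 x ((le_sup_left : M ≤ M ⊔ Lf (P (u i))) hx),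
      fun x hx => h2 x ((le_sup_right : Lf (P (u i)) ≤ M ⊔ Lf (P (u i)))
        (mem_Lf (hu i).1.2.1.ne_zero hx))⟩
  obtain ⟨p, hpinj, hpi⟩ := exists_inj _ hex (Finset.univ.sup fun i => Ideal.absNorm (u i).asIdeal)
  choose hpb hpp ι τ σ hτ hσM hσP using hpi
  have : ∀ i, Fact (p i).Prime := hpp
  have hpu : ∀ i, ¬ Above (u i) (p i) := fun i => not_mem_of_lt _ (hpp i).out
    ((Finset.le_sup (f := fun i => Ideal.absNorm (u i).asIdeal) (Finset.mem_univ i)).trans_lt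
      (hpb i))
  -- orderings of the roots
  have hord : ∀ i, ∃ x : Fin N → QQ, Injective x ∧ ∀ a, aeval (x a) (P (u i)) = 0 := fun i =>
    exists_ordering' (h.monic (hu i).1.1).2 (hu i).1.2.2.1
  choose x hxinj hx using hord
  choose fr hfr using fun i => Pool.Agent.W401.Frob.exists_frob (u i)
  have hchar : ∀ i, (matRep (ρ (p i)) (s (fr i)⁻¹)).charpoly =
      (P (u i)).map (algebraMap ℚ ℚ_[p i]) := fun i => h.frob (p i) (hu i).1.1 (hpu i) (hfr i)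
  have hx0 : ∀ i a, x i a ≠ 0 := fun i a => h.ne_zero (hu i).1.1 (hx i a)
  obtain ⟨v, hv, -, hz⟩ := realize h I p hpinj (fun i => (fr i)⁻¹)
    (fun i => by rw [hchar]; exact (hu i).1.2.2.1.map)
    (fun i => by rw [hchar]; exact dist_of_nice (hu i).1 (p i))
    (fun i a => ι i (x i a)) (fun i => (ι i).injective.comp (hxinj i))
    (fun i a => by rw [hchar]; exact push_root (p i) (ι i) (hx i a))
    (fun i => by
      rw [mrel_map]
      exact rank_of_indep (hu i).1.2.1.ne_zero (x i)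
        (fun y hy => exhaust (hu i).1.2.1.ne_zero (h.monic (hu i).1.1).2 (hxinj i) (hx i) hy)
        (hx0 i) (hu i).2)
  refine ⟨v, hv, fun i => ⟨σ i, hσM i, hσP i, ?_⟩⟩
  obtain ⟨z, hzinj, hzroot, hzrel, hzτ⟩ := hz i
  have hlift : ∀ a, ∃ y : QQ, aeval y (P v) = 0 ∧ ι i y = z a := fun a =>
    lift_root (p i) (ι i) hv.1.2.1.ne_zero (hzroot a)
  choose x' hx' hxz using hlift
  have hxz' : (fun a => ι i (x' a)) = z := funext hxz
  refine relTrans_of (hu i).1.2.1.ne_zero (h.monic (hu i).1.1).2 (hxinj i) (hx i)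
    (x' := x') ?_ hx' ?_ ?_
  · intro a b hab
    apply hzinj
    rw [← hxz, ← hxz, hab]
  · rw [← mrel_map (ι i) x', hxz', hzrel, mrel_map]
  · intro a b hab
    apply (ι i).injective
    rw [hxz, ← hτ, hxz]
    apply hzτ
    rw [hτ, hab]

/-- a class of pairs `(g, Q)` which depends only on the action of `g` on the roots of `Q` and on
the relations -/
structure IsClassR (N : ℕ) (Φ : ℚ[X] → Set (GK ℚ)) : Prop where
  conj : ∀ (Q : ℚ[X]) (g h : GK ℚ), g ∈ Φ Q → h * g * h⁻¹ ∈ Φ Q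
  mul : ∀ (Q : ℚ[X]) (g t : GK ℚ), g ∈ Φ Q → t ∈ Fix Q → g * t ∈ Φ Q
  trans : ∀ (Q₁ Q₂ : ℚ[X]) (σ : GK ℚ), RelTrans N Q₁ Q₂ σ → σ ∈ Φ Q₁ → σ ∈ Φ Q₂

/-- new places whose splitting fields are as independent as possible, with a given class -/
theorem key3R (h : Setup K Γ s N wt c r S P ρ 𝔤) (hLOC : S_LOC) (hINT : S_INT)
    {v₁ : HeightOneSpectrum (𝓞 K)} (hv₁ : GoodPl S P r v₁) (w : GK ℚ)
    (M : IntermediateField ℚ QQ) (hM : FiniteDimensional ℚ M) :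
    ∃ (v : HeightOneSpectrum (𝓞 K)) (Q : ℚ[X]), GoodPl S P r v ∧ M ≤ Lf Q ∧
      (∀ a ∈ Subgroup.closure (⋃ u : {u // GoodPl S P r u}, Fix (P u)), ∃ t ∈ Fix (P v),
        ∀ x ∈ Lf Q, t x = a x) ∧
      ∃ σ : GK ℚ, (∀ x ∈ Lf Q, σ x = w x) ∧
        (∀ x : QQ, aeval x (P v₁) = 0 → σ x = w x) ∧ RelTrans N (P v₁) (P v) σ := by
  classical
  obtain ⟨f, hf, hMf, -⟩ := hINT M hM
  set Q : ℚ[X] := f.map (Int.castRingHom ℚ) with hQ
  have hQ0 : Q ≠ 0 := (hf.map _).ne_zero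
  have hMQ : M ≤ Lf Q := by
    refine hMf.trans ?_
    rw [IntermediateField.adjoin_le_iff]
    intro x hx
    refine mem_Lf hQ0 ?_
    rw [hQ, show (Int.castRingHom ℚ) = algebraMap ℤ ℚ from rfl, aeval_map_algebraMap]
    exact hx
  have hfin : FiniteDimensional ℚ (Lf Q) := Lf_finite Q
  have : Finite (GK ℚ ⧸ fixSub (Lf Q)) :=
    Subgroup.quotient_finite_of_isOpen _ (fixSub_open _ hfin)
  let I : Type := {c : GK ℚ ⧸ fixSub (Lf Q) // ∃ u : {u // GoodPl S P r u}, ∃ a ∈ Fix (P u),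
    (QuotientGroup.mk a : GK ℚ ⧸ fixSub (Lf Q)) = c}
  have : Finite I := Subtype.finite
  have hI : ∀ c : I, ∃ u : {u // GoodPl S P r u}, ∃ a ∈ Fix (P u),
      (QuotientGroup.mk a : GK ℚ ⧸ fixSub (Lf Q)) = c.1 := fun c => c.2
  choose idx el hel1 hel2 using hI
  obtain ⟨v, hv, hσ⟩ := key_rel h hLOC (I ⊕ Unit)
    (Sum.elim (fun c => (idx c : HeightOneSpectrum (𝓞 K))) fun _ => v₁)
    (by rintro (c | j); exacts [(idx c).2, hv₁])
    (Sum.elim el fun _ => w) (Lf Q) hfin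
  have hdeg := h.monic hv.1.1
  refine ⟨v, Q, hv, hMQ, fun a ha => ?_, hσ (Sum.inr ())⟩
  refine Subgroup.closure_induction (p := fun a _ => ∃ t ∈ Fix (P v), ∀ x ∈ Lf Q, t x = a x)
    ?_ ?_ ?_ ?_ ha
  · intro a ha
    obtain ⟨u, hu⟩ := Set.mem_iUnion.1 ha
    let c : I := ⟨QuotientGroup.mk a, u, a, hu, rfl⟩
    obtain ⟨σ, h1, h2, h3⟩ := hσ (Sum.inl c)
    simp only [Sum.elim_inl] at h1 h2 h3
    have hidx := h.monic (idx c).2.1.1
    refine ⟨σ, fix_of_relTrans hidx.2 (idx c).2.1.2.2.1 hdeg.1.ne_zero hdeg.2 h3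
      fun x hx => (h2 x hx).trans (hel1 c x hx), fun x hx => ?_⟩
    rw [h1 x hx]
    have h4 : (QuotientGroup.mk (el c) : GK ℚ ⧸ fixSub (Lf Q)) = QuotientGroup.mk a := hel2 c
    rw [eq_comm, QuotientGroup.eq] at h4
    have h5 := mem_fixSub.1 h4 x hx
    have h6 := congrArg a h5
    rw [← AlgEquiv.mul_apply, mul_inv_cancel_left] at h6
    exact h6
  · exact ⟨1, fun x _ => rfl, fun x _ => rfl⟩
  · rintro a b - - ⟨t, ht, hta⟩ ⟨t', ht', htb⟩
    refine ⟨t * t', fun x hx => ?_, fun x hx => ?_⟩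
    · rw [AlgEquiv.mul_apply, ht' x hx, ht x hx]
    · rw [AlgEquiv.mul_apply, AlgEquiv.mul_apply, htb x hx, hta _ (stable_Lf Q b hx)]
  · rintro a - ⟨t, ht, hta⟩
    refine ⟨t⁻¹, fun x hx => ?_, fun x hx => ?_⟩
    · have h1 := congrArg (t⁻¹ : GK ℚ) (ht x hx)
      rw [← AlgEquiv.mul_apply, inv_mul_cancel, AlgEquiv.one_apply] at h1
      exact h1.symm
    · have h1 := hta (a⁻¹ x) (stable_Lf Q a⁻¹ hx)
      rw [← AlgEquiv.mul_apply a, mul_inv_cancel, AlgEquiv.one_apply] at h1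
      have h2 := congrArg (t⁻¹ : GK ℚ) h1
      rw [← AlgEquiv.mul_apply, inv_mul_cancel, AlgEquiv.one_apply] at h2
      exact h2.symm

/-- the zero-one law for a class -/
theorem densityR (h : Setup K Γ s N wt c r S P ρ 𝔤) (hLOC : S_LOC) (hINT : S_INT)
    (hDENS2 : S_DENS2)
    (htop : Subgroup.closure (⋃ u : {u // GoodPl S P r u}, Fix (P u)) = ⊤)
    {Φ : ℚ[X] → Set (GK ℚ)} (hΦ : IsClassR N Φ) {v₁ : HeightOneSpectrum (𝓞 K)}
    (hv₁ : GoodPl S P r v₁) {w : GK ℚ} (hw : w ∈ Φ (P v₁)) (Bad : Set ℕ)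
    (hBad : ∀ ℓ ∈ Bad, ℓ.Prime)
    (hbad : ∀ v, GoodPl S P r v → ∃ b : ℕ, ∀ ℓ ∈ Bad, b < ℓ → ∀ σ, FrobAt ℓ σ → σ ∉ Φ (P v)) :
    Pool.Agent.Y142.ZI.DensityZero Bad := by
  classical
  refine hDENS2 Bad N.factorial hBad fun M hM => ?_
  obtain ⟨v, Q, hv, hMQ, hfix, σ, h1, h2, h3⟩ := key3R h hLOC hINT hv₁ w M hM
  obtain ⟨b, hb⟩ := hbad v hv
  have hdeg := (h.monic hv.1.1).2
  refine ⟨Lf (P v), Φ (P v), Lf_finite _, Lf_normal _, ?_, fun g hg h => hΦ.conj _ g h hg,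
    fun g hg t ht => hΦ.mul _ g t hg fun x hx => ht x (mem_Lf hv.1.2.1.ne_zero hx), ?_, b,
    fun ℓ hℓ hbℓ σ hσ => hb ℓ hℓ hbℓ σ hσ⟩
  · have h1 := Lf_finrank hv.1.2.2.1
    rwa [hdeg] at h1
  · intro g
    obtain ⟨t, ht, hta⟩ := hfix (σ⁻¹ * g) (by rw [htop]; exact Subgroup.mem_top _)
    have hσΦ : σ ∈ Φ (P v) := by
      refine hΦ.trans _ _ _ h3 ?_
      have e : σ = w * (w⁻¹ * σ) := by group
      rw [e]
      refine hΦ.mul _ _ _ hw fun x hx => ?_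
      rw [AlgEquiv.mul_apply, h2 x hx, ← AlgEquiv.mul_apply, inv_mul_cancel, AlgEquiv.one_apply]
    refine ⟨g⁻¹ * (σ * t), fun x hx => ?_, ?_⟩
    · rw [AlgEquiv.mul_apply, AlgEquiv.mul_apply, hta x (hMQ hx), ← AlgEquiv.mul_apply σ,
        mul_inv_cancel_left, ← AlgEquiv.mul_apply, inv_mul_cancel, AlgEquiv.one_apply]
    · rw [mul_inv_cancel_left]
      exact hΦ.mul _ _ _ hσΦ ht

end

end Pool.Agent.R931.ZL
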