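import Mathlib
import Pool.Agent.R931.ZL.Key

/-!
# Jordan's theorem, and the automorphisms of a set of relations
-/

set_option autoImplicit false
set_option linter.unusedSectionVars false

namespace Pool.Agent.R931.ZL

open Function

/-- A subgroup of a finite group which meets all conjugacy classes is the whole group. -/
theorem jordan {G : Type} [Group G] [Finite G] (H : Subgroup G)
    (h : ∀ g : G, ∃ x : G, x⁻¹ * g * x ∈ H) : H = ⊤ := by
  classical
  let _ : Fintype G := Fintype.ofFinite G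
  let _ : Fintype (Quotient (MulAction.orbitRel G (G ⧸ H))) := Fintype.ofFinite _
  have h1 := MulAction.sum_card_fixedBy_eq_card_orbits_mul_card_group (G := G) (X := G ⧸ H)
  have h2 : Fintype.card (Quotient (MulAction.orbitRel G (G ⧸ H))) = 1 := by
    have h3 : Subsingleton (Quotient (MulAction.orbitRel G (G ⧸ H))) :=
      (MulAction.pretransitive_iff_subsingleton_quotient G (G ⧸ H)).1 inferInstance
    have h4 : Nonempty (Quotient (MulAction.orbitRel G (G ⧸ H))) :=
      ⟨Quotient.mk _ (QuotientGroup.mk 1)⟩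
    exact Fintype.card_eq_one_iff_nonempty_unique.2 ⟨⟨⟨Classical.choice h4⟩, fun a =>
      Subsingleton.elim _ _⟩⟩
  rw [h2, one_mul] at h1
  have h3 : ∀ g : G, 1 ≤ Fintype.card (MulAction.fixedBy (G ⧸ H) g) := by
    intro g
    obtain ⟨x, hx⟩ := h g
    refine Fintype.card_pos_iff.2 ⟨⟨QuotientGroup.mk x, ?_⟩⟩
    rw [MulAction.mem_fixedBy]
    change (QuotientGroup.mk (g * x) : G ⧸ H) = QuotientGroup.mk x
    rw [eq_comm, QuotientGroup.eq, ← mul_assoc]
    exact hx
  have h4 : Fintype.card (MulAction.fixedBy (G ⧸ H) (1 : G)) = 1 := by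
    by_contra hne
    have h5 : ∑ _g : G, 1 < ∑ g : G, Fintype.card (MulAction.fixedBy (G ⧸ H) g) := by
      refine Finset.sum_lt_sum (fun g _ => h3 g) ⟨1, Finset.mem_univ 1, ?_⟩
      exact lt_of_le_of_ne (h3 1) (Ne.symm hne)
    rw [h1, Finset.sum_const, smul_eq_mul, mul_one, Finset.card_univ] at h5
    exact lt_irrefl _ h5
  have h5 : Subsingleton (MulAction.fixedBy (G ⧸ H) (1 : G)) :=
    Fintype.card_le_one_iff_subsingleton.1 h4.le
  rw [eq_top_iff]
  intro g _
  have h6 : ∀ y : G ⧸ H, y ∈ MulAction.fixedBy (G ⧸ H) (1 : G) := fun y => by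
    rw [MulAction.mem_fixedBy, one_smul]
  have h7 : (QuotientGroup.mk g : G ⧸ H) = QuotientGroup.mk 1 :=
    congrArg Subtype.val (h5.elim ⟨QuotientGroup.mk g, h6 _⟩ ⟨QuotientGroup.mk 1, h6 _⟩)
  rw [eq_comm, QuotientGroup.eq, inv_one, one_mul] at h7
  exact h7

section aut

variable {I : Type}

theorem mem_autR {R : Set (I → ℤ)} {π : Equiv.Perm I} :
    π ∈ relAut R ↔ ∀ n : I → ℤ, (fun i => n (π i)) ∈ R ↔ n ∈ R := Iff.rfl

theorem mem_autR_of [Fintype I] {F : Type} [Field F] {z : I → F} {R : Set (I → ℤ)}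
    {π : Equiv.Perm I} (h1 : relations z = R) (h2 : relations (fun i => z (π i)) = R) : π ∈ relAut R := by
  intro n
  conv_rhs => rw [← h1, mem_mrel_perm π, h2]

theorem invGen_self [Finite I] (A : Subgroup (Equiv.Perm I)) :
    GeneratesInvariably A (A : Set (Equiv.Perm I)) := by
  intro H hH h
  have h1 : H.subgroupOf A = ⊤ := jordan _ fun a => by
    obtain ⟨x, hx, h2⟩ := h a a.2
    exact ⟨⟨x, hx⟩, Subgroup.mem_subgroupOf.2 h2⟩
  exact le_antisymm hH (Subgroup.subgroupOf_eq_top.1 h1)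

/-- If all elements of `T` have conjugates in `A` under which `D` is stable, then `D` is stable
under `A`. -/
theorem stable_of_conj (A : Subgroup (Equiv.Perm I)) {T : Set (Equiv.Perm I)}
    (hT : GeneratesInvariably A T) (hTA : T ⊆ A) (D : Set I)
    (h : ∀ a ∈ T, ∃ π ∈ A, ∀ i, (π⁻¹ * a * π) i ∈ D ↔ i ∈ D) : ∀ a ∈ A, ∀ i, a i ∈ D ↔ i ∈ D := by
  let H : Subgroup (Equiv.Perm I) :=
    { carrier := {a | a ∈ A ∧ ∀ i, a i ∈ D ↔ i ∈ D}
      mul_mem' := fun {a b} ha hb => ⟨A.mul_mem ha.1 hb.1, fun i => by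
        change (a (b i)) ∈ D ↔ i ∈ D
        rw [ha.2, hb.2]⟩
      one_mem' := ⟨A.one_mem, fun i => Iff.rfl⟩
      inv_mem' := fun {a} ha => ⟨A.inv_mem ha.1, fun i => by
        have h1 := ha.2 (a⁻¹ i)
        have h2 : a (a⁻¹ i) = i := Equiv.apply_symm_apply a i
        rw [h2] at h1
        exact h1.symm⟩ }
  have hH : H = A := hT H (fun a ha => ha.1) fun a ha => by
    obtain ⟨π, hπ, h1⟩ := h a ha
    exact ⟨π, hπ, A.mul_mem (A.mul_mem (A.inv_mem hπ) (hTA ha)) hπ, h1⟩
  intro a ha i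
  have h1 : a ∈ H := by rw [hH]; exact ha
  exact h1.2 i

end aut

end Pool.Agent.R931.ZL
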