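import Mathlib
import Pool.Agent.R931.ZL.Jordan

/-!
# The splitting fields of the Frobenius polynomials have trivial intersection
-/

set_option autoImplicit false
set_option linter.unusedSectionVars false

namespace Pool.Agent.R931.ZL

open Function Polynomial Module NumberField IsDedekindDomain Pool.Agent.TH118.SG
  Pool.Agent.Y114.RM Pool.Agent.Y114.MU Pool.Agent.Y114.TF Pool.Agent.Y114.GF
  Pool.Agent.H204R3.GP Pool.Agent.R931.GD Pool.Agent.Y142.ZO Pool.Agent.Y142.ZI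
  Pool.Agent.Y142.SS
open Pool.Agent.Y142.ZD (DistPow dist_of_nice)
open Pool.Agent.Y142.ZS (NiceP nice_of_p)
open Pool.Agent.Y936.SS (Om)

theorem restrict_aut {ℓ : ℕ} [Fact ℓ.Prime] (ι : QQ →+* Om ℓ) (τ : Om ℓ ≃ₐ[ℚ_[ℓ]] Om ℓ) :
    ∃ σ : GK ℚ, ∀ x, τ (ι x) = ι (σ x) := by
  let _ : Algebra QQ (AlgebraicClosure ℚ_[ℓ]) := ι.toAlgebra
  have htow : IsScalarTower ℚ QQ (AlgebraicClosure ℚ_[ℓ]) :=
    IsScalarTower.of_algebraMap_eq fun q => by
      rw [eq_ratCast, eq_ratCast, map_ratCast]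
  let χ : AlgebraicClosure ℚ_[ℓ] ≃ₐ[ℚ] AlgebraicClosure ℚ_[ℓ] :=
    AlgEquiv.ofRingEquiv (f := τ.toRingEquiv) fun q => by
      rw [eq_ratCast, map_ratCast]
  have hnorm : Normal ℚ QQ := by
    have h1 : (DivisionRing.toRatAlgebra : Algebra ℚ QQ) = AlgebraicClosure.instAlgebra ℚ :=
      Subsingleton.elim _ _
    rw [h1]
    exact @IsAlgClosure.normal ℚ QQ _ _ (AlgebraicClosure.instAlgebra ℚ) _
  let σ : GK ℚ := χ.restrictNormal QQ
  have hσ : ∀ x : QQ, ι (σ x) = τ (ι x) := fun x => χ.restrictNormal_commutes QQ x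
  exact ⟨σ, fun x => (hσ x).symm⟩

/-- `g` acts on the roots of `Q` by the permutation `a`, for an ordering with the relations `R` -/
def Typ {N : ℕ} (R : Set (Fin N → ℤ)) (a : Equiv.Perm (Fin N)) (Q : ℚ[X]) : Set (GK ℚ) :=
  {g | ∃ x : Fin N → QQ, Injective x ∧ (∀ i, aeval (x i) Q = 0) ∧ relations x = R ∧
    ∀ i, g (x i) = x (a i)}

theorem typ_isClass {N : ℕ} (R : Set (Fin N → ℤ)) (a : Equiv.Perm (Fin N)) :
    IsClassR N (Typ R a) where
  conj := by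
    rintro Q g h ⟨x, hinj, hx, hR, hg⟩
    refine ⟨fun i => h (x i), h.injective.comp hinj, fun i => aeval_aut _ (hx i), ?_, fun i => ?_⟩
    · rw [← hR]
      exact mrel_map (h : QQ ≃ₐ[ℚ] QQ).toRingEquiv.toRingHom x
    · rw [AlgEquiv.mul_apply, AlgEquiv.mul_apply, ← AlgEquiv.mul_apply h⁻¹, inv_mul_cancel,
        AlgEquiv.one_apply, hg]
  mul := by
    rintro Q g t ⟨x, hinj, hx, hR, hg⟩ ht
    exact ⟨x, hinj, hx, hR, fun i => by rw [AlgEquiv.mul_apply, ht _ (hx i), hg]⟩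
  trans := by
    rintro Q₁ Q₂ σ h ⟨x, hinj, hx, hR, hg⟩
    obtain ⟨x', hinj', hx', hR', h1⟩ := h x hinj hx
    exact ⟨x', hinj', hx', hR'.trans hR, fun i => h1 _ _ (hg i)⟩

section

variable {K : Type} [Field K] [NumberField K] {Γ : Type} [Group Γ] [TopologicalSpace Γ]
  [IsTopologicalGroup Γ] [CompactSpace Γ] {s : Gal(AlgebraicClosure K/K) →* Γ} {N : ℕ} {wt : ℤ}
  {c r : ℕ} {S : Set (HeightOneSpectrum (𝓞 K))} {P : HeightOneSpectrum (𝓞 K) → ℚ[X]}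
  {ρ : ∀ (ℓ : ℕ) [Fact ℓ.Prime], Rep1 Γ N ℓ} {𝔤 : ∀ (ℓ : ℕ) [Fact ℓ.Prime], End1 N ℓ}

theorem closure_top (h : Setup K Γ s N wt c r S P ρ 𝔤) (hLOC : S_LOC) (R : Set (Fin N → ℤ))
    {J : Type} [Finite J] {T : J → Set (Equiv.Perm (Fin N))} (hne : ∃ j, (T j).Nonempty)
    (hT : GeneratesInvariably (relAut R) (⋃ j, T j)) (hT' : SeparatedModulo (relAut R) T)
    (σ₀ : J → GK ℚ) (hσ₀ : ∀ j, ∀ a ∈ T j, ∃ v, GoodPl S P r v ∧ σ₀ j ∈ Typ R a (P v)) :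
    Subgroup.closure (⋃ u : {u // GoodPl S P r u}, Fix (P u)) = ⊤ := by
  classical
  set 𝒞 := Subgroup.closure (⋃ u : {u // GoodPl S P r u}, Fix (P u)) with h𝒞
  have hmem : ∀ v, GoodPl S P r v → ∀ g ∈ Fix (P v), g ∈ 𝒞 := fun v hv g hg =>
    Subgroup.subset_closure (Set.mem_iUnion.2 ⟨⟨v, hv⟩, hg⟩)
  have hconj : ∀ g : GK ℚ, ∀ d ∈ 𝒞, g * d * g⁻¹ ∈ 𝒞 := by
    intro g d hd
    refine Subgroup.closure_induction (p := fun d _ => g * d * g⁻¹ ∈ 𝒞) ?_ ?_ ?_ ?_ hd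
    · intro d hd
      obtain ⟨u, hu⟩ := Set.mem_iUnion.1 hd
      exact hmem u.1 u.2 _ (fix_conj hu g)
    · rw [mul_one, mul_inv_cancel]
      exact 𝒞.one_mem
    · intro a b _ _ ha hb
      have h1 := 𝒞.mul_mem ha hb
      have h2 : g * a * g⁻¹ * (g * b * g⁻¹) = g * (a * b) * g⁻¹ := by group
      rwa [h2] at h1
    · intro a _ ha
      have h1 := 𝒞.inv_mem ha
      have h2 : (g * a * g⁻¹)⁻¹ = g * a⁻¹ * g⁻¹ := by group
      rwa [h2] at h1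
  let T' : Type := Σ j, T j
  have hT'fin : Finite T' := inferInstanceAs (Finite (Σ j, T j))
  obtain ⟨j₀, b₀, hb₀⟩ := hne
  let a₀ : T' := ⟨j₀, b₀, hb₀⟩
  have : Nonempty T' := ⟨a₀⟩
  choose u hu x hinj hx hR hg using fun a : T' => hσ₀ a.1 a.2 a.2.2
  have hdeg := fun a => h.monic (hu a).1.1
  let M : IntermediateField ℚ QQ := Lf (P (u a₀))
  obtain ⟨v, hv, hσ⟩ := key_rel h hLOC T' u hu (fun a => σ₀ a.1) M (Lf_finite _)
  have hdv := h.monic hv.1.1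
  have h1 : ∀ a : T', ∃ σ : GK ℚ, (σ₀ a.1)⁻¹ * σ ∈ 𝒞 ∧ σ ∈ Typ R a.2 (P v) := by
    intro a
    obtain ⟨σ, hM, hσP, hrel⟩ := hσ a
    refine ⟨σ, ?_, (typ_isClass R (a.2 : Equiv.Perm (Fin N))).trans _ _ _ hrel
      ⟨x a, hinj a, hx a, hR a, fun i => ?_⟩⟩
    · refine hmem _ (hu a₀) _ fun y hy => ?_
      rw [AlgEquiv.mul_apply, hM y (mem_Lf (hdeg a₀).1.ne_zero hy), ← AlgEquiv.mul_apply,
        inv_mul_cancel, AlgEquiv.one_apply]
    · rw [hσP _ (hx a i)]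
      exact hg a i
  choose σ hσ𝒞 y hyinj hy hyR hyσ using h1
  have hperm : ∀ w : Fin N → QQ, Injective w → (∀ i, aeval (w i) (P v) = 0) → relations w = R →
      ∃ π ∈ relAut R, ∀ i, y a₀ (π i) = w i := by
    intro w hwinj hw hwR
    obtain ⟨π, hπ⟩ := exists_equiv hwinj (u := y a₀)
      (fun i => exhaust hdv.1.ne_zero hdv.2 (hyinj a₀) (hy a₀) (hw i)) rfl
    refine ⟨π, mem_autR_of (hyR a₀) ?_, hπ⟩
    rw [show (fun i => y a₀ (π i)) = w from funext hπ, hwR]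
  have hact : ∀ g : GK ℚ, ∃ π ∈ relAut R, ∀ i, g (y a₀ i) = y a₀ (π i) := by
    intro g
    obtain ⟨π, hπ, h2⟩ := hperm (fun i => g (y a₀ i)) (g.injective.comp (hyinj a₀))
      (fun i => aeval_aut _ (hy a₀ i))
      ((mrel_map (g : QQ ≃ₐ[ℚ] QQ).toRingEquiv.toRingHom (y a₀)).trans (hyR a₀))
    exact ⟨π, hπ, fun i => (h2 i).symm⟩
  -- the action on the roots of `P v`, restricted to a subgroup
  let im : Subgroup (GK ℚ) → Subgroup (Equiv.Perm (Fin N)) := fun 𝒟 =>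
    { carrier := {a | a ∈ relAut R ∧ ∃ d ∈ 𝒟, ∀ i, d (y a₀ i) = y a₀ (a i)}
      mul_mem' := by
        rintro a b ⟨ha, d, hd, hda⟩ ⟨hb, e, he, heb⟩
        refine ⟨(relAut R).mul_mem ha hb, d * e, 𝒟.mul_mem hd he, fun i => ?_⟩
        rw [AlgEquiv.mul_apply, heb, hda]
        rfl
      one_mem' := ⟨(relAut R).one_mem, 1, 𝒟.one_mem, fun i => rfl⟩
      inv_mem' := by
        rintro a ⟨ha, d, hd, hda⟩
        refine ⟨(relAut R).inv_mem ha, d⁻¹, 𝒟.inv_mem hd, fun i => ?_⟩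
        have h2 := hda (a⁻¹ i)
        have h3 : a (a⁻¹ i) = i := Equiv.apply_symm_apply a i
        rw [h3] at h2
        have h4 := congrArg (d⁻¹ : GK ℚ) h2
        rw [← AlgEquiv.mul_apply, inv_mul_cancel, AlgEquiv.one_apply] at h4
        exact h4.symm }
  -- the permutations `π a * a * (π a)⁻¹`
  have hπ : ∀ a : T', ∃ π ∈ relAut R, ∀ i, (σ a) (y a₀ i) = y a₀ ((π * a.2 * π⁻¹) i) := by
    intro a
    obtain ⟨π, hπ, h2⟩ := hperm (y a) (hyinj a) (hy a) (hyR a)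
    refine ⟨π, hπ, fun i => ?_⟩
    have h3 : π (π⁻¹ i) = i := Equiv.apply_symm_apply π i
    have h4 := hyσ a (π⁻¹ i)
    rw [← h2, ← h2, h3] at h4
    exact h4
  choose π hπA hπσ using hπ
  have hTA : ∀ a : T', (a.2 : Equiv.Perm (Fin N)) ∈ relAut R := by
    intro a
    refine mem_autR_of (hyR a) ?_
    have h2 : (fun i => y a ((a.2 : Equiv.Perm (Fin N)) i)) = fun i => (σ a) (y a i) :=
      funext fun i => (hyσ a i).symm
    rw [h2]
    exact (mrel_map (σ a : QQ ≃ₐ[ℚ] QQ).toRingEquiv.toRingHom (y a)).trans (hyR a)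
  have hG : im ⊤ = relAut R := hT (im ⊤) (fun a ha => ha.1) fun a ha => by
    obtain ⟨j, hj⟩ := Set.mem_iUnion.1 ha
    let a' : T' := ⟨j, a, hj⟩
    refine ⟨(π a')⁻¹, (relAut R).inv_mem (hπA _), ?_, σ a', Subgroup.mem_top _, fun i => ?_⟩
    · rw [inv_inv]
      exact (relAut R).mul_mem ((relAut R).mul_mem (hπA _) (hTA a')) ((relAut R).inv_mem (hπA _))
    · rw [inv_inv]
      exact hπσ a' i
  have hH : im 𝒞 = relAut R := by
    refine hT' (im 𝒞) (fun a ha => ha.1) ?_ ?_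
    · rintro x hx a ⟨ha, d, hd, hda⟩
      rw [← hG] at hx
      obtain ⟨hx, g, -, hgx⟩ := hx
      refine ⟨(relAut R).mul_mem ((relAut R).mul_mem hx ha) ((relAut R).inv_mem hx), g * d * g⁻¹,
        hconj g d hd, fun i => ?_⟩
      have h3 : x (x⁻¹ i) = i := Equiv.apply_symm_apply x i
      have h2 := hgx (x⁻¹ i)
      rw [h3] at h2
      have h4 := congrArg (g⁻¹ : GK ℚ) h2
      rw [← AlgEquiv.mul_apply, inv_mul_cancel, AlgEquiv.one_apply] at h4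
      rw [AlgEquiv.mul_apply, AlgEquiv.mul_apply, ← h4, hda, hgx]
      rfl
    · intro j a ha b hb
      let a' : T' := ⟨j, a, ha⟩
      let b' : T' := ⟨j, b, hb⟩
      -- `σ a` and `σ b` agree modulo the closure
      have h2 : σ a' * (σ b')⁻¹ ∈ 𝒞 := by
        have h3 := 𝒞.mul_mem (hσ𝒞 a') (𝒞.inv_mem (hσ𝒞 b'))
        have h4 := hconj (σ₀ j) _ h3
        have h5 : σ₀ j * ((σ₀ j)⁻¹ * σ a' * ((σ₀ j)⁻¹ * σ b')⁻¹) * (σ₀ j)⁻¹ =
            σ a' * (σ b')⁻¹ := by group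
        rw [← h5]
        exact h4
      refine ⟨(π a')⁻¹ * π b', (relAut R).mul_mem ((relAut R).inv_mem (hπA a')) (hπA b'), ?_⟩
      have h6 : ((π a')⁻¹ * π b')⁻¹ * a * ((π a')⁻¹ * π b') * b⁻¹ =
          (π b')⁻¹ * ((π a' * a * (π a')⁻¹) * (π b' * b * (π b')⁻¹)⁻¹) * π b' := by group
      rw [h6]
      have h7 : (π a' * a * (π a')⁻¹) * (π b' * b * (π b')⁻¹)⁻¹ ∈ im 𝒞 := by
        have h8 : (π a' * a * (π a')⁻¹) ∈ relAut R :=
          (relAut R).mul_mem ((relAut R).mul_mem (hπA a') (hTA a')) ((relAut R).inv_mem (hπA a'))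
        have h9 : (π b' * b * (π b')⁻¹) ∈ relAut R :=
          (relAut R).mul_mem ((relAut R).mul_mem (hπA b') (hTA b')) ((relAut R).inv_mem (hπA b'))
        refine ⟨(relAut R).mul_mem h8 ((relAut R).inv_mem h9), _, h2, fun i => ?_⟩
        have h10 := hπσ b' ((π b' * b * (π b')⁻¹)⁻¹ i)
        have h11 : (π b' * b * (π b')⁻¹) ((π b' * b * (π b')⁻¹)⁻¹ i) = i :=
          Equiv.apply_symm_apply (π b' * b * (π b')⁻¹) i
        rw [show ((π b' * ↑b'.2 * (π b')⁻¹) ((π b' * b * (π b')⁻¹)⁻¹ i)) = i from h11] at h10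
        have h12 := congrArg ((σ b')⁻¹ : GK ℚ) h10
        rw [← AlgEquiv.mul_apply, inv_mul_cancel, AlgEquiv.one_apply] at h12
        rw [AlgEquiv.mul_apply, ← h12, hπσ a']
        rfl
      -- `im 𝒞` is normal
      obtain ⟨h13, d, hd, hda⟩ := h7
      have hx : (π b')⁻¹ ∈ im ⊤ := by rw [hG]; exact (relAut R).inv_mem (hπA b')
      obtain ⟨-, g, -, hgx⟩ := hx
      refine ⟨(relAut R).mul_mem ((relAut R).mul_mem ((relAut R).inv_mem (hπA b')) h13) (hπA b'),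
        g * d * g⁻¹, hconj g d hd, fun i => ?_⟩
      have h3 : (π b')⁻¹ (π b' i) = i := Equiv.symm_apply_apply (π b') i
      have h2 := hgx (π b' i)
      rw [h3] at h2
      have h4 := congrArg (g⁻¹ : GK ℚ) h2
      rw [← AlgEquiv.mul_apply, inv_mul_cancel, AlgEquiv.one_apply] at h4
      rw [AlgEquiv.mul_apply, AlgEquiv.mul_apply, ← h4, hda, hgx]
      rfl
  rw [eq_top_iff]
  intro g _
  obtain ⟨x, hx, h2⟩ := hact g
  rw [← hH] at hx
  obtain ⟨-, d, hd, hda⟩ := hx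
  have h4 : d⁻¹ * g ∈ 𝒞 := by
    refine hmem v hv _ fun w hw => ?_
    obtain ⟨i, rfl⟩ := exhaust hdv.1.ne_zero hdv.2 (hyinj a₀) (hy a₀) hw
    rw [AlgEquiv.mul_apply, h2 i]
    have h5 := congrArg (d⁻¹ : GK ℚ) (hda i)
    rw [← AlgEquiv.mul_apply, inv_mul_cancel, AlgEquiv.one_apply] at h5
    exact h5.symm
  have h5 := 𝒞.mul_mem hd h4
  rwa [mul_inv_cancel_left] at h5

end

end Pool.Agent.R931.ZL
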