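import Mathlib
import Pool.Agent.R931.ZL.Top

/-!
# Irreducibility from the types at a prime
-/

set_option autoImplicit false
set_option linter.unusedSectionVars false

namespace Pool.Agent.R931.ZL

open Function Polynomial Module NumberField IsDedekindDomain Pool.Agent.TH118.SG
  Pool.Agent.Y114.RM Pool.Agent.Y114.MU Pool.Agent.Y114.TF Pool.Agent.Y114.GF
  Pool.Agent.H204R3.GP Pool.Agent.R931.GD Pool.Agent.Y142.ZO Pool.Agent.Y142.ZI
  Pool.Agent.Y142.SS Pool.Agent.R931.BD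
open Pool.Agent.Y142.ZD (DistPow dist_of_nice)
open Pool.Agent.Y142.ZS (NiceP nice_of_p)
open Pool.Agent.Y936.SS (Om)

section charpoly

variable {k : Type} [Field k] {V : Type} [AddCommGroup V] [Module k V] [FiniteDimensional k V]

theorem charpoly_restrict_dvd (X : End k V) (W : Submodule k V) (hW : ∀ x ∈ W, X x ∈ W) :
    (X.restrict hW).charpoly ∣ X.charpoly := by
  obtain ⟨e, β, hβ⟩ := exists_adapted W
  obtain ⟨b₀, c₀⟩ := hβ X hW
  set M := LinearMap.toMatrix β β X with hM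
  have e₀ : M = Matrix.fromBlocks M.toBlocks₁₁ M.toBlocks₁₂ 0 M.toBlocks₂₂ := by
    rw [← b₀, Matrix.fromBlocks_toBlocks]
  have f₀ : X.charpoly = M.toBlocks₁₁.charpoly * M.toBlocks₂₂.charpoly := by
    rw [← LinearMap.charpoly_toMatrix X β, ← hM, e₀, Matrix.charpoly_fromBlocks_zero₂₁,
      Matrix.toBlocks_fromBlocks₁₁, Matrix.toBlocks_fromBlocks₂₂]
  rw [f₀, c₀]
  exact dvd_mul_right _ _

end charpoly

section

variable {K : Type} [Field K] [NumberField K] {Γ : Type} [Group Γ] [TopologicalSpace Γ]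
  [IsTopologicalGroup Γ] [CompactSpace Γ] {s : Gal(AlgebraicClosure K/K) →* Γ} {N : ℕ} {wt : ℤ}
  {c r : ℕ} {S : Set (HeightOneSpectrum (𝓞 K))} {P : HeightOneSpectrum (𝓞 K) → ℚ[X]}
  {ρ : ∀ (ℓ : ℕ) [Fact ℓ.Prime], Rep1 Γ N ℓ} {𝔤 : ∀ (ℓ : ℕ) [Fact ℓ.Prime], End1 N ℓ}

/-- the type `a` occurs at `ℓ` -/
def LocTyp (S : Set (HeightOneSpectrum (𝓞 K))) (P : HeightOneSpectrum (𝓞 K) → ℚ[X]) (r ℓ : ℕ)
    [Fact ℓ.Prime] (R : Set (Fin N → ℤ)) (a : Equiv.Perm (Fin N)) : Prop :=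
  ∃ v, GoodPl S P r v ∧ ¬ Above v ℓ ∧ ∃ (τ : Om ℓ ≃ₐ[ℚ_[ℓ]] Om ℓ) (z : Fin N → Om ℓ), Injective z ∧
    (∀ i, aeval (z i) ((P v).map (algebraMap ℚ ℚ_[ℓ])) = 0) ∧ relations z = R ∧ ∀ i, τ (z i) = z (a i)

/-- the Frobenius polynomial of a place splits over `ℚ_ℓ` -/
def SplTyp (S : Set (HeightOneSpectrum (𝓞 K))) (P : HeightOneSpectrum (𝓞 K) → ℚ[X]) (r ℓ : ℕ)
    [Fact ℓ.Prime] (R : Set (Fin N → ℤ)) : Prop :=
  ∃ v, GoodPl S P r v ∧ ¬ Above v ℓ ∧ ∃ x : Fin N → ℚ_[ℓ], Injective x ∧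
    (∀ i, aeval (x i) ((P v).map (algebraMap ℚ ℚ_[ℓ])) = 0) ∧ relations x = R

/-- the logarithms at good places -/
theorem Setup.log (h : Setup K Γ s N wt c r S P ρ 𝔤) (ℓ : ℕ) [Fact ℓ.Prime]
    {v : HeightOneSpectrum (𝓞 K)} (hv : GoodPl S P r v) (hvℓ : ¬ Above v ℓ) {z : Fin N → Om ℓ}
    (hinj : Injective z) (hz : ∀ i, aeval (z i) ((P v).map (algebraMap ℚ ℚ_[ℓ])) = 0) :
    ∃ (γ : Γ) (f : ℚ_[ℓ][X]), (matRep (ρ ℓ) γ).charpoly = (P v).map (algebraMap ℚ ℚ_[ℓ]) ∧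
      LogAt (ρ ℓ) γ z f ∧ RankR r (relations z) := by
  obtain ⟨σ, hσ⟩ := Pool.Agent.W401.Frob.exists_frob v
  have hchar := h.frob ℓ hv.1.1 hvℓ hσ
  obtain ⟨f, hf, -⟩ := exists_log (ρ ℓ) (h.cont ℓ) s σ⁻¹ (by rw [hchar]; exact hv.1.2.2.1.map)
    (by rw [hchar]; exact dist_of_nice hv.1 ℓ) hinj (fun i => by rw [hchar]; exact hz i)
  refine ⟨s σ⁻¹, f, hchar, hf, ?_⟩
  obtain ⟨ι⟩ := emb ℓ
  have hlift : ∀ a, ∃ y : QQ, aeval y (P v) = 0 ∧ ι y = z a := fun a =>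
    lift_root ℓ ι hv.1.2.1.ne_zero (hz a)
  choose x hx hxz using hlift
  have hxz' : (fun a => ι (x a)) = z := funext hxz
  have hxinj : Injective x := fun a b hab => hinj (by rw [← hxz, ← hxz, hab])
  rw [← hxz', mrel_map]
  exact rank_of_indep hv.1.2.1.ne_zero x
    (fun y hy => exhaust hv.1.2.1.ne_zero (h.monic hv.1.1).2 hxinj hx hy)
    (fun a => h.ne_zero hv.1.1 (hx a)) hv.2

theorem local_irr (h : Setup K Γ s N wt c r S P ρ 𝔤) (ℓ : ℕ) [Fact ℓ.Prime]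
    (R : Set (Fin N → ℤ)) (htrans : ∀ i j, ∃ a ∈ relAut R, a i = j)
    {T : Set (Equiv.Perm (Fin N))} (hne : T.Nonempty) (hT : GeneratesInvariably (relAut R) T) (hTA : T ⊆ relAut R)
    (hloc : ∀ a ∈ T, LocTyp S P r ℓ R a) {Δ : Subgroup Γ} (hΔ : Δ.FiniteIndex)
    {W : Submodule ℚ_[ℓ] (∀ _ : Unit, Fin N → ℚ_[ℓ])}
    (hW : ∀ δ ∈ Δ, ∀ x ∈ W, sumRep (ρ ℓ) δ x ∈ W) : W = ⊥ ∨ W = ⊤ := by
  classical
  obtain ⟨a₀, ha₀⟩ := hne
  obtain ⟨v₁, hv₁, hv₁ℓ, τ₁, z₁, hz₁inj, hz₁, hz₁R, -⟩ := hloc a₀ ha₀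
  obtain ⟨γ₁, f₁, hc₁, hl₁, hr₁⟩ := h.log ℓ hv₁ hv₁ℓ hz₁inj hz₁
  have hW₁ := hl₁.stab hΔ hW
  let D : Set (Fin N) := {i | aeval (aeval (z₁ i) f₁)
    ((lin (aeval (matRep (ρ ℓ) γ₁) f₁)).restrict hW₁).charpoly = 0}
  have hD : ∀ a ∈ relAut R, ∀ i, a i ∈ D ↔ i ∈ D := by
    refine stable_of_conj (relAut R) hT hTA D fun a ha => ?_
    obtain ⟨v, hv, hvℓ, τ, z, hzinj, hz, hzR, hτ⟩ := hloc a ha
    obtain ⟨γ, f, hc, hl, hr⟩ := h.log ℓ hv hvℓ hzinj hz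
    have hWa := hl.stab hΔ hW
    obtain ⟨π, hπ, hlab⟩ := hl₁.compare hl (h.motivic ℓ) (h.rank ℓ) hr₁ hr W hW₁ hWa
    have hπA : π ∈ relAut R := by
      intro n
      rw [← hz₁R, ← hπ n, hzR, hz₁R]
    refine ⟨π, hπA, fun i => ?_⟩
    have hlab' : ∀ i, i ∈ D ↔ aeval (aeval (z (π i)) f)
        ((lin (aeval (matRep (ρ ℓ) γ) f)).restrict hWa).charpoly = 0 := fun i => (hlab i).symm
    have hπ' : π ((π⁻¹ * a * π) i) = a (π i) := Equiv.apply_symm_apply π (a (π i))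
    rw [hlab' i, hlab', hπ', ← hτ (π i)]
    have h1 : aeval (τ (z (π i))) f = τ (aeval (z (π i)) f) :=
      Polynomial.aeval_algHom_apply (τ : Om ℓ →ₐ[ℚ_[ℓ]] Om ℓ) (z (π i)) f
    have h2 : ∀ (x : Om ℓ) (Q : ℚ_[ℓ][X]), aeval (τ x) Q = τ (aeval x Q) := fun x Q =>
      Polynomial.aeval_algHom_apply (τ : Om ℓ →ₐ[ℚ_[ℓ]] Om ℓ) x Q
    rw [h1, h2, map_eq_zero_iff _ τ.injective]
  have hX₁ : (lin (aeval (matRep (ρ ℓ) γ₁) f₁)).charpoly =
      (aeval (matRep (ρ ℓ) γ₁) f₁).charpoly := charpoly_lin _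
  by_cases hne : ∃ i, i ∈ D
  · right
    obtain ⟨i, hi⟩ := hne
    have hall : ∀ j, j ∈ D := by
      intro j
      obtain ⟨a, ha, rfl⟩ := htrans i j
      exact (hD a ha i).2 hi
    set Q := ((lin (aeval (matRep (ρ ℓ) γ₁) f₁)).restrict hW₁).charpoly with hQ
    have hQ0 : Q ≠ 0 := (LinearMap.charpoly_monic _).ne_zero
    have h1 : Set.range (fun i => aeval (z₁ i) f₁) ⊆ Q.rootSet (Om ℓ) := by
      rintro _ ⟨j, rfl⟩
      exact mem_rootSet.2 ⟨hQ0, hall j⟩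
    have hcard : (Set.range (fun i => aeval (z₁ i) f₁)).ncard = N := by
      rw [← Set.image_univ, Set.ncard_image_of_injective _ hl₁.yinj, Set.ncard_univ,
        Nat.card_eq_fintype_card, Fintype.card_fin]
    have h2 : N ≤ finrank ℚ_[ℓ] W := by
      refine hcard.symm.le.trans ?_
      refine (Set.ncard_le_ncard h1 (Polynomial.rootSet_finite _ _)).trans ?_
      refine (Polynomial.ncard_rootSet_le _ _).trans ?_
      rw [hQ, LinearMap.charpoly_natDegree]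
    apply Submodule.eq_top_of_finrank_eq
    refine le_antisymm (Submodule.finrank_le W) ?_
    rw [finrank_uu]
    exact h2
  · left
    by_contra hWne
    apply hne
    set Q := ((lin (aeval (matRep (ρ ℓ) γ₁) f₁)).restrict hW₁).charpoly with hQ
    have hdeg : Q.natDegree ≠ 0 := by
      rw [hQ, LinearMap.charpoly_natDegree]
      intro h0
      exact hWne (Submodule.finrank_eq_zero.1 h0)
    have hdeg' : (Q.map (algebraMap ℚ_[ℓ] (Om ℓ))).degree ≠ 0 := by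
      rw [degree_map]
      intro h0
      exact hdeg (natDegree_eq_of_degree_eq_some h0)
    obtain ⟨y, hy⟩ := IsAlgClosed.exists_root _ hdeg'
    rw [IsRoot.def, eval_map_algebraMap] at hy
    have hy2 : aeval y (aeval (matRep (ρ ℓ) γ₁) f₁).charpoly = 0 := by
      rw [← hX₁]
      exact aeval_eq_zero_of_dvd_aeval_eq_zero (charpoly_restrict_dvd _ W hW₁) hy
    obtain ⟨i, hi⟩ := (sep_of_roots (Matrix.charpoly_monic _) (by
      rw [Matrix.charpoly_natDegree_eq_dim, Fintype.card_fin]) hl₁.yinj hl₁.yroot).2 y hy2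
    exact ⟨i, by
      change aeval (aeval (z₁ i) f₁) Q = 0
      rw [show aeval (z₁ i) f₁ = y from hi]
      exact hy⟩

theorem local_endos (h : Setup K Γ s N wt c r S P ρ 𝔤) (ℓ : ℕ) [Fact ℓ.Prime]
    (R : Set (Fin N → ℤ)) (htrans : ∀ i j, ∃ a ∈ relAut R, a i = j)
    {T : Set (Equiv.Perm (Fin N))} (hne : T.Nonempty) (hT : GeneratesInvariably (relAut R) T) (hTA : T ⊆ relAut R)
    (hspl : SplTyp S P r ℓ R) (hloc : ∀ a ∈ T, LocTyp S P r ℓ R a) :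
    EndosFixed (sumRep (ρ ℓ))
      (show Submodule ℚ_[ℓ] (End ℚ_[ℓ] (∀ _ : Unit, Fin N → ℚ_[ℓ])) from 𝔤 ℓ) := by
  rintro Y ⟨Δ, hΔ, hY⟩ X hX
  obtain ⟨v, hv, hvℓ, x, hxinj, hx, hxR⟩ := hspl
  obtain ⟨σ, hσ⟩ := Pool.Agent.W401.Frob.exists_frob v
  have hchar := h.frob ℓ hv.1.1 hvℓ hσ
  set γ : Γ := s σ⁻¹ with hγ
  set G : End ℚ_[ℓ] (∀ _ : Unit, Fin N → ℚ_[ℓ]) := sumRep (ρ ℓ) γ with hG
  have hGchar : G.charpoly = (P v).map (algebraMap ℚ ℚ_[ℓ]) := by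
    rw [hG, sumRep_eq, charpoly_lin, hchar]
  have hcardN : Fintype.card (Fin N) = finrank ℚ_[ℓ] (∀ _ : Unit, Fin N → ℚ_[ℓ]) := by
    rw [finrank_uu, Fintype.card_fin]
  obtain ⟨b, hb⟩ := exists_eigenbasis G x hxinj hcardN (fun i => by
    rw [Module.End.hasEigenvalue_iff_isRoot_charpoly, hGchar, IsRoot.def, ← coe_aeval_eq_eval]
    exact hx i)
  obtain ⟨M, hM, -, hMΔ⟩ := Subgroup.exists_pow_mem_of_index_ne_zero hΔ.index_ne_zero γ
  have hbM : ∀ i, (G ^ M) (b i) = x i ^ M • b i := by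
    intro i
    have h2 : ∀ j : ℕ, (G ^ j) (b i) = (x i) ^ j • b i := by
      intro j
      induction j with
      | zero => rw [pow_zero, pow_zero, one_smul, Module.End.one_apply]
      | succ j ih => rw [pow_succ', Module.End.mul_apply, ih, map_smul, hb, smul_smul, pow_succ]
    exact h2 M
  have hdistM : ∀ i j, x i ^ M = x j ^ M → i = j := by
    intro i j hij
    apply hxinj
    have h1 := dist_of_nice hv.1 ℓ M (algebraMap ℚ_[ℓ] (AlgebraicClosure ℚ_[ℓ]) (x i))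
      (algebraMap ℚ_[ℓ] (AlgebraicClosure ℚ_[ℓ]) (x j)) hM
      (by rw [aeval_algebraMap_apply, hx, map_zero]) (by rw [aeval_algebraMap_apply, hx, map_zero])
      (by rw [← map_pow, hij, map_pow])
    exact (algebraMap ℚ_[ℓ] (AlgebraicClosure ℚ_[ℓ])).injective h1
  have hYM : (G ^ M) * Y = Y * (G ^ M) := by
    have h1 := hY _ hMΔ
    rw [map_pow] at h1
    exact h1
  -- `Y` is diagonal
  have hYb : ∀ i, ∃ lam : ℚ_[ℓ], Y (b i) = lam • b i := by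
    intro i
    have h1 : (G ^ M) (Y (b i)) = x i ^ M • Y (b i) := by
      have h2 := LinearMap.congr_fun hYM (b i)
      rw [Module.End.mul_apply, Module.End.mul_apply, hbM, map_smul] at h2
      exact h2
    refine ⟨b.repr (Y (b i)) i, ?_⟩
    have h2 : ∀ j, j ≠ i → b.repr (Y (b i)) j = 0 := by
      intro j hj
      have h3 : Y (b i) ∈ (G ^ M).maxGenEigenspace (x i ^ M) :=
        mem_gen.2 ⟨1, by
          rw [pow_one, LinearMap.sub_apply, Module.algebraMap_end_apply, h1, sub_self]⟩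
      rcases gen_eq b hbM h3 j with h4 | h4
      · exact h4
      · exact absurd (hdistM j i h4) hj
    conv_lhs => rw [← b.sum_repr (Y (b i))]
    rw [Finset.sum_eq_single i]
    · intro j _ hj
      rw [h2 j hj, zero_smul]
    · intro hi
      exact absurd (Finset.mem_univ i) hi
  obtain ⟨lam, hlam⟩ := hYb ⟨0, h.pos⟩
  -- the eigenspace
  have hker : LinearMap.ker (Y - algebraMap ℚ_[ℓ] _ lam) = ⊤ := by
    refine (local_irr h ℓ R htrans hne hT hTA hloc hΔ (W := LinearMap.ker (Y - algebraMap ℚ_[ℓ] _ lam))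
      fun δ hδ w hw => ?_).resolve_left fun h0 => ?_
    · rw [LinearMap.mem_ker, LinearMap.sub_apply, Module.algebraMap_end_apply, sub_eq_zero] at hw ⊢
      have h2 := LinearMap.congr_fun (hY δ hδ) w
      rw [Module.End.mul_apply, Module.End.mul_apply] at h2
      rw [← h2, hw, map_smul]
    · have h1 : b ⟨0, h.pos⟩ ∈ LinearMap.ker (Y - algebraMap ℚ_[ℓ] _ lam) := by
        rw [LinearMap.mem_ker, LinearMap.sub_apply, Module.algebraMap_end_apply, hlam, sub_self]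
      rw [h0, Submodule.mem_bot] at h1
      exact b.ne_zero _ h1
  have hYs : Y = algebraMap ℚ_[ℓ] _ lam := by
    rw [LinearMap.ker_eq_top, sub_eq_zero] at hker
    exact hker
  rw [hYs]
  exact (Algebra.commutes lam X).symm

end

end Pool.Agent.R931.ZL
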