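import Mathlib
import Pool.Agent.R931.ZL.Res
import Pool.Agent.Y114.RM.Semi

/-!
# Number fields of degree one
-/

set_option autoImplicit false

namespace Pool.Agent.R931.ZL

open NumberField IsDedekindDomain Pool.Agent.Y114.GF Pool.Agent.Y114.RM

variable {K : Type} [Field K] [NumberField K]

theorem asIdeal_eq_one (hK : Module.finrank ℚ K = 1) {p : ℕ} (hp : p.Prime)
    {v : HeightOneSpectrum (𝓞 K)} (hv : Above v p) : v.asIdeal = Ideal.span {(p : 𝓞 K)} := by
  have h1 : v.asIdeal ∣ Ideal.span {(p : 𝓞 K)} :=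
    Ideal.dvd_iff_le.2 ((Ideal.span_singleton_le_iff_mem _).2 hv)
  obtain ⟨J, hJ⟩ := h1
  have h2 := congrArg Ideal.absNorm hJ
  rw [map_mul, Ideal.absNorm_span_natCast, RingOfIntegers.rank, hK, pow_one] at h2
  have h3 : Ideal.absNorm v.asIdeal ≠ 1 := by
    rw [Ne, Ideal.absNorm_eq_one_iff]
    exact v.isPrime.ne_top
  have h4 : Ideal.absNorm J = 1 := by
    have h5 : Ideal.absNorm v.asIdeal ∣ p := ⟨_, h2⟩
    rcases (Nat.dvd_prime hp).1 h5 with h6 | h6
    · exact absurd h6 h3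
    · rw [h6] at h2
      have h7 : p * 1 = p * Ideal.absNorm J := by rw [mul_one]; exact h2
      exact (Nat.eq_of_mul_eq_mul_left hp.pos h7).symm
  rw [Ideal.absNorm_eq_one_iff] at h4
  rw [h4, Ideal.mul_top] at hJ
  exact hJ.symm

theorem above_iff_one (hK : Module.finrank ℚ K = 1) {p : ℕ} (hp : p.Prime)
    {v₀ : HeightOneSpectrum (𝓞 K)} (hv₀ : Above v₀ p) (v : HeightOneSpectrum (𝓞 K)) :
    Above v p ↔ v = v₀ := by
  refine ⟨fun h => ?_, fun h => h ▸ hv₀⟩
  apply HeightOneSpectrum.ext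
  rw [asIdeal_eq_one hK hp h, asIdeal_eq_one hK hp hv₀]

theorem unramified_one (hK : Module.finrank ℚ K = 1) {p : ℕ} (hp : p.Prime) :
    UnramifiedIn K p := by
  intro v hv h
  have h0 := asIdeal_eq_one hK hp hv
  have h1 : Ideal.span {(p : 𝓞 K)} ≤ v.asIdeal ^ 2 := (Ideal.span_singleton_le_iff_mem _).2 h
  have h2 := Ideal.absNorm_dvd_absNorm_of_le h1
  rw [map_pow, h0, Ideal.absNorm_span_natCast, RingOfIntegers.rank, hK, pow_one] at h2
  have h3 := Nat.le_of_dvd hp.pos h2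
  have h4 := hp.one_lt
  nlinarith

end Pool.Agent.R931.ZL
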