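import Mathlib
import Pool.Agent.R931.ZL.Local
import Pool.Agent.R931.ZL.One
import Pool.Agent.R931.GD.Final
import Pool.Agent.Y674.ZS.SPL

/-!
# The zero-one law
-/

set_option autoImplicit false
set_option linter.unusedSectionVars false
set_option linter.unusedVariables false

namespace Pool.Agent.R931.ZL

open Function Polynomial Module NumberField IsDedekindDomain Pool.Agent.TH118.SG
  Pool.Agent.Y114.RM Pool.Agent.Y114.MU Pool.Agent.Y114.TF Pool.Agent.Y114.GF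
  Pool.Agent.H204R3.GP Pool.Agent.R931.GD Pool.Agent.Y142.ZO Pool.Agent.Y142.ZI
  Pool.Agent.Y142.SS Pool.Agent.R931.BD
open Pool.Agent.Y142.ZD (DistPow dist_of_nice)
open Pool.Agent.Y142.ZS (NiceP nice_of_p S_SPL)
open Pool.Agent.Y936.SS (Om)

section

variable {K : Type} [Field K] [NumberField K] {Γ : Type} [Group Γ] [TopologicalSpace Γ]
  [IsTopologicalGroup Γ] [CompactSpace Γ] {s : Gal(AlgebraicClosure K/K) →* Γ} {N : ℕ} {wt : ℤ}
  {c r : ℕ} {S : Set (HeightOneSpectrum (𝓞 K))} {P : HeightOneSpectrum (𝓞 K) → ℚ[X]}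
  {ρ : ∀ (ℓ : ℕ) [Fact ℓ.Prime], Rep1 Γ N ℓ} {𝔤 : ∀ (ℓ : ℕ) [Fact ℓ.Prime], End1 N ℓ}

/-- the primes where a type does not occur have density zero -/
theorem density_typ (h : Setup K Γ s N wt c r S P ρ 𝔤) (hLOC : S_LOC) (hINT : S_INT)
    (hDENS2 : S_DENS2) (hCF : S_CF)
    (htop : Subgroup.closure (⋃ u : {u // GoodPl S P r u}, Fix (P u)) = ⊤)
    (R : Set (Fin N → ℤ)) (a : Equiv.Perm (Fin N)) {v₁ : HeightOneSpectrum (𝓞 K)}
    (hv₁ : GoodPl S P r v₁) {w : GK ℚ} (hw : w ∈ Typ R a (P v₁)) :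
    Pool.Agent.Y142.ZI.DensityZero {ℓ | ∃ _ : Fact ℓ.Prime, ¬ LocTyp S P r ℓ R a} := by
  refine densityR h hLOC hINT hDENS2 htop (typ_isClass R a) hv₁ hw _
    (fun ℓ hℓ => hℓ.1.out) fun v hv => ?_
  obtain ⟨b, hb⟩ := hCF (P v) (h.monic hv.1.1).1 hv.1.2.2.1
  refine ⟨max b (Ideal.absNorm v.asIdeal), ?_⟩
  rintro ℓ ⟨hp, hno⟩ hbℓ σ hσ hmem
  apply hno
  obtain ⟨ι, τ, σ', -, hτ, hσ'⟩ := hb ℓ ((le_max_left _ _).trans_lt hbℓ) hp σ hσ
  obtain ⟨x, hinj, hx, hR, hxa⟩ := hmem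
  refine ⟨v, hv, not_mem_of_lt v hp.out ((le_max_right _ _).trans_lt hbℓ), τ, fun i => ι (x i),
    ι.injective.comp hinj, fun i => push_root ℓ ι (hx i), ?_, fun i => ?_⟩
  · rw [mrel_map, hR]
  · rw [hτ, hσ' _ (hx i), hxa]

theorem density_spl (h : Setup K Γ s N wt c r S P ρ 𝔤) (hLOC : S_LOC) (hINT : S_INT)
    (hDENS2 : S_DENS2) (hSPL : S_SPL)
    (htop : Subgroup.closure (⋃ u : {u // GoodPl S P r u}, Fix (P u)) = ⊤)
    (R : Set (Fin N → ℤ)) {v₁ : HeightOneSpectrum (𝓞 K)}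
    (hv₁ : GoodPl S P r v₁) {w : GK ℚ} (hw : w ∈ Typ R 1 (P v₁)) :
    Pool.Agent.Y142.ZI.DensityZero {ℓ | ∃ _ : Fact ℓ.Prime, ¬ SplTyp (N := N) S P r ℓ R} := by
  refine densityR h hLOC hINT hDENS2 htop (typ_isClass R 1) hv₁ hw _
    (fun ℓ hℓ => hℓ.1.out) fun v hv => ?_
  obtain ⟨b, hb⟩ := hSPL (P v) (h.monic hv.1.1).1 hv.1.2.2.1
  refine ⟨max b (Ideal.absNorm v.asIdeal), ?_⟩
  rintro ℓ ⟨hp, hno⟩ hbℓ σ hσ hmem
  apply hno
  obtain ⟨x, hinj, hx, hR, hxa⟩ := hmem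
  have hfix : ∀ y : QQ, aeval y (P v) = 0 → σ y = y := by
    intro y hy
    obtain ⟨i, rfl⟩ := exhaust (h.monic hv.1.1).1.ne_zero (h.monic hv.1.1).2 hinj hx hy
    exact hxa i
  have hsplit := hb ℓ ((le_max_left _ _).trans_lt hbℓ) hp σ hσ hfix
  obtain ⟨ι⟩ := emb ℓ
  have hQ0 : (P v).map (algebraMap ℚ ℚ_[ℓ]) ≠ 0 := ((h.monic hv.1.1).1.map _).ne_zero
  have hw : ∀ i, ∃ y : ℚ_[ℓ], algebraMap ℚ_[ℓ] (AlgebraicClosure ℚ_[ℓ]) y = ι (x i) := by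
    intro i
    have h1 := push_root ℓ ι (hx i)
    have h2 : ι (x i) ∈ (((P v).map (algebraMap ℚ ℚ_[ℓ])).map
        (algebraMap ℚ_[ℓ] (AlgebraicClosure ℚ_[ℓ]))).roots := by
      rw [mem_roots ((Polynomial.map_ne_zero_iff
        (algebraMap ℚ_[ℓ] (AlgebraicClosure ℚ_[ℓ])).injective).2 hQ0), IsRoot.def,
        eval_map_algebraMap]
      exact h1
    rw [hsplit.roots_map] at h2
    obtain ⟨y, -, hy⟩ := Multiset.mem_map.1 h2
    exact ⟨y, hy⟩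
  choose y hy using hw
  have hyf : (fun i => algebraMap ℚ_[ℓ] (AlgebraicClosure ℚ_[ℓ]) (y i)) = fun i => ι (x i) :=
    funext hy
  refine ⟨v, hv, not_mem_of_lt v hp.out ((le_max_right _ _).trans_lt hbℓ), y, ?_, fun i => ?_, ?_⟩
  · intro i j hij
    apply hinj
    apply ι.injective
    rw [← hy, ← hy, hij]
  · apply (algebraMap ℚ_[ℓ] (AlgebraicClosure ℚ_[ℓ])).injective
    rw [map_zero, ← aeval_algebraMap_apply, hy]
    exact push_root ℓ ι (hx i)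
  · rw [← mrel_map (algebraMap ℚ_[ℓ] (AlgebraicClosure ℚ_[ℓ])) y, hyf, mrel_map, hR]

theorem typ_mem_aut {R : Set (Fin N → ℤ)} {a : Equiv.Perm (Fin N)} {Q : ℚ[X]} {g : GK ℚ}
    (hg : g ∈ Typ R a Q) : a ∈ relAut R := by
  obtain ⟨x, -, -, hR, hxa⟩ := hg
  refine mem_autR_of hR ?_
  have h2 : (fun i => x (a i)) = fun i => g (x i) := funext fun i => (hxa i).symm
  rw [h2]
  exact (mrel_map (g : QQ ≃ₐ[ℚ] QQ).toRingEquiv.toRingHom x).trans hR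

/-- the zero-one law, global form -/
theorem main_global (h : Setup K Γ s N wt c r S P ρ 𝔤) (R : Set (Fin N → ℤ))
    (htrans : ∀ i j, ∃ a ∈ relAut R, a i = j) {J : Type} [Finite J]
    {T : J → Set (Equiv.Perm (Fin N))} (hne : ∃ j, (T j).Nonempty)
    (hT : GeneratesInvariably (relAut R) (⋃ j, T j)) (hT' : SeparatedModulo (relAut R) T)
    (σ₀ : J → GK ℚ) (hσ₀ : ∀ j, ∀ a ∈ T j, ∃ v, GoodPl S P r v ∧ σ₀ j ∈ Typ R a (P v))
    (hK : HasGoodPrime S P r) :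
    HasDensityZero {ℓ | ∃ _ : Fact ℓ.Prime, ¬ (Semisimple (ρ ℓ) ∧ TateTensorsOf (ρ ℓ) (𝔤 ℓ))} := by
  classical
  have hINT : S_INT := Y484.ZI.t1
  have hCHEB : S_CHEB := Y726.ZI.t1
  have hDENS2 : S_DENS2 := Y681.ZI.t hCHEB
  have hLF : S_LF := Y255.SS.t
  have hCF : S_CF := Y297.SS.t hLF
  have hLOC : S_LOC := Y708.SS.Loc.t hCF
  have hSPL : S_SPL := Y674.ZS.t
  have htop := closure_top h hLOC R hne hT hT' σ₀ hσ₀
  have hTA : (⋃ j, T j) ⊆ relAut R := fun a ha => by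
    obtain ⟨j, hj⟩ := Set.mem_iUnion.1 ha
    obtain ⟨v, hv, hw⟩ := hσ₀ j a hj
    exact typ_mem_aut hw
  let T' : Set (Equiv.Perm (Fin N)) := ⋃ j, T j
  have hT'ne : T'.Nonempty := by
    obtain ⟨j, a, ha⟩ := hne
    exact ⟨a, Set.mem_iUnion.2 ⟨j, ha⟩⟩
  let _ : Fintype T' := Fintype.ofFinite _
  -- the technical prime
  obtain ⟨p₀, hp₀, hunr, hp₀S, hind₀, v₀, hv₀, hr⟩ : ∃ p : ℕ, p.Prime ∧ UnramifiedIn K p ∧
      (∀ v, Above v p → v ∉ S) ∧ IndependentPlaces (fun v (_ : Unit) => P v) p ∧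
        ∃ v, Above v p ∧ IndepRoots r {P v} := by
    rcases hK with hK | hK
    · obtain ⟨j, a, ha⟩ := hne
      obtain ⟨v, hv, -⟩ := hσ₀ j a ha
      obtain ⟨p, hp, hpv⟩ := exists_prime' v
      exact ⟨p, hp, unramified_one hK hp, fun v' hv' => by
        rw [(above_iff_one hK hp hpv v').1 hv']
        exact hv.1.1, independentPlaces_of_one _ (above_iff_one hK hp hpv), v, hpv, hv.2⟩
    · exact hK
  -- the bad primes
  have hbad1 : ∀ a : T',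
      Pool.Agent.Y142.ZI.DensityZero {ℓ | ∃ _ : Fact ℓ.Prime, ¬ LocTyp S P r ℓ R a} := by
    rintro ⟨a, ha⟩
    obtain ⟨j, hj⟩ := Set.mem_iUnion.1 ha
    obtain ⟨v, hv, hw⟩ := hσ₀ j a hj
    exact density_typ h hLOC hINT hDENS2 hCF htop R a hv hw
  have hbad2 : Pool.Agent.Y142.ZI.DensityZero
      {ℓ | ∃ _ : Fact ℓ.Prime, ¬ SplTyp (N := N) S P r ℓ R} := by
    obtain ⟨j, a, ha⟩ := hne
    obtain ⟨v, hv, x, hinj, hx, hR, -⟩ := hσ₀ j a ha
    exact density_spl h hLOC hINT hDENS2 hSPL htop R hv (w := 1) ⟨x, hinj, hx, hR, fun i => rfl⟩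
  have hbad3 : ∀ A : Finset T', Pool.Agent.Y142.ZI.DensityZero
      (⋃ a ∈ A, {ℓ | ∃ _ : Fact ℓ.Prime, ¬ LocTyp S P r ℓ R (a : Equiv.Perm (Fin N))}) := by
    intro A
    induction A using Finset.induction_on with
    | empty =>
      simp only [Finset.notMem_empty, Set.iUnion_of_empty, Set.iUnion_empty]
      exact densityZero_finite Set.finite_empty
    | insert a A _ ih =>
      rw [Finset.set_biUnion_insert]
      exact (hbad1 a).union ih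
  refine Y142.ZI.DensityZero.mono (((hbad3 Finset.univ).union hbad2).union
    (densityZero_finite (Set.finite_singleton p₀))) ?_
  rintro ℓ ⟨hp, hno⟩
  by_contra hnot
  rw [Set.mem_union, not_or, Set.mem_union, not_or] at hnot
  obtain ⟨⟨hn1, hn2⟩, hn3⟩ := hnot
  have hloc : ∀ a ∈ T', LocTyp S P r ℓ R a := by
    intro a ha
    by_contra hcon
    exact hn1 (Set.mem_iUnion₂.2 ⟨⟨a, ha⟩, Finset.mem_univ _, hp, hcon⟩)
  have hspl : SplTyp (N := N) S P r ℓ R := by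
    by_contra hcon
    exact hn2 ⟨hp, hcon⟩
  exact hno (full_place s h.cont_s (fun _ => wt) S h.fin (fun v _ => P v) ℓ (ρ ℓ) (h.cont ℓ)
    (fun v hv hvℓ _ => h.good ℓ v hv hvℓ) _ (h.motivic ℓ) r (h.rank ℓ) hp₀ (fun he => hn3 he.symm)
    hunr hp₀S hind₀ hv₀ (independentRoots_one hr)
    (local_endos h ℓ R htrans hT'ne hT hTA hspl hloc))

theorem rankR_of {r : ℕ} {R : Set (Fin N → ℤ)} (h : RankGE r R) : RankR r R := by
  classical
  obtain ⟨J, hJ, h1⟩ := h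
  let e := (J.equivFinOfCardEq hJ).symm
  have hinj : Injective fun k => (e k : Fin N) := fun a b hab => e.injective (Subtype.ext hab)
  have hpush : ∀ (n : Fin r → ℤ) (k : Fin r), push (fun k => (e k : Fin N)) n (e k) = n k := by
    intro n k
    rw [push, Finset.sum_eq_single k]
    · intro j hj hne
      exact absurd (hinj (Finset.mem_filter.1 hj).2) hne
    · intro hk
      exact (hk (by simp)).elim
  refine ⟨fun k => (e k : Fin N), fun n hn => ?_⟩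
  have h2 := h1 _ hn fun i hi => by
    rw [push, Finset.sum_eq_zero]
    intro j hj
    exact absurd ((Finset.mem_filter.1 hj).2 ▸ (e j).2) hi
  funext k
  rw [← hpush n k, h2]
  rfl

/-- the types at one prime give global types -/
theorem main_local (h : Setup K Γ s N wt c r S P ρ 𝔤) (R : Set (Fin N → ℤ)) (hR : RankGE r R)
    (T : Set (Equiv.Perm (Fin N)))
    (ℓ₀ : ℕ) [Fact ℓ₀.Prime] (τ₀ : Gal(PadicAlgCl ℓ₀/ℚ_[ℓ₀]))
    (hτ₀ : ∀ a ∈ T, ∃ σ : Gal(AlgebraicClosure K/K), HasType (ρ ℓ₀) (s σ) R τ₀ a) :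
    ∃ σ₀ : GK ℚ, ∀ a ∈ T, ∃ v, GoodPl S P r v ∧ σ₀ ∈ Typ R a (P v) := by
  obtain ⟨ι⟩ := emb ℓ₀
  obtain ⟨σ₀, hσ₀⟩ := restrict_aut ι τ₀
  refine ⟨σ₀, fun a ha => ?_⟩
  obtain ⟨σ, z, hz', hpow, hzR, hτ⟩ := hτ₀ a ha
  have hinj : Injective z := fun i j hij => hpow i j 1 one_pos (by rw [hij])
  have hchar : (matRep (ρ ℓ₀) (s σ)).charpoly = ((ρ ℓ₀) () (s σ)).charpoly := by
    rw [matRep_apply, ← Matrix.charpoly_toLin', Matrix.toLin'_toMatrix']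
  have hz : ∀ i, aeval (z i) (matRep (ρ ℓ₀) (s σ)).charpoly = 0 := by
    intro i
    rw [hchar]
    exact hz' i
  obtain ⟨hsep, hall⟩ := sep_of_roots (Matrix.charpoly_monic _) (by
    rw [Matrix.charpoly_natDegree_eq_dim, Fintype.card_fin]) hinj hz
  have hdist : DistPow ℓ₀ (matRep (ρ ℓ₀) (s σ)).charpoly := by
    intro n x y hn hx hy hxy
    obtain ⟨i, rfl⟩ := hall x hx
    obtain ⟨j, rfl⟩ := hall y hy
    rw [hpow i j n hn hxy]
  obtain ⟨v, hv, -, h1⟩ := realize h Unit (fun _ => ℓ₀) (fun _ _ _ => rfl) (fun _ => σ)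
    (fun _ => hsep) (fun _ => hdist) (fun _ => z) (fun _ => hinj) (fun _ => hz)
    (fun _ => by rw [hzR]; exact rankR_of hR)
  obtain ⟨z', hinj', hz', hzR', hτ'⟩ := h1 ()
  have hlift : ∀ a, ∃ y : QQ, aeval y (P v) = 0 ∧ ι y = z' a := fun a =>
    lift_root ℓ₀ ι hv.1.2.1.ne_zero (hz' a)
  choose x hx hxz using hlift
  have hxz' : (fun a => ι (x a)) = z' := funext hxz
  refine ⟨v, hv, x, fun a b hab => hinj' (by rw [← hxz, ← hxz, hab]), hx, ?_, fun i => ?_⟩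
  · rw [← mrel_map ι x, hxz', hzR', hzR]
  · apply ι.injective
    rw [← hσ₀, hxz, hxz]
    exact hτ' τ₀ i (a i) (hτ i)

/-- the zero-one law -/
theorem main_types (h : Setup K Γ s N wt c r S P ρ 𝔤) (hK : HasGoodPrime S P r)
    (R : Set (Fin N → ℤ)) (hR : RankGE r R) (htrans : ∀ i j, ∃ a ∈ relAut R, a i = j)
    {J : Type} [Finite J] (T : J → Set (Equiv.Perm (Fin N))) (hne : ∃ j, (T j).Nonempty)
    (hT : GeneratesInvariably (relAut R) (⋃ j, T j)) (hT' : SeparatedModulo (relAut R) T)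
    (p : J → ℕ) [∀ j, Fact (p j).Prime] (τ : ∀ j, Gal(PadicAlgCl (p j)/ℚ_[p j]))
    (hτ : ∀ j, ∀ a ∈ T j, ∃ σ : Gal(AlgebraicClosure K/K), HasType (ρ (p j)) (s σ) R (τ j) a) :
    HasDensityZero {ℓ | ∃ _ : Fact ℓ.Prime, ¬ (Semisimple (ρ ℓ) ∧ TateTensorsOf (ρ ℓ) (𝔤 ℓ))} := by
  choose σ₀ hσ₀ using fun j => main_local h R hR (T j) (p j) (τ j) (hτ j)
  exact main_global h R htrans hne hT hT' σ₀ hσ₀ hK

end

end Pool.Agent.R931.ZL
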